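import Pool.Agent.Lib.MP_e6e31f_co.LA.Look

section

set_option autoImplicit false

/-! # Lookahead strategies in the two-player hat game: definitions

A bit `b : Bool` has the sign `sg b = ±1`.  A *window* is a pair `(a, b)`: `b` = hat number `k`,
`a` = hat number `k - 1` of the partner's stack. -/

namespace Pool.Agent.Lib.MP_e6e31f_co.LA

/-- the sign of a bit -/
def sg (b : Bool) : ℝ := if b then 1 else -1

/-- windows -/
abbrev W := Bool × Bool

/-- entry of a list of four numbers at a window, order `(-,-), (-,+), (+,-), (+,+)` -/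
def wt (l : List ℕ) (w : W) : ℕ := l.getD (2 * w.1.toNat + w.2.toNat) 0

/-- the library: triples (masses of the first player, masses of the second player, 5 * bound) -/
def lib : List (List ℕ × List ℕ × ℕ) :=
  [ ([1,0,0,0],[1,0,0,0],2), ([1,0,0,0],[0,1,0,0],5), ([1,0,0,0],[0,0,1,0],5), ([1,0,0,0],[0,0,0,1],5)
  , ([0,1,0,0],[1,0,0,0],5), ([0,1,0,0],[0,1,0,0],15), ([0,1,0,0],[0,0,1,0],2), ([0,1,0,0],[0,0,0,1],5)
  , ([0,0,1,0],[1,0,0,0],5), ([0,0,1,0],[0,1,0,0],2), ([0,0,1,0],[0,0,1,0],15), ([0,0,1,0],[0,0,0,1],5)
  , ([0,0,0,1],[1,0,0,0],5), ([0,0,0,1],[0,1,0,0],5), ([0,0,0,1],[0,0,1,0],5), ([0,0,0,1],[0,0,0,1],2)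
  , ([1,1,0,0],[1,1,0,0],8), ([1,1,0,0],[0,1,1,0],8), ([1,1,0,0],[1,0,0,1],8), ([1,1,0,0],[0,0,1,1],8)
  , ([0,1,1,0],[1,1,0,0],8), ([0,1,1,0],[0,1,1,0],8), ([0,1,1,0],[1,0,0,1],8), ([0,1,1,0],[0,0,1,1],8)
  , ([1,0,0,1],[1,1,0,0],8), ([1,0,0,1],[0,1,1,0],8), ([1,0,0,1],[1,0,0,1],8), ([1,0,0,1],[0,0,1,1],8)
  , ([0,0,1,1],[1,1,0,0],8), ([0,0,1,1],[0,1,1,0],8), ([0,0,1,1],[1,0,0,1],8), ([0,0,1,1],[0,0,1,1],8)
  , ([1,1,0,0],[0,1,0,0],10), ([0,1,0,0],[1,1,0,0],10), ([0,0,1,1],[0,0,1,0],10), ([0,0,1,0],[0,0,1,1],10)
  , ([1,1,1,0],[1,1,1,0],27), ([0,1,1,1],[0,1,1,1],27), ([1,1,0,1],[1,1,0,1],27), ([1,0,1,1],[1,0,1,1],27)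
  , ([1,1,1,1],[0,1,0,1],32), ([0,1,0,1],[1,1,1,1],32), ([1,1,1,1],[1,0,1,0],32), ([1,0,1,0],[1,1,1,1],32)
  , ([0,1,1,1],[0,1,0,1],32), ([0,1,0,1],[0,1,1,1],32), ([1,1,1,0],[1,0,1,0],32), ([1,0,1,0],[1,1,1,0],32)
  , ([1,0,2,0],[1,1,2,1],83), ([1,1,2,1],[1,0,2,0],83), ([0,2,0,1],[1,2,1,1],83), ([1,2,1,1],[0,2,0,1],83)
  , ([1,0,2,0],[1,1,2,0],88), ([1,1,2,0],[1,0,2,0],88), ([0,2,0,1],[0,2,1,1],88), ([0,2,1,1],[0,2,0,1],88) ]

/-- the polyhedron: value functions `F` on pairs of windows that satisfy all bounds of the library -/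
def Good (F : W → W → ℝ) : Prop :=
  ∀ t ∈ lib, 5 * ∑ w : W, ∑ v : W, (wt t.1 w : ℝ) * (wt t.2.1 v : ℝ) * F w v ≤ (t.2.2 : ℝ)

/-- masses of the next windows: `α` = masses of the windows, `δ w c` = mass that stops in window `w`
when the new hat is `c` -/
noncomputable def next (α : W → ℝ) (δ : W → Bool → ℝ) (w : W) : ℝ :=
  ∑ a : Bool, (α (a, w.1) / 2 - δ (a, w.1) w.2)

/-- the reward of one step -/
noncomputable def rew (α β : W → ℝ) (δ ε : W → Bool → ℝ) : ℝ :=
  (∑ w : W, ∑ c : Bool, δ w c * sg w.2) * (∑ v : W, ∑ c : Bool, ε v c * sg v.2)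
  - (∑ w : W, α w * sg w.2) * (∑ v : W, ∑ c : Bool, ε v c * sg v.1)
  - (∑ v : W, β v * sg v.2) * (∑ w : W, ∑ c : Bool, δ w c * sg w.1)

/-- `δ` is a fractional move for the masses `α` -/
def Move (α : W → ℝ) (δ : W → Bool → ℝ) : Prop :=
  ∀ w c, 0 ≤ δ w c ∧ δ w c ≤ α w / 2

/-! ### The game on `N + 1` hats with labels `< N` -/

/-- sign of hat `i` (0 outside of the stack) -/
noncomputable def bit {n : ℕ} (y : Fin n → Bool) (i : ℕ) : ℝ :=
  if h : i < n then sg (y ⟨i, h⟩) else 0

/-- hat `k - 1` (true for `k = 0`) -/
def prev {N : ℕ} (y : Fin (N + 1) → Bool) : ℕ → Bool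
  | 0 => true
  | k + 1 => if h : k < N + 1 then y ⟨k, h⟩ else true

/-- hat `k` (true outside of the stack) -/
def cur {N : ℕ} (y : Fin (N + 1) → Bool) (k : ℕ) : Bool :=
  if h : k < N + 1 then y ⟨k, h⟩ else true

/-- the window at time `k` -/
def win {N : ℕ} (k : ℕ) (y : Fin (N + 1) → Bool) : W := (prev y k, cur y k)

/-- `f` names hats below `N` and has lookahead one -/
def Str {N : ℕ} (f : (Fin (N + 1) → Bool) → ℕ) : Prop :=
  (∀ y, f y < N) ∧ ∀ y y', (∀ i : Fin (N + 1), (i : ℕ) ≤ f y + 1 → y i = y' i) → f y' = f y

/-- `μ` depends only on the hats `≤ k` -/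
def Adapted {N : ℕ} (k : ℕ) (μ : (Fin (N + 1) → Bool) → ℝ) : Prop :=
  ∀ y y', (∀ i : Fin (N + 1), (i : ℕ) ≤ k → y i = y' i) → μ y' = μ y

/-- mass of the stacks that stop at `k`, weighted with `φ` -/
noncomputable def stop {N : ℕ} (f : (Fin (N + 1) → Bool) → ℕ) (μ φ : (Fin (N + 1) → Bool) → ℝ)
    (k : ℕ) : ℝ := ∑ y, if f y = k then μ y * φ y else 0

/-- mass of the stacks that are alive at `k`, weighted with `φ` -/
noncomputable def live {N : ℕ} (f : (Fin (N + 1) → Bool) → ℕ) (μ φ : (Fin (N + 1) → Bool) → ℝ)
    (k : ℕ) : ℝ := ∑ y, if k ≤ f y then μ y * φ y else 0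

/-- alive mass in the window `w` at time `k` -/
noncomputable def mass {N : ℕ} (f : (Fin (N + 1) → Bool) → ℕ) (μ : (Fin (N + 1) → Bool) → ℝ)
    (k : ℕ) (w : W) : ℝ := live f μ (fun y => if win k y = w then 1 else 0) k

/-- reward at time `k` -/
noncomputable def rk {N : ℕ} (f g : (Fin (N + 1) → Bool) → ℕ) (μ ν : (Fin (N + 1) → Bool) → ℝ)
    (k : ℕ) : ℝ :=
  stop f μ (fun y => sg (win k y).2) k * stop g ν (fun y => sg (win k y).2) k
  - live f μ (fun y => sg (win k y).2) k * stop g ν (fun y => sg (win k y).1) k
  - live g ν (fun y => sg (win k y).2) k * stop f μ (fun y => sg (win k y).1) k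

/-- total reward from time `k` on -/
noncomputable def Bk {N : ℕ} (f g : (Fin (N + 1) → Bool) → ℕ) (μ ν : (Fin (N + 1) → Bool) → ℝ)
    (k : ℕ) : ℝ := ∑ n ∈ Finset.Ico k N, rk f g μ ν n

/-! ### More definitions -/

/-- masses of a library element as real numbers -/
noncomputable def wr (l : List ℕ) (w : W) : ℝ := (wt l w : ℝ)

/-- balance of masses: sum of `mass * sg (hat k)` over the windows -/
def bal (l : List ℕ) : ℤ :=
  (l.getD 1 0 : ℤ) + (l.getD 3 0 : ℤ) - (l.getD 0 0 : ℤ) - (l.getD 2 0 : ℤ)

/-- value of a pair of moves -/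
noncomputable def val (α β : W → ℝ) (F : W → W → ℝ) (δ ε : W → Bool → ℝ) : ℝ :=
  rew α β δ ε + ∑ w : W, ∑ v : W, next α δ w * next β ε v * F w v

/-- the vertex of the box of moves with the bits `d` -/
noncomputable def vert (α : W → ℝ) (d : W → Bool → Bool) (w : W) (c : Bool) : ℝ :=
  if d w c then α w / 2 else 0

/-- structured bits; `y` is the balance of the opponent -/
def Struc (y : ℤ) (d : W → Bool → Bool) : Prop :=
  (0 ≤ y → ∀ b c, d (true, b) c = true → d (false, b) c = true) ∧
  (y ≤ 0 → ∀ b c, d (false, b) c = true → d (true, b) c = true)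

/-- mass of the stacks that stop at `k` with window `w` and hat `k + 1` equal to `c` -/
noncomputable def dl {N : ℕ} (f : (Fin (N + 1) → Bool) → ℕ) (μ : (Fin (N + 1) → Bool) → ℝ)
    (k : ℕ) (w : W) (c : Bool) : ℝ :=
  ∑ y, if f y = k ∧ win k y = w ∧ cur y (k + 1) = c then μ y else 0

/-- the measure `μ`, restricted to the stacks that are alive at `k` in the window `w`, normalised -/
noncomputable def res {N : ℕ} (f : (Fin (N + 1) → Bool) → ℕ) (μ : (Fin (N + 1) → Bool) → ℝ)
    (k : ℕ) (w : W) (y : Fin (N + 1) → Bool) : ℝ :=
  (if k ≤ f y ∧ win k y = w then μ y else 0) / mass f μ k w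

/-- the claim of the induction at time `k` -/
def Cl {N : ℕ} (f g : (Fin (N + 1) → Bool) → ℕ) (k : ℕ) : Prop :=
  ∀ t ∈ lib, ∀ μ ν : (Fin (N + 1) → Bool) → ℝ, (∀ y, 0 ≤ μ y) → (∀ y, 0 ≤ ν y) →
    Adapted k μ → Adapted k ν → (∀ w, mass f μ k w = wr t.1 w) →
    (∀ v, mass g ν k v = wr t.2.1 v) → Bk f g μ ν k ≤ (t.2.2 : ℝ) / 5

end Pool.Agent.Lib.MP_e6e31f_co.LA
end

section

set_option autoImplicit false

namespace Pool.Agent.Lib.MP_e6e31f_co.LA

/-- flip of one hat -/
def CT_flip {h : ℕ} (i : Fin h) (x : Fin h → Bool) : Fin h → Bool := Function.update x i (!x i)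

theorem CT_flip_flip {h : ℕ} (i : Fin h) : Function.Involutive (CT_flip i) := by
  intro x
  funext j
  unfold CT_flip
  by_cases hj : j = i
  · subst hj; simp
  · simp [Function.update_of_ne hj]

theorem CT_sg_not (b : Bool) : sg (!b) = - sg b := by
  cases b <;> simp [sg]

theorem CT_zero {h : ℕ} (i : Fin h) : ∑ x : Fin h → Bool, sg (x i) = 0 := by
  have h1 : ∑ x : Fin h → Bool, sg (x i) = ∑ x : Fin h → Bool, sg ((CT_flip i x) i) :=
    (Equiv.sum_comp (CT_flip_flip i).toPerm (fun x : Fin h → Bool => sg (x i))).symm
  have h2 : ∀ x : Fin h → Bool, sg ((CT_flip i x) i) = - sg (x i) := by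
    intro x
    unfold CT_flip
    rw [Function.update_self, CT_sg_not]
  simp only [h2, Finset.sum_neg_distrib] at h1
  linarith

theorem CT_ind (a b : Bool) : (if a = true ∧ b = true then (1 : ℝ) else 0)
    = (1 + sg a + sg b + sg a * sg b) / 4 := by
  cases a <;> cases b <;> norm_num [sg]

theorem count {h : ℕ} (f g : (Fin h → Bool) → Fin h) :
    ((Finset.univ.filter (fun p : (Fin h → Bool) × (Fin h → Bool) =>
      p.1 (f p.2) = true ∧ p.2 (g p.1) = true)).card : ℝ) / (4 : ℝ) ^ h
      = (1 + (∑ x : Fin h → Bool, ∑ y : Fin h → Bool, sg (x (f y)) * sg (y (g x))) / 4 ^ h) / 4 := by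
  have h1 : ((Finset.univ.filter (fun p : (Fin h → Bool) × (Fin h → Bool) =>
      p.1 (f p.2) = true ∧ p.2 (g p.1) = true)).card : ℝ)
      = ∑ x : Fin h → Bool, ∑ y : Fin h → Bool,
        (1 + sg (x (f y)) + sg (y (g x)) + sg (x (f y)) * sg (y (g x))) / 4 := by
    rw [Finset.card_filter, Nat.cast_sum, Fintype.sum_prod_type]
    refine Finset.sum_congr rfl fun x _ => Finset.sum_congr rfl fun y _ => ?_
    rw [← CT_ind]
    push_cast
    rfl
  have h2 : ∑ x : Fin h → Bool, ∑ y : Fin h → Bool, sg (x (f y)) = 0 := by
    rw [Finset.sum_comm]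
    exact Finset.sum_eq_zero fun y _ => CT_zero (f y)
  have h3 : ∑ x : Fin h → Bool, ∑ y : Fin h → Bool, sg (y (g x)) = 0 :=
    Finset.sum_eq_zero fun x _ => CT_zero (g x)
  have h4 : ∑ x : Fin h → Bool, ∑ y : Fin h → Bool, (1 : ℝ) = 4 ^ h := by
    simp only [Finset.sum_const, Finset.card_univ, Fintype.card_fun, Fintype.card_bool,
      Fintype.card_fin, nsmul_eq_mul]
    push_cast
    rw [show (4 : ℝ) = 2 * 2 by norm_num, mul_pow]
    ring
  have h5 : ∑ x : Fin h → Bool, ∑ y : Fin h → Bool,
        (1 + sg (x (f y)) + sg (y (g x)) + sg (x (f y)) * sg (y (g x))) / 4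
      = (4 ^ h + ∑ x : Fin h → Bool, ∑ y : Fin h → Bool, sg (x (f y)) * sg (y (g x))) / 4 := by
    simp only [← Finset.sum_div, Finset.sum_add_distrib, h2, h3, h4]
    ring
  rw [h1, h5]
  have h6 : (4 : ℝ) ^ h ≠ 0 := by positivity
  field_simp

end Pool.Agent.Lib.MP_e6e31f_co.LA
end

section

set_option autoImplicit false

/-! TASK ID (about 120 lines).  The correlation as a sum over time.

Let `a i j = ∑_y [f y = i] bit y j`, `b j i = ∑_x [g x = j] bit x i`.  Then the left side is
`∑ i < N, ∑ j < N, a i j * b j i` (group by `f y = i`, `g x = j`).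
`far`: the flip of hat `j` (`Function.update y j (!y j)`) preserves `f y = i` if `j ≥ i + 2` (the two
stacks agree on the hats `≤ i + 1`) and changes the sign of `bit y j`.
`near`: for `k = i + 1`: `∑_y [f y = i'] bit y k = 0` for `i' + 2 ≤ k` (`far`), `∑_y bit y k = 0` (flip), and
`1 = [f y < i] + [f y = i] + [k ≤ f y]`.  So `a i k = - ∑_y [k ≤ f y] bit y k = - live f 1 (sg (win k y).2) k`.
Products: `a i j * b j i = 0` if `j ≥ i + 2` (`far` for `f`) or `i ≥ j + 2` (`far` for `g`).
`j = i`: `stop * stop`.  `j = i + 1 = k` (`k < N`): `- live f .. k * b k i`, with `i = k - 1`,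
`b k i = stop g 1 (fun y => sg (win k y).1) k`, as `prev y k` is hat `k - 1`.  In the same way
`i = j + 1 = k`.  For `k = 0` the two last terms of `rk` vanish since
`live f 1 (fun y => sg (win 0 y).2) 0 = ∑_y sg (y 0) = 0` (this needs `0 ≤ f y`, true).
Sum over `k < N`: `Finset.range_eq_Ico`. -/

namespace Pool.Agent.Lib.MP_e6e31f_co.LA

variable {N : ℕ}

private theorem ID_flip (P : (Fin (N + 1) → Bool) → Prop) [DecidablePred P] {j : ℕ} (hj : j ≤ N)
    (hP : ∀ y y' : Fin (N + 1) → Bool, (∀ i : Fin (N + 1), (i : ℕ) ≠ j → y i = y' i) → P y → P y') :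
    (∑ y, if P y then bit y j else 0) = 0 := by
  have hj' : j < N + 1 := by omega
  refine Finset.sum_involution
    (fun y _ => Function.update y (⟨j, hj'⟩ : Fin (N + 1)) (!(y ⟨j, hj'⟩))) ?_ ?_ ?_ ?_
  · intro y _
    have h1 : P y ↔ P (Function.update y (⟨j, hj'⟩ : Fin (N + 1)) (!(y ⟨j, hj'⟩))) := by
      constructor
      · refine hP _ _ ?_
        intro i hi
        rw [Function.update_of_ne]
        intro h
        exact hi (by rw [h])
      · refine hP _ _ ?_
        intro i hi
        rw [Function.update_of_ne]
        intro h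
        exact hi (by rw [h])
    have h2 : bit (Function.update y (⟨j, hj'⟩ : Fin (N + 1)) (!(y ⟨j, hj'⟩))) j = - bit y j := by
      unfold bit
      rw [dif_pos hj', dif_pos hj', Function.update_self]
      unfold sg
      cases y ⟨j, hj'⟩ <;> simp
    by_cases h : P y
    · rw [if_pos h, if_pos (h1.1 h), h2]
      ring
    · rw [if_neg h, if_neg (fun h' => h (h1.2 h'))]
      ring
  · intro y _ _ h
    have h3 := congrFun h ⟨j, hj'⟩
    rw [Function.update_self] at h3
    revert h3
    cases y ⟨j, hj'⟩ <;> simp
  · intro y _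
    exact Finset.mem_univ _
  · intro y _
    simp

theorem far {f : (Fin (N + 1) → Bool) → ℕ} (hf : Str f) {i j : ℕ} (hij : i + 2 ≤ j) (hj : j ≤ N) :
    (∑ y, if f y = i then bit y j else 0) = 0 := by
  refine ID_flip (fun y => f y = i) hj ?_
  intro y y' h hy
  rw [← hy]
  refine hf.2 y y' ?_
  intro m hm
  exact h m (by omega)

private theorem ID_all {j : ℕ} (hj : j ≤ N) : (∑ y : Fin (N + 1) → Bool, bit y j) = 0 := by
  have h := ID_flip (N := N) (fun _ => True) hj (fun _ _ _ h => h)
  simpa using h

private theorem ID_win {k : ℕ} (hk : k ≤ N) (y : Fin (N + 1) → Bool) : sg (win k y).2 = bit y k := by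
  have hk' : k < N + 1 := by omega
  unfold win cur bit
  rw [dif_pos hk']
  simp only
  rw [dif_pos hk']

private theorem ID_winp {k : ℕ} (hk : k ≤ N) (y : Fin (N + 1) → Bool) :
    sg (win (k + 1) y).1 = bit y k := by
  have hk' : k < N + 1 := by omega
  unfold win prev bit
  rw [dif_pos hk']
  simp only
  rw [dif_pos hk']

private theorem ID_live (f : (Fin (N + 1) → Bool) → ℕ) {k : ℕ} (hk : k ≤ N) :
    live f (fun _ => 1) (fun y => sg (win k y).2) k = ∑ y, if k ≤ f y then bit y k else 0 := by
  unfold live
  refine Finset.sum_congr rfl fun y _ => ?_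
  dsimp only
  rw [ID_win hk, one_mul]

private theorem ID_stop (f : (Fin (N + 1) → Bool) → ℕ) {k : ℕ} (hk : k ≤ N) :
    stop f (fun _ => 1) (fun y => sg (win k y).2) k = ∑ y, if f y = k then bit y k else 0 := by
  unfold stop
  refine Finset.sum_congr rfl fun y _ => ?_
  dsimp only
  rw [ID_win hk, one_mul]

private theorem ID_stopp (f : (Fin (N + 1) → Bool) → ℕ) {k : ℕ} (hk : k ≤ N) :
    stop f (fun _ => 1) (fun y => sg (win (k + 1) y).1) (k + 1)
      = ∑ y, if f y = k + 1 then bit y k else 0 := by
  unfold stop
  refine Finset.sum_congr rfl fun y _ => ?_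
  dsimp only
  rw [ID_winp hk, one_mul]

theorem near {f : (Fin (N + 1) → Bool) → ℕ} (hf : Str f) {i : ℕ} (hi : i + 1 ≤ N) :
    (∑ y, if f y = i then bit y (i + 1) else 0)
      = - live f (fun _ => 1) (fun y => sg (win (i + 1) y).2) (i + 1) := by
  rw [ID_live f hi]
  have h1 : (∑ y, if f y < i then bit y (i + 1) else 0) = 0 := by
    refine ID_flip (fun y => f y < i) hi ?_
    intro y y' h hy
    have h2 : f y' = f y := by
      refine hf.2 y y' ?_
      intro m hm
      exact h m (by omega)
    show f y' < i
    rw [h2]
    exact hy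
  have h2 := ID_all (N := N) hi
  have h3 : (∑ y : Fin (N + 1) → Bool, bit y (i + 1))
      = (∑ y, if f y < i then bit y (i + 1) else 0) + (∑ y, if f y = i then bit y (i + 1) else 0)
        + (∑ y, if i + 1 ≤ f y then bit y (i + 1) else 0) := by
    rw [← Finset.sum_add_distrib, ← Finset.sum_add_distrib]
    refine Finset.sum_congr rfl fun y _ => ?_
    rcases lt_trichotomy (f y) i with h | h | h
    · rw [if_pos h, if_neg (by omega), if_neg (by omega)]
      ring
    · rw [if_neg (by omega), if_pos h, if_neg (by omega)]
      ring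
    · rw [if_neg (by omega), if_neg (by omega), if_pos (by omega)]
      ring
  linarith

private theorem ID_sum (T : ℕ → ℕ → ℝ) (r : ℕ → ℝ) (N : ℕ)
    (h1 : ∀ i j, i + 2 ≤ j → j < N → T i j = 0) (h2 : ∀ i j, j + 2 ≤ i → i < N → T i j = 0)
    (h0 : 0 < N → r 0 = T 0 0)
    (hr : ∀ k, k + 1 < N → r (k + 1) = T (k + 1) (k + 1) + T k (k + 1) + T (k + 1) k) :
    ∀ M, M ≤ N → ∑ i ∈ Finset.range M, ∑ j ∈ Finset.range M, T i j = ∑ k ∈ Finset.range M, r k := by
  intro M
  induction M with
  | zero => intro _; simp
  | succ M ih =>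
    intro hM
    rw [Finset.sum_range_succ, Finset.sum_range_succ _ M, Finset.sum_range_succ r]
    have h3 : ∑ i ∈ Finset.range M, ∑ j ∈ Finset.range (M + 1), T i j
        = ∑ i ∈ Finset.range M, ∑ j ∈ Finset.range M, T i j + ∑ i ∈ Finset.range M, T i M := by
      rw [← Finset.sum_add_distrib]
      refine Finset.sum_congr rfl fun i _ => ?_
      rw [Finset.sum_range_succ]
    rw [h3, ih (by omega)]
    rcases M with _ | M
    · simp [h0 (by omega)]
    · rw [hr M (by omega)]
      have h4 : ∑ i ∈ Finset.range (M + 1), T i (M + 1) = T M (M + 1) := by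
        rw [Finset.sum_range_succ, Finset.sum_eq_zero, zero_add]
        intro i hi
        rw [Finset.mem_range] at hi
        exact h1 _ _ (by omega) (by omega)
      have h5 : ∑ j ∈ Finset.range (M + 1), T (M + 1) j = T (M + 1) M := by
        rw [Finset.sum_range_succ, Finset.sum_eq_zero, zero_add]
        intro j hj
        rw [Finset.mem_range] at hj
        exact h2 _ _ (by omega) (by omega)
      rw [h4, h5]
      ring

private theorem ID_pick {M a b : ℕ} (ha : a < M) (hb : b < M) (F G : ℕ → ℝ) :
    F a * G b = ∑ i ∈ Finset.range M, ∑ j ∈ Finset.range M,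
      (if b = i then F j else 0) * (if a = j then G i else 0) := by
  rw [Finset.sum_eq_single b]
  · rw [Finset.sum_eq_single a]
    · rw [if_pos rfl, if_pos rfl]
    · intro j _ hj
      rw [if_neg (fun h : a = j => hj h.symm), mul_zero]
    · intro h
      exact absurd (Finset.mem_range.2 ha) h
  · intro i _ hi
    refine Finset.sum_eq_zero fun j _ => ?_
    rw [if_neg (fun h => hi h.symm), zero_mul]
  · intro h
    exact absurd (Finset.mem_range.2 hb) h

private theorem ID_double {f g : (Fin (N + 1) → Bool) → ℕ} (hf : Str f) (hg : Str g) :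
    ∑ x : Fin (N + 1) → Bool, ∑ y : Fin (N + 1) → Bool, bit x (f y) * bit y (g x)
      = ∑ i ∈ Finset.range N, ∑ j ∈ Finset.range N,
        (∑ y, if f y = i then bit y j else 0) * (∑ x, if g x = j then bit x i else 0) := by
  have h1 : ∀ x y : Fin (N + 1) → Bool, bit x (f y) * bit y (g x)
      = ∑ i ∈ Finset.range N, ∑ j ∈ Finset.range N,
        (if f y = i then bit y j else 0) * (if g x = j then bit x i else 0) := by
    intro x y
    have h2 := ID_pick (hg.1 x) (hf.1 y) (fun j => bit y j) (fun i => bit x i)
    rw [← h2, mul_comm]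
  calc ∑ x : Fin (N + 1) → Bool, ∑ y : Fin (N + 1) → Bool, bit x (f y) * bit y (g x)
      = ∑ x : Fin (N + 1) → Bool, ∑ y : Fin (N + 1) → Bool,
        ∑ i ∈ Finset.range N, ∑ j ∈ Finset.range N,
          (if f y = i then bit y j else 0) * (if g x = j then bit x i else 0) := by
        refine Finset.sum_congr rfl fun x _ => Finset.sum_congr rfl fun y _ => h1 x y
    _ = ∑ x : Fin (N + 1) → Bool, ∑ i ∈ Finset.range N, ∑ j ∈ Finset.range N,
          (∑ y : Fin (N + 1) → Bool, if f y = i then bit y j else 0)
            * (if g x = j then bit x i else 0) := by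
        refine Finset.sum_congr rfl fun x _ => ?_
        rw [Finset.sum_comm]
        refine Finset.sum_congr rfl fun i _ => ?_
        rw [Finset.sum_comm]
        refine Finset.sum_congr rfl fun j _ => ?_
        rw [Finset.sum_mul]
    _ = _ := by
        rw [Finset.sum_comm]
        refine Finset.sum_congr rfl fun i _ => ?_
        rw [Finset.sum_comm]
        refine Finset.sum_congr rfl fun j _ => ?_
        rw [Finset.mul_sum]

theorem ident {f g : (Fin (N + 1) → Bool) → ℕ} (hf : Str f) (hg : Str g) :
    ∑ x : Fin (N + 1) → Bool, ∑ y : Fin (N + 1) → Bool, bit x (f y) * bit y (g x) = Bk f g (fun _ => 1) (fun _ => 1) 0 := by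
  rw [ID_double hf hg]
  unfold Bk
  rw [← Finset.range_eq_Ico]
  refine ID_sum (fun i j => (∑ y, if f y = i then bit y j else 0)
    * (∑ x, if g x = j then bit x i else 0)) (rk f g (fun _ => 1) (fun _ => 1)) N
    ?_ ?_ ?_ ?_ N le_rfl
  · intro i j hij hj
    show (∑ y, if f y = i then bit y j else 0) * (∑ x, if g x = j then bit x i else 0) = 0
    rw [far hf hij (by omega), zero_mul]
  · intro i j hij hi
    show (∑ y, if f y = i then bit y j else 0) * (∑ x, if g x = j then bit x i else 0) = 0
    rw [far hg hij (by omega), mul_zero]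
  · intro _
    show rk f g (fun _ => 1) (fun _ => 1) 0
      = (∑ y, if f y = 0 then bit y 0 else 0) * (∑ x, if g x = 0 then bit x 0 else 0)
    have h0 := ID_all (N := N) (Nat.zero_le N)
    unfold rk
    rw [ID_live f (Nat.zero_le N), ID_live g (Nat.zero_le N), ID_stop f (Nat.zero_le N),
      ID_stop g (Nat.zero_le N)]
    simp only [Nat.zero_le, if_true, h0]
    ring
  · intro k hk
    show rk f g (fun _ => 1) (fun _ => 1) (k + 1)
      = (∑ y, if f y = k + 1 then bit y (k + 1) else 0) * (∑ x, if g x = k + 1 then bit x (k + 1) else 0)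
        + (∑ y, if f y = k then bit y (k + 1) else 0) * (∑ x, if g x = k + 1 then bit x k else 0)
        + (∑ y, if f y = k + 1 then bit y k else 0) * (∑ x, if g x = k then bit x (k + 1) else 0)
    unfold rk
    rw [near hf (by omega), near hg (by omega), ID_stop f (by omega), ID_stop g (by omega),
      ID_stopp f (by omega), ID_stopp g (by omega)]
    ring

end Pool.Agent.Lib.MP_e6e31f_co.LA
end

section

set_option autoImplicit false

/-! TASK BL (about 60 lines).  `Bk` is bilinear and sees only the stacks that are alive at `k`.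

`Bk_congr`: `Bk f g μ ν k = ∑ n ∈ Ico k N, rk f g μ ν n`, and `rk .. n` contains `μ y` only for
`f y = n` or `n ≤ f y`, where `n ≥ k`.
`Bk_sum`: `stop f μ φ n` and `live f μ φ n` are linear in `μ`; so `rk` is a sum of three products of a
linear function of `μ` and a linear function of `ν`.
`Bk_succ`, `Bk_top`: `Finset.sum_eq_sum_Ico_succ_bot`, `Finset.Ico_self`. -/

namespace Pool.Agent.Lib.MP_e6e31f_co.LA

variable {N : ℕ}

private theorem BL_stop_congr (f : (Fin (N + 1) → Bool) → ℕ) {μ μ' : (Fin (N + 1) → Bool) → ℝ}
    (φ : (Fin (N + 1) → Bool) → ℝ) {k n : ℕ} (hkn : k ≤ n) (hμ : ∀ y, k ≤ f y → μ y = μ' y) :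
    stop f μ φ n = stop f μ' φ n := by
  unfold stop
  refine Finset.sum_congr rfl fun y _ => ?_
  by_cases h : f y = n
  · rw [if_pos h, if_pos h, hμ y (by omega)]
  · rw [if_neg h, if_neg h]

private theorem BL_live_congr (f : (Fin (N + 1) → Bool) → ℕ) {μ μ' : (Fin (N + 1) → Bool) → ℝ}
    (φ : (Fin (N + 1) → Bool) → ℝ) {k n : ℕ} (hkn : k ≤ n) (hμ : ∀ y, k ≤ f y → μ y = μ' y) :
    live f μ φ n = live f μ' φ n := by
  unfold live
  refine Finset.sum_congr rfl fun y _ => ?_
  by_cases h : n ≤ f y
  · rw [if_pos h, if_pos h, hμ y (by omega)]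
  · rw [if_neg h, if_neg h]

private theorem BL_stop_sum (f : (Fin (N + 1) → Bool) → ℕ) (c : W → ℝ)
    (μ : W → (Fin (N + 1) → Bool) → ℝ) (φ : (Fin (N + 1) → Bool) → ℝ) (n : ℕ) :
    stop f (fun y => ∑ w, c w * μ w y) φ n = ∑ w, c w * stop f (μ w) φ n := by
  unfold stop
  simp only [Finset.mul_sum]
  rw [Finset.sum_comm]
  refine Finset.sum_congr rfl fun y _ => ?_
  by_cases h : f y = n
  · simp only [h, if_true]
    rw [Finset.sum_mul]
    exact Finset.sum_congr rfl fun w _ => mul_assoc _ _ _
  · simp [h]

private theorem BL_live_sum (f : (Fin (N + 1) → Bool) → ℕ) (c : W → ℝ)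
    (μ : W → (Fin (N + 1) → Bool) → ℝ) (φ : (Fin (N + 1) → Bool) → ℝ) (n : ℕ) :
    live f (fun y => ∑ w, c w * μ w y) φ n = ∑ w, c w * live f (μ w) φ n := by
  unfold live
  simp only [Finset.mul_sum]
  rw [Finset.sum_comm]
  refine Finset.sum_congr rfl fun y _ => ?_
  by_cases h : n ≤ f y
  · simp only [h, if_true]
    rw [Finset.sum_mul]
    exact Finset.sum_congr rfl fun w _ => mul_assoc _ _ _
  · simp [h]

private theorem BL_rk_sum (f g : (Fin (N + 1) → Bool) → ℕ) (c d : W → ℝ)
    (μ ν : W → (Fin (N + 1) → Bool) → ℝ) (n : ℕ) :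
    rk f g (fun y => ∑ w, c w * μ w y) (fun x => ∑ v, d v * ν v x) n
      = ∑ w, ∑ v, c w * d v * rk f g (μ w) (ν v) n := by
  unfold rk
  rw [BL_stop_sum, BL_stop_sum, BL_stop_sum, BL_stop_sum, BL_live_sum, BL_live_sum]
  rw [Finset.sum_mul_sum, Finset.sum_mul_sum, Finset.sum_mul_sum]
  rw [Finset.sum_comm (f := fun i j => d i * live g (ν i) (fun y => sg (win n y).2) n *
    (c j * stop f (μ j) (fun y => sg (win n y).1) n))]
  rw [← Finset.sum_sub_distrib, ← Finset.sum_sub_distrib]
  refine Finset.sum_congr rfl fun w _ => ?_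
  rw [← Finset.sum_sub_distrib, ← Finset.sum_sub_distrib]
  refine Finset.sum_congr rfl fun v _ => ?_
  ring

theorem Bk_congr (f g : (Fin (N + 1) → Bool) → ℕ) {μ μ' ν ν' : (Fin (N + 1) → Bool) → ℝ} (k : ℕ)
    (hμ : ∀ y, k ≤ f y → μ y = μ' y) (hν : ∀ y, k ≤ g y → ν y = ν' y) :
    Bk f g μ ν k = Bk f g μ' ν' k := by
  unfold Bk
  refine Finset.sum_congr rfl fun n hn => ?_
  have hkn : k ≤ n := (Finset.mem_Ico.1 hn).1
  unfold rk
  rw [BL_stop_congr f _ hkn hμ, BL_stop_congr g _ hkn hν, BL_live_congr f _ hkn hμ, BL_stop_congr g _ hkn hν,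
    BL_live_congr g _ hkn hν, BL_stop_congr f _ hkn hμ]

theorem Bk_sum (f g : (Fin (N + 1) → Bool) → ℕ) (c d : W → ℝ)
    (μ ν : W → (Fin (N + 1) → Bool) → ℝ) (k : ℕ) :
    Bk f g (fun y => ∑ w, c w * μ w y) (fun x => ∑ v, d v * ν v x) k
      = ∑ w, ∑ v, c w * d v * Bk f g (μ w) (ν v) k := by
  unfold Bk
  rw [Finset.sum_congr rfl fun n _ => BL_rk_sum f g c d μ ν n, Finset.sum_comm]
  refine Finset.sum_congr rfl fun w _ => ?_
  rw [Finset.sum_comm]
  refine Finset.sum_congr rfl fun v _ => ?_
  rw [Finset.mul_sum]

theorem Bk_succ (f g : (Fin (N + 1) → Bool) → ℕ) (μ ν : (Fin (N + 1) → Bool) → ℝ) {k : ℕ}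
    (hk : k < N) : Bk f g μ ν k = rk f g μ ν k + Bk f g μ ν (k + 1) := by
  unfold Bk
  exact Finset.sum_eq_sum_Ico_succ_bot hk _

theorem Bk_top (f g : (Fin (N + 1) → Bool) → ℕ) (μ ν : (Fin (N + 1) → Bool) → ℝ) :
    Bk f g μ ν N = 0 := by
  unfold Bk
  rw [Finset.Ico_self, Finset.sum_empty]

end Pool.Agent.Lib.MP_e6e31f_co.LA
end

section

set_option autoImplicit false

/-! TASK FI (about 60 lines).  Windows without mass can be filled with a very negative value.

Put `F w v = F₀ w v` if `m w ≠ 0` and `n v ≠ 0`, and `F w v = -1000` otherwise.  The second claim is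
clear.  `Good F`: (i) `F w v ≤ 3` for all `w, v`: for `m w, n v ≠ 0` the library contains the element
with the unit masses at `w` and `v` and a bound `≤ 15` (the first 16 elements; `decide` on
`∀ w v, ∃ t ∈ lib, (∀ w', wt t.1 w' = if w' = w then 1 else 0) ∧ (∀ v', ...) ∧ t.2.2 ≤ 15`), so `h` gives
`5 * F₀ w v ≤ 15`.  (ii) Let `t ∈ lib`.  If `wt t.1 w ≠ 0 → m w ≠ 0` and `wt t.2.1 v ≠ 0 → n v ≠ 0` for
all `w, v`, then the sum for `F` equals the sum for `F₀` term by term.  Otherwise there is a pair
`(w₀, v₀)` with both weights `≥ 1` and `F w₀ v₀ = -1000` (all masses of the library are not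
identically zero), the corresponding term is `≤ -1000`, all the other terms are
`≤ 3 * wt t.1 w * wt t.2.1 v`, and `(∑ wt t.1 w) * (∑ wt t.2.1 v) ≤ 100` (`decide`); so the sum is
`≤ 300 - 1000 < 0 ≤ t.2.2 / 5`. -/

namespace Pool.Agent.Lib.MP_e6e31f_co.LA

private theorem FI_unit : ∀ w v : W, ∃ t ∈ lib, (∀ w', wt t.1 w' = if w' = w then 1 else 0) ∧
    (∀ v', wt t.2.1 v' = if v' = v then 1 else 0) ∧ t.2.2 ≤ 15 := by
  decide

private theorem FI_ne : ∀ t ∈ lib, (∃ w, wt t.1 w ≠ 0) ∧ ∃ v, wt t.2.1 v ≠ 0 := by
  decide

private theorem FI_tot : ∀ t ∈ lib, (∑ w : W, wt t.1 w) * (∑ v : W, wt t.2.1 v) ≤ 100 := by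
  decide

private theorem FI_bad (F : W → W → ℝ) (h3 : ∀ w v, F w v ≤ 3) (t : List ℕ × List ℕ × ℕ) (ht : t ∈ lib)
    (w₀ v₀ : W) (hw : wt t.1 w₀ ≠ 0) (hv : wt t.2.1 v₀ ≠ 0) (hF : F w₀ v₀ = -1000) :
    5 * ∑ w : W, ∑ v : W, (wt t.1 w : ℝ) * (wt t.2.1 v : ℝ) * F w v ≤ (t.2.2 : ℝ) := by
  have hterm : ∀ w v : W, (wt t.1 w : ℝ) * (wt t.2.1 v : ℝ) * F w v ≤
      3 * ((wt t.1 w : ℝ) * (wt t.2.1 v : ℝ)) - if w = w₀ then (if v = v₀ then 1003 else 0) else 0 := by
    intro w v
    have hp : 0 ≤ (wt t.1 w : ℝ) * (wt t.2.1 v : ℝ) := by positivity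
    by_cases e1 : w = w₀
    · by_cases e2 : v = v₀
      · rw [if_pos e1, if_pos e2, e1, e2, hF]
        have a1 : (1 : ℝ) ≤ wt t.1 w₀ := by exact_mod_cast Nat.one_le_iff_ne_zero.mpr hw
        have a2 : (1 : ℝ) ≤ wt t.2.1 v₀ := by exact_mod_cast Nat.one_le_iff_ne_zero.mpr hv
        have a3 : (1 : ℝ) ≤ (wt t.1 w₀ : ℝ) * (wt t.2.1 v₀ : ℝ) := one_le_mul_of_one_le_of_one_le a1 a2
        linarith
      · rw [if_pos e1, if_neg e2]
        have := mul_le_mul_of_nonneg_left (h3 w v) hp
        linarith
    · rw [if_neg e1]
      have := mul_le_mul_of_nonneg_left (h3 w v) hp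
      linarith
  have hsum : ∑ w : W, ∑ v : W, (wt t.1 w : ℝ) * (wt t.2.1 v : ℝ) * F w v ≤
      ∑ w : W, ∑ v : W, (3 * ((wt t.1 w : ℝ) * (wt t.2.1 v : ℝ)) -
        if w = w₀ then (if v = v₀ then 1003 else 0) else 0) :=
    Finset.sum_le_sum fun w _ => Finset.sum_le_sum fun v _ => hterm w v
  have htot : ∑ w : W, ∑ v : W, 3 * ((wt t.1 w : ℝ) * (wt t.2.1 v : ℝ)) =
      3 * ((∑ w : W, (wt t.1 w : ℝ)) * ∑ v : W, (wt t.2.1 v : ℝ)) := by
    rw [Finset.sum_mul_sum, Finset.mul_sum]
    exact Finset.sum_congr rfl fun w _ => by rw [Finset.mul_sum]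
  have hone : ∑ w : W, ∑ v : W, (if w = w₀ then (if v = v₀ then (1003 : ℝ) else 0) else 0) = 1003 := by
    have h5 : ∀ w : W, ∑ v : W, (if w = w₀ then (if v = v₀ then (1003 : ℝ) else 0) else 0) =
        if w = w₀ then 1003 else 0 := by
      intro w
      by_cases e : w = w₀
      · rw [if_pos e]
        simp only [if_pos e, Finset.sum_ite_eq', Finset.mem_univ, if_true]
      · rw [if_neg e]
        simp only [if_neg e, Finset.sum_const_zero]
    simp only [h5, Finset.sum_ite_eq', Finset.mem_univ, if_true]
  have h100 : (∑ w : W, (wt t.1 w : ℝ)) * (∑ v : W, (wt t.2.1 v : ℝ)) ≤ 100 := by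
    exact_mod_cast FI_tot t ht
  have hs2 : ∑ w : W, ∑ v : W, (3 * ((wt t.1 w : ℝ) * (wt t.2.1 v : ℝ)) -
      if w = w₀ then (if v = v₀ then 1003 else 0) else 0) =
      3 * ((∑ w : W, (wt t.1 w : ℝ)) * ∑ v : W, (wt t.2.1 v : ℝ)) - 1003 := by
    simp only [Finset.sum_sub_distrib]
    rw [htot, hone]
  rw [hs2] at hsum
  have h0 : (0 : ℝ) ≤ (t.2.2 : ℝ) := Nat.cast_nonneg _
  linarith

theorem fill (m n : W → ℝ) (F₀ : W → W → ℝ)
    (h : ∀ t ∈ lib, (∀ w, wt t.1 w ≠ 0 → m w ≠ 0) → (∀ v, wt t.2.1 v ≠ 0 → n v ≠ 0) →
      5 * ∑ w : W, ∑ v : W, (wt t.1 w : ℝ) * (wt t.2.1 v : ℝ) * F₀ w v ≤ (t.2.2 : ℝ)) :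
    ∃ F : W → W → ℝ, Good F ∧ ∀ w v, m w * n v * F w v = m w * n v * F₀ w v := by
  classical
  obtain ⟨F, hFd⟩ : ∃ F : W → W → ℝ, F = fun w v => if m w ≠ 0 ∧ n v ≠ 0 then F₀ w v else -1000 :=
    ⟨_, rfl⟩
  have hF1 : ∀ w v, m w ≠ 0 → n v ≠ 0 → F w v = F₀ w v := by
    intro w v h1 h2
    rw [hFd]
    exact if_pos ⟨h1, h2⟩
  have hF2 : ∀ w v, ¬ (m w ≠ 0 ∧ n v ≠ 0) → F w v = -1000 := by
    intro w v h1
    rw [hFd]
    exact if_neg h1
  have h3 : ∀ w v, F w v ≤ 3 := by
    intro w v
    by_cases hc : m w ≠ 0 ∧ n v ≠ 0
    · rw [hF1 w v hc.1 hc.2]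
      obtain ⟨t, ht, h1, h2, h15⟩ := FI_unit w v
      have h4 := h t ht (fun w' hw' => by
        rw [h1 w'] at hw'
        by_cases e : w' = w
        · rw [e]; exact hc.1
        · rw [if_neg e] at hw'; exact absurd rfl hw') (fun v' hv' => by
        rw [h2 v'] at hv'
        by_cases e : v' = v
        · rw [e]; exact hc.2
        · rw [if_neg e] at hv'; exact absurd rfl hv')
      have h5 : ∑ w' : W, ∑ v' : W, (wt t.1 w' : ℝ) * (wt t.2.1 v' : ℝ) * F₀ w' v' = F₀ w v := by
        rw [Finset.sum_eq_single w, Finset.sum_eq_single v]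
        · rw [h1, h2, if_pos rfl, if_pos rfl]
          simp
        · intro v' _ hv'
          rw [h2, if_neg hv']
          simp
        · intro hv'
          exact absurd (Finset.mem_univ _) hv'
        · intro w' _ hw'
          refine Finset.sum_eq_zero fun v' _ => ?_
          rw [h1, if_neg hw']
          simp
        · intro hw'
          exact absurd (Finset.mem_univ _) hw'
      rw [h5] at h4
      have h6 : (t.2.2 : ℝ) ≤ 15 := by exact_mod_cast h15
      linarith
    · rw [hF2 w v hc]
      norm_num
  refine ⟨F, ?_, ?_⟩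
  · intro t ht
    by_cases hw : ∀ w, wt t.1 w ≠ 0 → m w ≠ 0
    · by_cases hv : ∀ v, wt t.2.1 v ≠ 0 → n v ≠ 0
      · have h4 := h t ht hw hv
        have h5 : ∑ w : W, ∑ v : W, (wt t.1 w : ℝ) * (wt t.2.1 v : ℝ) * F w v =
            ∑ w : W, ∑ v : W, (wt t.1 w : ℝ) * (wt t.2.1 v : ℝ) * F₀ w v := by
          refine Finset.sum_congr rfl fun w _ => Finset.sum_congr rfl fun v _ => ?_
          by_cases e1 : wt t.1 w = 0
          · rw [e1]; simp
          · by_cases e2 : wt t.2.1 v = 0
            · rw [e2]; simp
            · rw [hF1 w v (hw w e1) (hv v e2)]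
        rw [h5]
        exact h4
      · push Not at hv
        obtain ⟨v₀, hv1, hv2⟩ := hv
        obtain ⟨w₀, hw1⟩ := (FI_ne t ht).1
        exact FI_bad F h3 t ht w₀ v₀ hw1 hv1 (hF2 w₀ v₀ fun hc => hc.2 hv2)
    · push Not at hw
      obtain ⟨w₀, hw1, hw2⟩ := hw
      obtain ⟨v₀, hv1⟩ := (FI_ne t ht).2
      exact FI_bad F h3 t ht w₀ v₀ hw1 hv1 (hF2 w₀ v₀ fun hc => hc.1 hw2)
  · intro w v
    by_cases e1 : m w = 0
    · rw [e1]; simp
    · by_cases e2 : n v = 0
      · rw [e2]; simp
      · rw [hF1 w v e1 e2]

end Pool.Agent.Lib.MP_e6e31f_co.LA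
end

section

set_option autoImplicit false

/-! TASK HA (about 60 lines).  Facts on hats `≤ k`.

`adapted_mono`, `win_eq`: unfold.  (`win k y = (prev y k, cur y k)`; `prev y k` reads hat `k - 1`,
`cur y k` reads hat `k` if it exists.)
`alive_iff`: if `f y < k` then `y, y'` agree on the hats `≤ f y + 1 ≤ k`, so `f y' = f y < k`;
the same with `y, y'` exchanged.
`half_sum`: `Function.update y (k+1) (!y (k+1))` is an involution of the stacks that does not change
`φ` (adapted) and exchanges the events `cur y (k+1) = true / false`; so both sums are equal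
(`Finset.sum_nbij'` or `Equiv.sum_comp`), and they add up to `∑ φ`. -/

namespace Pool.Agent.Lib.MP_e6e31f_co.LA

variable {N : ℕ}

theorem adapted_mono {k l : ℕ} (hkl : k ≤ l) {μ : (Fin (N + 1) → Bool) → ℝ} (h : Adapted k μ) :
    Adapted l μ :=
  fun y y' hy => h y y' (fun i hi => hy i (hi.trans hkl))

theorem HA_alive_aux {f : (Fin (N + 1) → Bool) → ℕ} (hf : Str f) {k : ℕ}
    {y y' : Fin (N + 1) → Bool}
    (h : ∀ i : Fin (N + 1), (i : ℕ) ≤ k → y i = y' i) (hy : k ≤ f y') : k ≤ f y := by
  by_contra hc
  have hlt : f y < k := not_le.mp hc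
  have he : f y' = f y := hf.2 y y' (fun i hi => h i (by omega))
  omega

theorem alive_iff {f : (Fin (N + 1) → Bool) → ℕ} (hf : Str f) {k : ℕ} {y y' : Fin (N + 1) → Bool}
    (h : ∀ i : Fin (N + 1), (i : ℕ) ≤ k → y i = y' i) : k ≤ f y ↔ k ≤ f y' :=
  ⟨fun hy => HA_alive_aux hf (fun i hi => (h i hi).symm) hy, fun hy => HA_alive_aux hf h hy⟩

theorem win_eq {k : ℕ} {y y' : Fin (N + 1) → Bool}
    (h : ∀ i : Fin (N + 1), (i : ℕ) ≤ k → y i = y' i) : win k y = win k y' := by
  have h1 : cur y k = cur y' k := by
    unfold cur
    by_cases hk : k < N + 1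
    · rw [dif_pos hk, dif_pos hk]
      exact h ⟨k, hk⟩ le_rfl
    · rw [dif_neg hk, dif_neg hk]
  have h2 : prev y k = prev y' k := by
    cases k with
    | zero => rfl
    | succ m =>
      show (if h : m < N + 1 then y ⟨m, h⟩ else true) =
        if h : m < N + 1 then y' ⟨m, h⟩ else true
      by_cases hk : m < N + 1
      · rw [dif_pos hk, dif_pos hk]
        exact h ⟨m, hk⟩ (Nat.le_succ m)
      · rw [dif_neg hk, dif_neg hk]
  unfold win
  rw [h1, h2]

theorem HA_cur {k : ℕ} (hk : k < N) (y : Fin (N + 1) → Bool) :
    cur y (k + 1) = y ⟨k + 1, Nat.succ_lt_succ hk⟩ := by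
  unfold cur
  rw [dif_pos (Nat.succ_lt_succ hk)]

/-- flip of the hat `k + 1` -/
theorem HA_flip_flip {k : ℕ} (hk : k < N) (y : Fin (N + 1) → Bool) :
    Function.update (Function.update y ⟨k + 1, Nat.succ_lt_succ hk⟩
      (!y ⟨k + 1, Nat.succ_lt_succ hk⟩)) ⟨k + 1, Nat.succ_lt_succ hk⟩
      (!(Function.update y ⟨k + 1, Nat.succ_lt_succ hk⟩
        (!y ⟨k + 1, Nat.succ_lt_succ hk⟩) ⟨k + 1, Nat.succ_lt_succ hk⟩)) = y := by
  rw [Function.update_self, Bool.not_not, Function.update_idem, Function.update_eq_self]

theorem HA_swap {k : ℕ} (hk : k < N) {φ : (Fin (N + 1) → Bool) → ℝ} (hφ : Adapted k φ)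
    (c : Bool) :
    (∑ y, if cur y (k + 1) = c then φ y else 0) =
      ∑ y, if cur y (k + 1) = !c then φ y else 0 := by
  refine Finset.sum_nbij'
    (fun y => Function.update y ⟨k + 1, Nat.succ_lt_succ hk⟩ (!y ⟨k + 1, Nat.succ_lt_succ hk⟩))
    (fun y => Function.update y ⟨k + 1, Nat.succ_lt_succ hk⟩ (!y ⟨k + 1, Nat.succ_lt_succ hk⟩))
    (fun y _ => Finset.mem_univ _) (fun y _ => Finset.mem_univ _)
    (fun y _ => HA_flip_flip hk y) (fun y _ => HA_flip_flip hk y) ?_
  intro y _
  have h1 : φ (Function.update y ⟨k + 1, Nat.succ_lt_succ hk⟩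
      (!y ⟨k + 1, Nat.succ_lt_succ hk⟩)) = φ y := by
    apply hφ
    intro i hi
    rw [Function.update_of_ne]
    intro he
    rw [he] at hi
    simp only at hi
    omega
  have h2 : cur (Function.update y ⟨k + 1, Nat.succ_lt_succ hk⟩
      (!y ⟨k + 1, Nat.succ_lt_succ hk⟩)) (k + 1) = !cur y (k + 1) := by
    rw [HA_cur hk, HA_cur hk, Function.update_self]
  show (if cur y (k + 1) = c then φ y else 0) =
    if cur (Function.update y ⟨k + 1, Nat.succ_lt_succ hk⟩
      (!y ⟨k + 1, Nat.succ_lt_succ hk⟩)) (k + 1) = !c then
      φ (Function.update y ⟨k + 1, Nat.succ_lt_succ hk⟩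
        (!y ⟨k + 1, Nat.succ_lt_succ hk⟩)) else 0
  rw [h1, h2]
  by_cases hc : cur y (k + 1) = c
  · rw [if_pos hc, if_pos (by rw [hc])]
  · rw [if_neg hc, if_neg (fun h => hc (Bool.not_inj h))]

theorem HA_both {k : ℕ} {φ : (Fin (N + 1) → Bool) → ℝ} (c : Bool) :
    (∑ y, if cur y (k + 1) = c then φ y else 0) +
      (∑ y, if cur y (k + 1) = !c then φ y else 0) = ∑ y, φ y := by
  rw [← Finset.sum_add_distrib]
  refine Finset.sum_congr rfl (fun y _ => ?_)
  by_cases hc : cur y (k + 1) = c
  · have hn : ¬ (cur y (k + 1) = !c) := by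
      rw [hc]
      cases c <;> simp
    rw [if_pos hc, if_neg hn, add_zero]
  · have hn : cur y (k + 1) = !c := by
      revert hc
      cases cur y (k + 1) <;> cases c <;> simp
    rw [if_neg hc, if_pos hn, zero_add]

theorem half_sum {k : ℕ} (hk : k < N) {φ : (Fin (N + 1) → Bool) → ℝ} (hφ : Adapted k φ) (c : Bool) :
    (∑ y, if cur y (k + 1) = c then φ y else 0) = (∑ y, φ y) / 2 := by
  have h1 := HA_swap hk hφ c
  have h2 := HA_both (N := N) (k := k) (φ := φ) c
  linarith

end Pool.Agent.Lib.MP_e6e31f_co.LA
end

section

set_option autoImplicit false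

/-! TASK MV (about 80 lines).  One step of the game in terms of masses.  Black box: file HA.

Write `[..]` for the indicator.
`move_dl`: `0 ≤ dl w c` as `μ ≥ 0`; `dl w c ≤ ∑_y [k ≤ f y, win k y = w, cur y (k+1) = c] μ y`
`= (∑_y [k ≤ f y, win k y = w] μ y) / 2 = mass f μ k w / 2` by `half_sum` for the adapted function
`φ y = [k ≤ f y, win k y = w] μ y` (`alive_iff`, `win_eq`).
`mass_succ`: `win (k+1) y = (cur y k, cur y (k+1))`, so
`mass f μ (k+1) (b, c) = ∑_y [k+1 ≤ f y, cur y k = b, cur y (k+1) = c] μ y`
`= ∑_a ∑_y [k+1 ≤ f y, win k y = (a, b), cur y (k+1) = c] μ y` and `[k+1 ≤ f y] = [k ≤ f y] - [f y = k]`;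
the first part is `mass f μ k (a, b) / 2` as above, the second one is `dl f μ k (a, b) c`.
`rk_eq` (no hypotheses): `stop f μ (fun y => sg (win k y).2) k = ∑ w, ∑ c, dl f μ k w c * sg w.2`
(every `y` with `f y = k` is counted for exactly one `w, c`), the same with `.1`, and
`live f μ (fun y => sg (win k y).2) k = ∑ w, mass f μ k w * sg w.2`. -/

namespace Pool.Agent.Lib.MP_e6e31f_co.LA

variable {N : ℕ}

private theorem MV_mass (f : (Fin (N + 1) → Bool) → ℕ) (μ : (Fin (N + 1) → Bool) → ℝ) (k : ℕ) (w : W) :
    mass f μ k w = ∑ y, if k ≤ f y ∧ win k y = w then μ y else 0 := by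
  unfold mass live
  refine Finset.sum_congr rfl fun y _ => ?_
  by_cases h1 : k ≤ f y <;> by_cases h2 : win k y = w <;> simp [h1, h2]

private theorem MV_half {f : (Fin (N + 1) → Bool) → ℕ} (hf : Str f) {k : ℕ} (hk : k < N)
    {μ : (Fin (N + 1) → Bool) → ℝ} (hμ : Adapted k μ) (w : W) (c : Bool) :
    (∑ y, if cur y (k + 1) = c then (if k ≤ f y ∧ win k y = w then μ y else 0) else 0) = mass f μ k w / 2 := by
  rw [MV_mass]
  refine half_sum hk (φ := fun y => if k ≤ f y ∧ win k y = w then μ y else 0) ?_ c
  intro y y' h
  have h1 := alive_iff hf h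
  have h2 := win_eq (k := k) h
  have h3 := hμ y y' h
  simp only [h1, h2, h3]

private theorem MV_stop (f : (Fin (N + 1) → Bool) → ℕ) (μ : (Fin (N + 1) → Bool) → ℝ) (k : ℕ) (ψ : W → ℝ) :
    stop f μ (fun y => ψ (win k y)) k = ∑ w : W, ∑ c : Bool, dl f μ k w c * ψ w := by
  unfold stop dl
  simp only [Finset.sum_mul]
  have e : (∑ w : W, ∑ c : Bool, ∑ y : (Fin (N + 1) → Bool),
      (if f y = k ∧ win k y = w ∧ cur y (k + 1) = c then μ y else 0) * ψ w) =
      ∑ y : (Fin (N + 1) → Bool), ∑ w : W, ∑ c : Bool,
      (if f y = k ∧ win k y = w ∧ cur y (k + 1) = c then μ y else 0) * ψ w :=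
    (Finset.sum_congr rfl fun w _ => Finset.sum_comm).trans Finset.sum_comm
  rw [e]
  refine Finset.sum_congr rfl fun y _ => ?_
  by_cases h : f y = k
  · rw [Finset.sum_eq_single (win k y), Finset.sum_eq_single (cur y (k + 1))]
    · simp [h]
    · intro c _ hc
      rw [if_neg, zero_mul]
      rintro ⟨-, -, h2⟩
      exact hc h2.symm
    · intro h2
      exact absurd (Finset.mem_univ _) h2
    · intro w _ hw
      refine Finset.sum_eq_zero fun c _ => ?_
      rw [if_neg, zero_mul]
      rintro ⟨-, h2, -⟩
      exact hw h2.symm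
    · intro h2
      exact absurd (Finset.mem_univ _) h2
  · rw [if_neg h]
    symm
    refine Finset.sum_eq_zero fun w _ => Finset.sum_eq_zero fun c _ => ?_
    rw [if_neg, zero_mul]
    rintro ⟨h2, -, -⟩
    exact h h2

private theorem MV_live (f : (Fin (N + 1) → Bool) → ℕ) (μ : (Fin (N + 1) → Bool) → ℝ) (k : ℕ) (ψ : W → ℝ) :
    live f μ (fun y => ψ (win k y)) k = ∑ w : W, mass f μ k w * ψ w := by
  simp only [MV_mass, Finset.sum_mul]
  unfold live
  rw [Finset.sum_comm]
  refine Finset.sum_congr rfl fun y _ => ?_
  by_cases h : k ≤ f y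
  · rw [Finset.sum_eq_single (win k y)]
    · simp [h]
    · intro w _ hw
      rw [if_neg, zero_mul]
      rintro ⟨-, h2⟩
      exact hw h2.symm
    · intro h2
      exact absurd (Finset.mem_univ _) h2
  · rw [if_neg h]
    symm
    refine Finset.sum_eq_zero fun w _ => ?_
    rw [if_neg, zero_mul]
    rintro ⟨h2, -⟩
    exact h h2

theorem move_dl {f : (Fin (N + 1) → Bool) → ℕ} (hf : Str f) {k : ℕ} (hk : k < N)
    {μ : (Fin (N + 1) → Bool) → ℝ} (hμ : Adapted k μ) (h0 : ∀ y, 0 ≤ μ y) :
    Move (mass f μ k) (dl f μ k) := by
  intro w c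
  constructor
  · unfold dl
    refine Finset.sum_nonneg fun y _ => ?_
    split_ifs
    · exact h0 y
    · exact le_rfl
  · rw [← MV_half hf hk hμ w c]
    unfold dl
    refine Finset.sum_le_sum fun y _ => ?_
    by_cases h1 : cur y (k + 1) = c
    · rw [if_pos h1]
      by_cases h2 : f y = k ∧ win k y = w ∧ cur y (k + 1) = c
      · rw [if_pos h2, if_pos ⟨h2.1.ge, h2.2.1⟩]
      · rw [if_neg h2]
        split_ifs
        · exact h0 y
        · exact le_rfl
    · rw [if_neg h1, if_neg (fun h2 => h1 h2.2.2)]

theorem mass_succ {f : (Fin (N + 1) → Bool) → ℕ} (hf : Str f) {k : ℕ} (hk : k < N)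
    {μ : (Fin (N + 1) → Bool) → ℝ} (hμ : Adapted k μ) :
    mass f μ (k + 1) = next (mass f μ k) (dl f μ k) := by
  funext w
  obtain ⟨b, c⟩ := w
  unfold next
  simp only
  rw [MV_mass]
  have e : ∀ a : Bool, mass f μ k (a, b) / 2 - dl f μ k (a, b) c =
      ∑ y, ((if cur y (k + 1) = c then (if k ≤ f y ∧ win k y = (a, b) then μ y else 0) else 0) -
        (if f y = k ∧ win k y = (a, b) ∧ cur y (k + 1) = c then μ y else 0)) := by
    intro a
    rw [Finset.sum_sub_distrib, MV_half hf hk hμ (a, b) c]
    rfl
  rw [Finset.sum_congr rfl fun a _ => e a, Finset.sum_comm]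
  refine Finset.sum_congr rfl fun y _ => ?_
  rw [Fintype.sum_bool]
  have e1 : win (k + 1) y = (cur y k, cur y (k + 1)) := rfl
  have e2 : win k y = (prev y k, cur y k) := rfl
  rw [e1, e2]
  generalize prev y k = p
  generalize cur y k = q
  generalize cur y (k + 1) = r
  rcases lt_trichotomy (f y) k with h | h | h
  · have h1 : ¬ k + 1 ≤ f y := by omega
    have h2 : ¬ k ≤ f y := by omega
    have h3 : ¬ f y = k := by omega
    simp [h1, h2, h3]
  · have h1 : ¬ k + 1 ≤ f y := by omega
    have h2 : k ≤ f y := by omega
    simp only [h1, h2, h, false_and, true_and, if_false]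
    cases p <;> cases q <;> cases r <;> cases b <;> cases c <;> simp
  · have h1 : k + 1 ≤ f y := by omega
    have h2 : k ≤ f y := by omega
    have h3 : ¬ f y = k := by omega
    simp only [h1, h2, h3, false_and, true_and, if_false]
    cases p <;> cases q <;> cases r <;> cases b <;> cases c <;> simp

theorem rk_eq (f g : (Fin (N + 1) → Bool) → ℕ) (μ ν : (Fin (N + 1) → Bool) → ℝ) (k : ℕ) :
    rk f g μ ν k = rew (mass f μ k) (mass g ν k) (dl f μ k) (dl g ν k) := by
  unfold rk rew
  rw [MV_stop f μ k (fun w => sg w.2), MV_stop g ν k (fun w => sg w.2), MV_live f μ k (fun w => sg w.2),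
    MV_stop g ν k (fun w => sg w.1), MV_live g ν k (fun w => sg w.2), MV_stop f μ k (fun w => sg w.1)]

end Pool.Agent.Lib.MP_e6e31f_co.LA
end

section

set_option autoImplicit false

/-! TASK BX (about 90 lines).  A bi-affine function on a product of two boxes is largest at vertices,
and the bits of the vertices can be chosen structured.

`box_one`: let `d w c = true` iff `0 ≤ A w.2 c - y * sg w.1`.  Then `δ w c * κ ≤ vert α d w c * κ` for every
`w, c` (`κ` the bracket; `0 ≤ δ w c ≤ α w / 2`), and `d` is structured: the brackets for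
`w = (true, b)` and `(false, b)` are `A b c - y` and `A b c + y`.
`box`: `val α β F δ ε` is affine in `δ`: it is `const + ∑ w, ∑ c, δ w c * (A w.2 c - y' * sg w.1)` with
`A b c = sg b * (∑ v, ∑ c', ε v c' * sg v.2) - ∑ v, next β ε v * F (b, c) v` and a constant which does not
depend on `δ` (note `next α δ w = ∑ a, (α (a, w.1) / 2 - δ (a, w.1) w.2)`).  So `box_one` gives `d` with
`Struc y' d` and `val α β F δ ε ≤ val α β F (vert α d) ε`.  Then the same in the second
variable (with `y`): `val α β F (vert α d) ε ≤ val α β F (vert α d) (vert β e)`, `Struc y e`.  (The second half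
follows from the first one and `val α β F δ ε = val β α (fun v w => F w v) ε δ`.) -/

namespace Pool.Agent.Lib.MP_e6e31f_co.LA

theorem box_one (α : W → ℝ) (hα : ∀ w, 0 ≤ α w) (A : Bool → Bool → ℝ) (y : ℤ) (δ : W → Bool → ℝ)
    (hδ : Move α δ) : ∃ d, Struc y d ∧
      ∑ w : W, ∑ c, δ w c * (A w.2 c - (y : ℝ) * sg w.1)
        ≤ ∑ w : W, ∑ c, vert α d w c * (A w.2 c - (y : ℝ) * sg w.1) := by
  classical
  refine ⟨fun w c => decide (0 ≤ A w.2 c - (y : ℝ) * sg w.1), ⟨?_, ?_⟩, ?_⟩
  · intro hy b c h
    have h1 : 0 ≤ A b c - (y : ℝ) * sg true := of_decide_eq_true h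
    have hy' : (0 : ℝ) ≤ y := by exact_mod_cast hy
    apply decide_eq_true
    show 0 ≤ A b c - (y : ℝ) * sg false
    have e1 : sg true = 1 := by simp [sg]
    have e2 : sg false = -1 := by simp [sg]
    rw [e1] at h1
    rw [e2]
    linarith
  · intro hy b c h
    have h1 : 0 ≤ A b c - (y : ℝ) * sg false := of_decide_eq_true h
    have hy' : (y : ℝ) ≤ 0 := by exact_mod_cast hy
    apply decide_eq_true
    show 0 ≤ A b c - (y : ℝ) * sg true
    have e1 : sg true = 1 := by simp [sg]
    have e2 : sg false = -1 := by simp [sg]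
    rw [e2] at h1
    rw [e1]
    linarith
  · apply Finset.sum_le_sum
    intro w _
    apply Finset.sum_le_sum
    intro c _
    obtain ⟨h1, h2⟩ := hδ w c
    by_cases hk : 0 ≤ A w.2 c - (y : ℝ) * sg w.1
    · have hv : vert α (fun w c => decide (0 ≤ A w.2 c - (y : ℝ) * sg w.1)) w c = α w / 2 := by
        unfold vert
        rw [if_pos (decide_eq_true hk)]
      rw [hv]
      exact mul_le_mul_of_nonneg_right h2 hk
    · have hv : vert α (fun w c => decide (0 ≤ A w.2 c - (y : ℝ) * sg w.1)) w c = 0 := by
        unfold vert
        rw [if_neg (by simpa using hk)]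
      rw [hv, zero_mul]
      exact mul_nonpos_of_nonneg_of_nonpos h1 (not_le.1 hk).le

theorem BX_aff (α β : W → ℝ) (F : W → W → ℝ) (ε : W → Bool → ℝ) (y' : ℝ)
    (hy' : y' = ∑ v : W, β v * sg v.2) : ∃ (C : ℝ) (A : Bool → Bool → ℝ), ∀ δ : W → Bool → ℝ,
      val α β F δ ε = C + ∑ w : W, ∑ c, δ w c * (A w.2 c - y' * sg w.1) := by
  obtain ⟨G, hG⟩ : ∃ G : W → ℝ, G = fun w => ∑ v : W, next β ε v * F w v := ⟨_, rfl⟩
  obtain ⟨E1, hE1⟩ : ∃ E : ℝ, E = ∑ v : W, ∑ c : Bool, ε v c * sg v.1 := ⟨_, rfl⟩
  obtain ⟨E2, hE2⟩ : ∃ E : ℝ, E = ∑ v : W, ∑ c : Bool, ε v c * sg v.2 := ⟨_, rfl⟩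
  refine ⟨-(∑ w : W, α w * sg w.2) * E1 + ∑ w : W, ∑ a : Bool, α (a, w.1) / 2 * G w,
    fun b c => sg b * E2 - G (b, c), fun δ => ?_⟩
  have h2 : ∑ w : W, ∑ v : W, next α δ w * next β ε v * F w v = ∑ w : W, next α δ w * G w := by
    apply Finset.sum_congr rfl
    intro w _
    rw [hG, Finset.mul_sum]
    apply Finset.sum_congr rfl
    intro v _
    ring
  unfold val rew
  rw [h2, ← hE1, ← hE2, ← hy']
  unfold next
  simp only [Fintype.sum_prod_type, Fintype.sum_bool]
  ring

theorem BX_symm (α β : W → ℝ) (F : W → W → ℝ) (δ ε : W → Bool → ℝ) :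
    val α β F δ ε = val β α (fun v w => F w v) ε δ := by
  have h2 : ∑ w : W, ∑ v : W, next α δ w * next β ε v * F w v =
      ∑ v : W, ∑ w : W, next β ε v * next α δ w * F w v := by
    rw [Finset.sum_comm]
    apply Finset.sum_congr rfl
    intro v _
    apply Finset.sum_congr rfl
    intro w _
    ring
  unfold val rew
  rw [h2]
  ring

theorem box (α β : W → ℝ) (hα : ∀ w, 0 ≤ α w) (hβ : ∀ v, 0 ≤ β v) (y y' : ℤ)
    (hy : (y : ℝ) = ∑ w : W, α w * sg w.2) (hy' : (y' : ℝ) = ∑ v : W, β v * sg v.2)
    (F : W → W → ℝ) (δ ε : W → Bool → ℝ) (hδ : Move α δ) (hε : Move β ε) :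
    ∃ d e, Struc y' d ∧ Struc y e ∧
      val α β F δ ε ≤ val α β F (vert α d) (vert β e) := by
  obtain ⟨C, A, hA⟩ := BX_aff α β F ε (y' : ℝ) hy'
  obtain ⟨d, hd, hd'⟩ := box_one α hα A y' δ hδ
  obtain ⟨C', A', hA'⟩ := BX_aff β α (fun v w => F w v) (vert α d) (y : ℝ) hy
  obtain ⟨e, he, he'⟩ := box_one β hβ A' y ε hε
  refine ⟨d, e, hd, he, ?_⟩
  calc val α β F δ ε ≤ val α β F (vert α d) ε := by
        rw [hA, hA]
        linarith
    _ = val β α (fun v w => F w v) ε (vert α d) := BX_symm α β F (vert α d) ε
    _ ≤ val β α (fun v w => F w v) (vert β e) (vert α d) := by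
        rw [hA', hA']
        linarith
    _ = val α β F (vert α d) (vert β e) := (BX_symm α β F (vert α d) (vert β e)).symm

end Pool.Agent.Lib.MP_e6e31f_co.LA
end

section

set_option autoImplicit false

/-! # The certificate checker

A pair of structured vertices gives masses `m, m'` of the next windows (times 2) and balances
`P, Q, P', Q'`.  A certificate writes `D * (m ⊗ m')` as a nonnegative integer combination of the
products of the library.  Tensors are stored as numbers in base `4096`. -/

namespace Pool.Agent.Lib.MP_e6e31f_co.LA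

/-- four digits -/
def enc (B a b c d : ℕ) : ℕ := a + B * (b + B * (c + B * d))

/-- the two possible cells: stopped masses of the windows `(-, b)` and `(+, b)` -/
def opts (s : ℤ) (u v : ℕ) : List (ℕ × ℕ) :=
  if u = 0 then (if v = 0 then [(0, 0)] else [(0, 0), (0, v)])
  else if v = 0 then [(0, 0), (u, 0)]
  else if 0 < s then [(0, 0), (u, 0), (u, v)]
  else if s < 0 then [(0, 0), (0, v), (u, v)]
  else [(0, 0), (u, v)]

/-- all structured moves: (encoded remaining masses, `P`, `Q`) -/
def mvs (B : ℕ) (s : ℤ) (l : List ℕ) : List (ℕ × ℤ × ℤ) :=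
  (opts s (l.getD 0 0) (l.getD 2 0)).flatMap fun x0 =>
  (opts s (l.getD 0 0) (l.getD 2 0)).flatMap fun x1 =>
  (opts s (l.getD 1 0) (l.getD 3 0)).flatMap fun x2 =>
  (opts s (l.getD 1 0) (l.getD 3 0)).map fun x3 =>
    (enc B (l.getD 0 0 + l.getD 2 0 - x0.1 - x0.2) (l.getD 0 0 + l.getD 2 0 - x1.1 - x1.2)
      (l.getD 1 0 + l.getD 3 0 - x2.1 - x2.2) (l.getD 1 0 + l.getD 3 0 - x3.1 - x3.2),
     ((x2.1 + x2.2 + x3.1 + x3.2 : ℕ) : ℤ) - ((x0.1 + x0.2 + x1.1 + x1.2 : ℕ) : ℤ),
     ((x0.2 + x1.2 + x2.2 + x3.2 : ℕ) : ℤ) - ((x0.1 + x1.1 + x2.1 + x3.1 : ℕ) : ℤ))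

/-- `2 ^ 192` -/
def P192 : ℕ := 6277101735386680763835789423207666416102355444464034512896

/-- `2 ^ 208` -/
def P208 : ℕ := 411376139330301510538742295639337626245683966408394965837152256

/-- the encoded library -/
def T : ℕ := 3352690319344453856265016071780075498201456260109641620070912110322953642949456494753717711898421915819627355551409527921501764637890144802289928354778256150819591559851371385604264963623483274539843391661517269459143443860677075742741042547640729444233277892245823007839297034808205728943286462992501608342606207128709135522234015566825249117735017357359056173019960225784125727105656178192787151277466968481417369257281523198838076575003742433301291068156583759682804172605641594628470247132894729893529678348604412047872270180313239789869252405034431408448723319260915527841966365836486819936676121343836187233219243930536180247911706558870730009122524103692817823473987069849121763792803036044045956618621806652772862960298063520370173319660889031693910689769433005974372001675691913459479177589915903119192538148742751604053518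597003316809092509224625122060783487277050508848503979058136309145389035516072458349418373368909485426520469216072873879176905937521956940132366473847443256215649496166087989006663452035951788131182433026789268675789980769103119594638303096513356873299419563271128517081611712961623612876042647129376427855953383005109408157841503267681378884898446783855438887287777824813218840649039329166044639855390644106140495246825898472935402037629741365269950136890615005374301716924529480985794246826126181889787913638765299886879885009219342405035282589330914812508930146357530408672228365817646126564227596915703126898809749715145202490814341334136392763043642986744348487803549476258423623781972793268775517369682076341504430895634966629121791149778926800802871527977057793409583972467267024243595000768209465351051775301880831387128253186092180016176089223850976328611216266720199670503940148382517730138320536045771373380211588762521355249328777194346012112143800913441443639492350548260142770866126111572853912818108353399511479943070788119490435327542473793714030159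572183631011082074526254347331739131607384079540165562428041192319545812254840122039036890995718599335147044774762188519521828212493653373394532030437275982830446725183224112781242495181744512970894219716671912586648396582518423145644238812185848065366396930107551505805563438155399863729182696940439647057407520441369311062379904003636950236938257956702803522246842026924622757066418234263061350374903825435589877135553379673249803532166983209243952930738137965514690857935076842878179672973107794926480440392310305034144487724325249042226486957519727272697579074867398173837418637106567763203696319475088655204589500135909484970635797730707117211909956333088891990038912313622219796014854247697149735802010336203614335588832142093081007185197453876673790490315450667015256543593929896047055592663923208832630657530022436117180374505226222286243825652289975547743410033346995354095558406171098823573573269290181231409653286763297115610181170671358766966606716710396506189018843036986939491291266148727838388788947245193612451024725010745694563620006582249380120019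60810820597931140965843102564707155366209797655924206384088736103884995249282494007554740635544530356823855451010059972156673735823508755391960358304556112230784614737974609011976733101074834141834792671667331940717912889783421955968216833519771053185817736940657334542968025282339638665333653761931657887603372667571627258404778868861131253979447735844448761113063938618310891595906661970951446537207130055984476908338857699385871535150632826237147336075499161667244495154437708174568886559593480656971722635079881794553884948747540701904897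

/-- encoded element `j` of the library -/
def X (j : ℕ) : ℕ := T / Nat.pow P208 j % P208

/-- value of an encoded combination (`c + 16 * j` in 10 bits for each term) -/
def sm : ℕ → ℕ → ℕ
  | 0, _ => 0
  | n + 1, s => bif Nat.beq s 0 then 0 else (s % 16) * X (s / 16 % 64) + sm n (s / 1024)

/-- check of one certificate -/
def chk1 (y y' : ℤ) (b : ℕ) (a x : ℕ × ℤ × ℤ) (s : ℕ) : Bool :=
  Nat.ble 1 (s % 16) &&
  (Nat.beq (sm 12 (s / 16) % P192) (s % 16 * (a.1 * x.1)) &&
   decide (5 * ((s % 16 : ℕ) : ℤ) * (a.2.1 * x.2.1 - 2 * y * x.2.2 - 2 * y' * a.2.2)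
     + ((sm 12 (s / 16) / P192 : ℕ) : ℤ) ≤ 4 * ((s % 16 : ℕ) : ℤ) * (b : ℤ)))

/-- check of a row -/
def chk2 (y y' : ℤ) (b : ℕ) (a : ℕ × ℤ × ℤ) : List (ℕ × ℤ × ℤ) → List ℕ → Bool
  | [], _ => true
  | _ :: _, [] => false
  | x :: xs, s :: ss => chk1 y y' b a x s && chk2 y y' b a xs ss

/-- check of all rows -/
def chk3 (y y' : ℤ) (b : ℕ) (B : List (ℕ × ℤ × ℤ)) : List (ℕ × ℤ × ℤ) → List (List ℕ) → Bool
  | [], _ => true
  | _ :: _, [] => false
  | a :: as, s :: ss => chk2 y y' b a B s && chk3 y y' b B as ss

/-- check of one element of the library -/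
def chkAll (t : List ℕ × List ℕ × ℕ) (A B : List (ℕ × ℤ × ℤ)) (rows : List (List ℕ)) : Bool :=
  decide (A = mvs 281474976710656 (bal t.2.1) t.1) &&
  (decide (B = mvs 4096 (bal t.1) t.2.1) && chk3 (bal t.1) (bal t.2.1) t.2.2 B A rows)

end Pool.Agent.Lib.MP_e6e31f_co.LA
end

section

set_option autoImplicit false
set_option maxRecDepth 100000

/-! Certificates for the elements 0, ..., 22 of the library. -/

namespace Pool.Agent.Lib.MP_e6e31f_co.LA

/-- moves of the first player for element 0 -/
def A0 : List (ℕ × ℤ × ℤ) := [(281474976710657, 0, 0), (1, (-1), (-1)), (281474976710656, (-1), (-1)), (0, (-2), (-2))]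
/-- moves of the second player -/
def B0 : List (ℕ × ℤ × ℤ) := [(4097, 0, 0), (1, (-1), (-1)), (4096, (-1), (-1)), (0, (-2), (-2))]
/-- certificates -/
def R0 : List (List ℕ) := [
[4113, 1064977, 8209, 1],
[278545, 17, 273, 1],
[8465, 1041, 1297, 1],
[1, 1, 1, 1]]
theorem c0 : chkAll ([1, 0, 0, 0], [1, 0, 0, 0], 2) A0 B0 R0 = true := by decide +kernel

/-- moves of the first player for element 1 -/
def A1 : List (ℕ × ℤ × ℤ) := [(281474976710657, 0, 0), (1, (-1), (-1)), (281474976710656, (-1), (-1)), (0, (-2), (-2))]
/-- moves of the second player -/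
def B1 : List (ℕ × ℤ × ℤ) := [(68736253952, 0, 0), (16777216, 1, (-1)), (68719476736, 1, (-1)), (0, 2, (-2))]
/-- certificates -/
def R1 : List (List ℕ) := [
[4881, 1589777, 1852177, 1],
[803345, 529, 785, 1],
[1852945, 1553, 1809, 1],
[1, 1, 1, 1]]
theorem c1 : chkAll ([1, 0, 0, 0], [0, 1, 0, 0], 5) A1 B1 R1 = true := by decide +kernel

/-- moves of the first player for element 2 -/
def A2 : List (ℕ × ℤ × ℤ) := [(281474976710657, 0, 0), (1, (-1), (-1)), (281474976710656, (-1), (-1)), (0, (-2), (-2))]
/-- moves of the second player -/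
def B2 : List (ℕ × ℤ × ℤ) := [(4097, 0, 0), (1, (-1), 1), (4096, (-1), 1), (0, (-2), 2)]
/-- certificates -/
def R2 : List (List ℕ) := [
[4113, 1064977, 8209, 1],
[278545, 17, 273, 1],
[8465, 1041, 1297, 1],
[1, 1, 1, 1]]
theorem c2 : chkAll ([1, 0, 0, 0], [0, 0, 1, 0], 5) A2 B2 R2 = true := by decide +kernel

/-- moves of the first player for element 3 -/
def A3 : List (ℕ × ℤ × ℤ) := [(281474976710657, 0, 0), (1, (-1), (-1)), (281474976710656, (-1), (-1)), (0, (-2), (-2))]
/-- moves of the second player -/
def B3 : List (ℕ × ℤ × ℤ) := [(68736253952, 0, 0), (16777216, 1, 1), (68719476736, 1, 1), (0, 2, 2)]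
/-- certificates -/
def R3 : List (List ℕ) := [
[4881, 1589777, 1852177, 1],
[803345, 529, 785, 1],
[1852945, 1553, 1809, 1],
[1, 1, 1, 1]]
theorem c3 : chkAll ([1, 0, 0, 0], [0, 0, 0, 1], 5) A3 B3 R3 = true := by decide +kernel

/-- moves of the first player for element 4 -/
def A4 : List (ℕ × ℤ × ℤ) := [(22300745198530702369698232536985955049930752, 0, 0), (79228162514264337593543950336, 1, (-1)), (22300745198530623141535718272648361505980416, 1, (-1)), (0, 2, (-2))]
/-- moves of the second player -/
def B4 : List (ℕ × ℤ × ℤ) := [(4097, 0, 0), (1, (-1), (-1)), (4096, (-1), (-1)), (0, (-2), (-2))]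
/-- certificates -/
def R4 : List (List ℕ) := [
[7185, 3164177, 3426577, 1],
[2377745, 2065, 2321, 1],
[3427345, 3089, 3345, 1],
[1, 1, 1, 1]]
theorem c4 : chkAll ([0, 1, 0, 0], [1, 0, 0, 0], 5) A4 B4 R4 = true := by decide +kernel

/-- moves of the first player for element 5 -/
def A5 : List (ℕ × ℤ × ℤ) := [(22300745198530702369698232536985955049930752, 0, 0), (79228162514264337593543950336, 1, (-1)), (22300745198530623141535718272648361505980416, 1, (-1)), (0, 2, (-2))]
/-- moves of the second player -/
def B5 : List (ℕ × ℤ × ℤ) := [(68736253952, 0, 0), (16777216, 1, (-1)), (68719476736, 1, (-1)), (0, 2, (-2))]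
/-- certificates -/
def R5 : List (List ℕ) := [
[7953, 8721, 3951377, 1],
[8977, 2577, 2833, 1],
[3952145, 3601, 3857, 1],
[1, 1, 1, 1]]
theorem c5 : chkAll ([0, 1, 0, 0], [0, 1, 0, 0], 15) A5 B5 R5 = true := by decide +kernel

/-- moves of the first player for element 6 -/
def A6 : List (ℕ × ℤ × ℤ) := [(22300745198530702369698232536985955049930752, 0, 0), (79228162514264337593543950336, 1, (-1)), (22300745198530623141535718272648361505980416, 1, (-1)), (0, 2, (-2))]
/-- moves of the second player -/
def B6 : List (ℕ × ℤ × ℤ) := [(4097, 0, 0), (1, (-1), 1), (4096, (-1), 1), (0, (-2), 2)]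
/-- certificates -/
def R6 : List (List ℕ) := [
[7185, 3164177, 3426577, 1],
[2377745, 2065, 2321, 1],
[3427345, 3089, 3345, 1],
[1, 1, 1, 1]]
theorem c6 : chkAll ([0, 1, 0, 0], [0, 0, 1, 0], 2) A6 B6 R6 = true := by decide +kernel

/-- moves of the first player for element 7 -/
def A7 : List (ℕ × ℤ × ℤ) := [(22300745198530702369698232536985955049930752, 0, 0), (79228162514264337593543950336, 1, (-1)), (22300745198530623141535718272648361505980416, 1, (-1)), (0, 2, (-2))]
/-- moves of the second player -/
def B7 : List (ℕ × ℤ × ℤ) := [(68736253952, 0, 0), (16777216, 1, 1), (68719476736, 1, 1), (0, 2, 2)]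
/-- certificates -/
def R7 : List (List ℕ) := [
[7953, 8721, 3951377, 1],
[8977, 2577, 2833, 1],
[3952145, 3601, 3857, 1],
[1, 1, 1, 1]]
theorem c7 : chkAll ([0, 1, 0, 0], [0, 0, 0, 1], 5) A7 B7 R7 = true := by decide +kernel

/-- moves of the first player for element 8 -/
def A8 : List (ℕ × ℤ × ℤ) := [(281474976710657, 0, 0), (1, (-1), 1), (281474976710656, (-1), 1), (0, (-2), 2)]
/-- moves of the second player -/
def B8 : List (ℕ × ℤ × ℤ) := [(4097, 0, 0), (1, (-1), (-1)), (4096, (-1), (-1)), (0, (-2), (-2))]
/-- certificates -/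
def R8 : List (List ℕ) := [
[4113, 1064977, 8209, 1],
[278545, 17, 273, 1],
[8465, 1041, 1297, 1],
[1, 1, 1, 1]]
theorem c8 : chkAll ([0, 0, 1, 0], [1, 0, 0, 0], 5) A8 B8 R8 = true := by decide +kernel

/-- moves of the first player for element 9 -/
def A9 : List (ℕ × ℤ × ℤ) := [(281474976710657, 0, 0), (1, (-1), 1), (281474976710656, (-1), 1), (0, (-2), 2)]
/-- moves of the second player -/
def B9 : List (ℕ × ℤ × ℤ) := [(68736253952, 0, 0), (16777216, 1, (-1)), (68719476736, 1, (-1)), (0, 2, (-2))]
/-- certificates -/
def R9 : List (List ℕ) := [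
[4881, 1589777, 1852177, 1],
[803345, 529, 785, 1],
[1852945, 1553, 1809, 1],
[1, 1, 1, 1]]
theorem c9 : chkAll ([0, 0, 1, 0], [0, 1, 0, 0], 2) A9 B9 R9 = true := by decide +kernel

/-- moves of the first player for element 10 -/
def A10 : List (ℕ × ℤ × ℤ) := [(281474976710657, 0, 0), (1, (-1), 1), (281474976710656, (-1), 1), (0, (-2), 2)]
/-- moves of the second player -/
def B10 : List (ℕ × ℤ × ℤ) := [(4097, 0, 0), (1, (-1), 1), (4096, (-1), 1), (0, (-2), 2)]
/-- certificates -/
def R10 : List (List ℕ) := [
[4113, 1064977, 8209, 1],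
[278545, 17, 273, 1],
[8465, 1041, 1297, 1],
[1, 1, 1, 1]]
theorem c10 : chkAll ([0, 0, 1, 0], [0, 0, 1, 0], 15) A10 B10 R10 = true := by decide +kernel

/-- moves of the first player for element 11 -/
def A11 : List (ℕ × ℤ × ℤ) := [(281474976710657, 0, 0), (1, (-1), 1), (281474976710656, (-1), 1), (0, (-2), 2)]
/-- moves of the second player -/
def B11 : List (ℕ × ℤ × ℤ) := [(68736253952, 0, 0), (16777216, 1, 1), (68719476736, 1, 1), (0, 2, 2)]
/-- certificates -/
def R11 : List (List ℕ) := [
[4881, 1589777, 1852177, 1],
[803345, 529, 785, 1],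
[1852945, 1553, 1809, 1],
[1, 1, 1, 1]]
theorem c11 : chkAll ([0, 0, 1, 0], [0, 0, 0, 1], 5) A11 B11 R11 = true := by decide +kernel

/-- moves of the first player for element 12 -/
def A12 : List (ℕ × ℤ × ℤ) := [(22300745198530702369698232536985955049930752, 0, 0), (79228162514264337593543950336, 1, 1), (22300745198530623141535718272648361505980416, 1, 1), (0, 2, 2)]
/-- moves of the second player -/
def B12 : List (ℕ × ℤ × ℤ) := [(4097, 0, 0), (1, (-1), (-1)), (4096, (-1), (-1)), (0, (-2), (-2))]
/-- certificates -/
def R12 : List (List ℕ) := [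
[7185, 3164177, 3426577, 1],
[2377745, 2065, 2321, 1],
[3427345, 3089, 3345, 1],
[1, 1, 1, 1]]
theorem c12 : chkAll ([0, 0, 0, 1], [1, 0, 0, 0], 5) A12 B12 R12 = true := by decide +kernel

/-- moves of the first player for element 13 -/
def A13 : List (ℕ × ℤ × ℤ) := [(22300745198530702369698232536985955049930752, 0, 0), (79228162514264337593543950336, 1, 1), (22300745198530623141535718272648361505980416, 1, 1), (0, 2, 2)]
/-- moves of the second player -/
def B13 : List (ℕ × ℤ × ℤ) := [(68736253952, 0, 0), (16777216, 1, (-1)), (68719476736, 1, (-1)), (0, 2, (-2))]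
/-- certificates -/
def R13 : List (List ℕ) := [
[7953, 8721, 3951377, 1],
[8977, 2577, 2833, 1],
[3952145, 3601, 3857, 1],
[1, 1, 1, 1]]
theorem c13 : chkAll ([0, 0, 0, 1], [0, 1, 0, 0], 5) A13 B13 R13 = true := by decide +kernel

/-- moves of the first player for element 14 -/
def A14 : List (ℕ × ℤ × ℤ) := [(22300745198530702369698232536985955049930752, 0, 0), (79228162514264337593543950336, 1, 1), (22300745198530623141535718272648361505980416, 1, 1), (0, 2, 2)]
/-- moves of the second player -/
def B14 : List (ℕ × ℤ × ℤ) := [(4097, 0, 0), (1, (-1), 1), (4096, (-1), 1), (0, (-2), 2)]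
/-- certificates -/
def R14 : List (List ℕ) := [
[7185, 3164177, 3426577, 1],
[2377745, 2065, 2321, 1],
[3427345, 3089, 3345, 1],
[1, 1, 1, 1]]
theorem c14 : chkAll ([0, 0, 0, 1], [0, 0, 1, 0], 5) A14 B14 R14 = true := by decide +kernel

/-- moves of the first player for element 15 -/
def A15 : List (ℕ × ℤ × ℤ) := [(22300745198530702369698232536985955049930752, 0, 0), (79228162514264337593543950336, 1, 1), (22300745198530623141535718272648361505980416, 1, 1), (0, 2, 2)]
/-- moves of the second player -/
def B15 : List (ℕ × ℤ × ℤ) := [(68736253952, 0, 0), (16777216, 1, 1), (68719476736, 1, 1), (0, 2, 2)]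
/-- certificates -/
def R15 : List (List ℕ) := [
[7953, 8721, 3951377, 1],
[8977, 2577, 2833, 1],
[3952145, 3601, 3857, 1],
[1, 1, 1, 1]]
theorem c15 : chkAll ([0, 0, 0, 1], [0, 0, 0, 1], 2) A15 B15 R15 = true := by decide +kernel

/-- moves of the first player for element 16 -/
def A16 : List (ℕ × ℤ × ℤ) := [(22300745198530702369698232537267430026641409, 0, 0), (79228162514264619068520660993, 1, (-1)), (22300745198530623141535718272929836482691073, 1, (-1)), (281474976710657, 2, (-2)), (22300745198530702369698232536985955049930753, (-1), (-1)), (79228162514264337593543950337, 0, (-2)), (22300745198530623141535718272648361505980417, 0, (-2)), (1, 1, (-3)), (22300745198530702369698232537267430026641408, (-1), (-1)), (79228162514264619068520660992, 0, (-2)), (22300745198530623141535718272929836482691072, 0, (-2)), (281474976710656, 1, (-3)), (22300745198530702369698232536985955049930752, (-2), (-2)), (79228162514264337593543950336, (-1), (-3)), (22300745198530623141535718272648361505980416, (-1), (-3)), (0, 0, (-4))]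
/-- moves of the second player -/
def B16 : List (ℕ × ℤ × ℤ) := [(68736258049, 0, 0), (16781313, 1, (-1)), (68719480833, 1, (-1)), (4097, 2, (-2)), (68736253953, (-1), (-1)), (16777217, 0, (-2)), (68719476737, 0, (-2)), (1, 1, (-3)), (68736258048, (-1), (-1)), (16781312, 0, (-2)), (68719480832, 0, (-2)), (4096, 1, (-3)), (68736253952, (-2), (-2)), (16777216, (-1), (-3)), (68719476736, (-1), (-3)), (0, 0, (-4))]
/-- certificates -/
def R16 : List (List ℕ) := [
[5795545110801, 11847534163287058, 7903311619448338, 5265425, 6497592442116882, 10769, 7885329, 3317880078353, 11285136382645010, 7622929, 10257, 3508822033, 6052625, 9145172497, 4143319892753, 1],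
[5932987051693586, 9233, 20089190244369, 2434813969, 2330350041887686673, 11793, 5923160081, 2165325841, 2551709349732369, 5654462737, 3116309907529745, 2383889, 6191596049, 2702721553, 2971419409, 1],
[4527813338354450, 3395310722504977, 9745, 3509604369, 4345431599987839505, 4056636624078389265, 4046475793, 3239067665, 4345431875134443793, 3778302225, 4243309326000145, 3432465, 4047000337, 3776463377, 4045161233, 1],
[4739345, 1627934737, 1896632337, 4113, 1627935249, 1667538370577, 4625, 1064977, 1896632593, 4369, 1896636433, 8209, 4881, 1589777, 1852177, 1],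
[12129011826449938, 3484961495597727761, 4344586350961121297, 2434816017, 10001, 3404657100079121, 8070643729, 3240116241, 4249361471785233, 7801946385, 4345149850938786065, 3508814097, 8339079697, 8929809, 4046209809, 1],
[11025, 12049, 3191101620180238353, 2493245571089, 9871433396666385, 2768123740177, 3043001909265, 2113553, 9871708274573585, 2768392175889, 3043270344977, 2375953, 9412821521, 2638353, 2900753, 1],
[7100433, 3244572689, 4044118033, 6161, 3245096977, 3868709109777, 6673, 3162129, 4044118289, 6417, 4143855714577, 3424529, 6929, 3686929, 3949329, 1],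
[842367516689, 553926673, 822362129, 278545, 822624273, 540689, 802833, 17, 822624529, 540945, 803089, 273, 803345, 529, 785, 1],
[5655088435325202, 3680084230693393, 4345150126354617361, 3509605393, 4249083105007121, 3404657101128721, 4046476817, 3240117265, 9489, 3778303249, 11281, 3508815121, 4047001361, 8930833, 4046210833, 1],
[5527057, 2169783313, 2971423761, 5137, 2170307601, 2768124789777, 5649, 2114577, 2971424017, 5393, 3043271394577, 2376977, 5905, 2639377, 2901777, 1],
[10513, 3961835692253457, 4243310669226257, 3509608721, 4345431600257319953, 3868710159377, 4143588328465, 3163153, 11537, 3868978595089, 4143856764177, 3425553, 4144125199889, 3687953, 3950353, 1],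
[1897423121, 1597713, 1859857, 8465, 1897415697, 1590289, 1852433, 1041, 1897415953, 1590545, 1852689, 1297, 1852945, 1553, 1809, 1],
[7364369, 3245623313, 4046216209, 7185, 3246147601, 3246934033, 7697, 3164177, 4046216465, 7441, 4143857813777, 3426577, 7953, 8721, 3951377, 1],
[9414395921, 2703509521, 2971944977, 2377745, 9193489, 2639889, 2902033, 2065, 9193745, 2640145, 2902289, 2321, 8977, 2577, 2833, 1],
[4144126774289, 3778300945, 4046736401, 3427345, 4046998545, 3689489, 3951633, 3089, 4046998801, 3689745, 3951889, 3345, 3952145, 3601, 3857, 1],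
[1, 1, 1, 1, 1, 1, 1, 1, 1, 1, 1, 1, 1, 1, 1, 1]]
theorem c16 : chkAll ([1, 1, 0, 0], [1, 1, 0, 0], 8) A16 B16 R16 = true := by decide +kernel

/-- moves of the first player for element 17 -/
def A17 : List (ℕ × ℤ × ℤ) := [(22300745198530702369698232537267430026641409, 0, 0), (79228162514264619068520660993, 1, (-1)), (22300745198530623141535718272929836482691073, 1, (-1)), (281474976710657, 2, (-2)), (22300745198530702369698232536985955049930753, (-1), (-1)), (79228162514264337593543950337, 0, (-2)), (22300745198530623141535718272648361505980417, 0, (-2)), (1, 1, (-3)), (22300745198530702369698232537267430026641408, (-1), (-1)), (79228162514264619068520660992, 0, (-2)), (22300745198530623141535718272929836482691072, 0, (-2)), (281474976710656, 1, (-3)), (22300745198530702369698232536985955049930752, (-2), (-2)), (79228162514264337593543950336, (-1), (-3)), (22300745198530623141535718272648361505980416, (-1), (-3)), (0, 0, (-4))]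
/-- moves of the second player -/
def B17 : List (ℕ × ℤ × ℤ) := [(68736258049, 0, 0), (16781313, 1, (-1)), (68719480833, 1, (-1)), (4097, 2, (-2)), (68736253953, (-1), 1), (16777217, 0, 0), (68719476737, 0, 0), (1, 1, (-1)), (68736258048, (-1), 1), (16781312, 0, 0), (68719480832, 0, 0), (4096, 1, (-1)), (68736253952, (-2), 2), (16777216, (-1), 1), (68719476736, (-1), 1), (0, 0, 0)]
/-- certificates -/
def R17 : List (List ℕ) := [
[5795545110801, 11847534163287058, 7903311619448338, 5265425, 6497592442116882, 10769, 7885329, 3317880078353, 11285136382645010, 7622929, 10257, 3508822033, 6052625, 9145172497, 4143319892753, 1],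
[5932987051693586, 9233, 20089190244369, 2434813969, 2330350041887686673, 11793, 5923160081, 2165325841, 2551709349732369, 5654462737, 3116309907529745, 2383889, 6191596049, 2702721553, 2971419409, 1],
[4527813338354450, 3395310722504977, 9745, 3509604369, 4345431599987839505, 4056636624078389265, 4046475793, 3239067665, 4345431875134443793, 3778302225, 4243309326000145, 3432465, 4047000337, 3776463377, 4045161233, 1],
[4739345, 1627934737, 1896632337, 4113, 1627935249, 1667538370577, 4625, 1064977, 1896632593, 4369, 1896636433, 8209, 4881, 1589777, 1852177, 1],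
[12129011826449938, 3484961495597727761, 4344586350961121297, 2434816017, 10001, 3404657100079121, 8070643729, 3240116241, 4249361471785233, 7801946385, 4345149850938786065, 3508814097, 8339079697, 8929809, 4046209809, 1],
[11025, 12049, 3191101620180238353, 2493245571089, 9871433396666385, 2768123740177, 3043001909265, 2113553, 9871708274573585, 2768392175889, 3043270344977, 2375953, 9412821521, 2638353, 2900753, 1],
[7100433, 3244572689, 4044118033, 6161, 3245096977, 3868709109777, 6673, 3162129, 4044118289, 6417, 4143855714577, 3424529, 6929, 3686929, 3949329, 1],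
[842367516689, 553926673, 822362129, 278545, 822624273, 540689, 802833, 17, 822624529, 540945, 803089, 273, 803345, 529, 785, 1],
[5655088435325202, 3680084230693393, 4345150126354617361, 3509605393, 4249083105007121, 3404657101128721, 4046476817, 3240117265, 9489, 3778303249, 11281, 3508815121, 4047001361, 8930833, 4046210833, 1],
[5527057, 2169783313, 2971423761, 5137, 2170307601, 2768124789777, 5649, 2114577, 2971424017, 5393, 3043271394577, 2376977, 5905, 2639377, 2901777, 1],
[10513, 3961835692253457, 4243310669226257, 3509608721, 4345431600257319953, 3868710159377, 4143588328465, 3163153, 11537, 3868978595089, 4143856764177, 3425553, 4144125199889, 3687953, 3950353, 1],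
[1897423121, 1597713, 1859857, 8465, 1897415697, 1590289, 1852433, 1041, 1897415953, 1590545, 1852689, 1297, 1852945, 1553, 1809, 1],
[7364369, 3245623313, 4046216209, 7185, 3246147601, 3246934033, 7697, 3164177, 4046216465, 7441, 4143857813777, 3426577, 7953, 8721, 3951377, 1],
[9414395921, 2703509521, 2971944977, 2377745, 9193489, 2639889, 2902033, 2065, 9193745, 2640145, 2902289, 2321, 8977, 2577, 2833, 1],
[4144126774289, 3778300945, 4046736401, 3427345, 4046998545, 3689489, 3951633, 3089, 4046998801, 3689745, 3951889, 3345, 3952145, 3601, 3857, 1],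
[1, 1, 1, 1, 1, 1, 1, 1, 1, 1, 1, 1, 1, 1, 1, 1]]
theorem c17 : chkAll ([1, 1, 0, 0], [0, 1, 1, 0], 8) A17 B17 R17 = true := by decide +kernel

/-- moves of the first player for element 18 -/
def A18 : List (ℕ × ℤ × ℤ) := [(22300745198530702369698232537267430026641409, 0, 0), (79228162514264619068520660993, 1, (-1)), (22300745198530623141535718272929836482691073, 1, (-1)), (281474976710657, 2, (-2)), (22300745198530702369698232536985955049930753, (-1), (-1)), (79228162514264337593543950337, 0, (-2)), (22300745198530623141535718272648361505980417, 0, (-2)), (1, 1, (-3)), (22300745198530702369698232537267430026641408, (-1), (-1)), (79228162514264619068520660992, 0, (-2)), (22300745198530623141535718272929836482691072, 0, (-2)), (281474976710656, 1, (-3)), (22300745198530702369698232536985955049930752, (-2), (-2)), (79228162514264337593543950336, (-1), (-3)), (22300745198530623141535718272648361505980416, (-1), (-3)), (0, 0, (-4))]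
/-- moves of the second player -/
def B18 : List (ℕ × ℤ × ℤ) := [(68736258049, 0, 0), (16781313, 1, 1), (68719480833, 1, 1), (4097, 2, 2), (68736253953, (-1), (-1)), (16777217, 0, 0), (68719476737, 0, 0), (1, 1, 1), (68736258048, (-1), (-1)), (16781312, 0, 0), (68719480832, 0, 0), (4096, 1, 1), (68736253952, (-2), (-2)), (16777216, (-1), (-1)), (68719476736, (-1), (-1)), (0, 0, 0)]
/-- certificates -/
def R18 : List (List ℕ) := [
[5795545110801, 11847534163287058, 7903311619448338, 5265425, 6497592442116882, 10769, 7885329, 3317880078353, 11285136382645010, 7622929, 10257, 3508822033, 6052625, 9145172497, 4143319892753, 1],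
[5932987051693586, 9233, 20089190244369, 2434813969, 2330350041887686673, 11793, 5923160081, 2165325841, 2551709349732369, 5654462737, 3116309907529745, 2383889, 6191596049, 2702721553, 2971419409, 1],
[4527813338354450, 3395310722504977, 9745, 3509604369, 4345431599987839505, 4056636624078389265, 4046475793, 3239067665, 4345431875134443793, 3778302225, 4243309326000145, 3432465, 4047000337, 3776463377, 4045161233, 1],
[4739345, 1627934737, 1896632337, 4113, 1627935249, 1667538370577, 4625, 1064977, 1896632593, 4369, 1896636433, 8209, 4881, 1589777, 1852177, 1],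
[12129011826449938, 3484961495597727761, 4344586350961121297, 2434816017, 10001, 3404657100079121, 8070643729, 3240116241, 4249361471785233, 7801946385, 4345149850938786065, 3508814097, 8339079697, 8929809, 4046209809, 1],
[11025, 12049, 3191101620180238353, 2493245571089, 9871433396666385, 2768123740177, 3043001909265, 2113553, 9871708274573585, 2768392175889, 3043270344977, 2375953, 9412821521, 2638353, 2900753, 1],
[7100433, 3244572689, 4044118033, 6161, 3245096977, 3868709109777, 6673, 3162129, 4044118289, 6417, 4143855714577, 3424529, 6929, 3686929, 3949329, 1],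
[842367516689, 553926673, 822362129, 278545, 822624273, 540689, 802833, 17, 822624529, 540945, 803089, 273, 803345, 529, 785, 1],
[5655088435325202, 3680084230693393, 4345150126354617361, 3509605393, 4249083105007121, 3404657101128721, 4046476817, 3240117265, 9489, 3778303249, 11281, 3508815121, 4047001361, 8930833, 4046210833, 1],
[5527057, 2169783313, 2971423761, 5137, 2170307601, 2768124789777, 5649, 2114577, 2971424017, 5393, 3043271394577, 2376977, 5905, 2639377, 2901777, 1],
[10513, 3961835692253457, 4243310669226257, 3509608721, 4345431600257319953, 3868710159377, 4143588328465, 3163153, 11537, 3868978595089, 4143856764177, 3425553, 4144125199889, 3687953, 3950353, 1],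
[1897423121, 1597713, 1859857, 8465, 1897415697, 1590289, 1852433, 1041, 1897415953, 1590545, 1852689, 1297, 1852945, 1553, 1809, 1],
[7364369, 3245623313, 4046216209, 7185, 3246147601, 3246934033, 7697, 3164177, 4046216465, 7441, 4143857813777, 3426577, 7953, 8721, 3951377, 1],
[9414395921, 2703509521, 2971944977, 2377745, 9193489, 2639889, 2902033, 2065, 9193745, 2640145, 2902289, 2321, 8977, 2577, 2833, 1],
[4144126774289, 3778300945, 4046736401, 3427345, 4046998545, 3689489, 3951633, 3089, 4046998801, 3689745, 3951889, 3345, 3952145, 3601, 3857, 1],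
[1, 1, 1, 1, 1, 1, 1, 1, 1, 1, 1, 1, 1, 1, 1, 1]]
theorem c18 : chkAll ([1, 1, 0, 0], [1, 0, 0, 1], 8) A18 B18 R18 = true := by decide +kernel

/-- moves of the first player for element 19 -/
def A19 : List (ℕ × ℤ × ℤ) := [(22300745198530702369698232537267430026641409, 0, 0), (79228162514264619068520660993, 1, (-1)), (22300745198530623141535718272929836482691073, 1, (-1)), (281474976710657, 2, (-2)), (22300745198530702369698232536985955049930753, (-1), (-1)), (79228162514264337593543950337, 0, (-2)), (22300745198530623141535718272648361505980417, 0, (-2)), (1, 1, (-3)), (22300745198530702369698232537267430026641408, (-1), (-1)), (79228162514264619068520660992, 0, (-2)), (22300745198530623141535718272929836482691072, 0, (-2)), (281474976710656, 1, (-3)), (22300745198530702369698232536985955049930752, (-2), (-2)), (79228162514264337593543950336, (-1), (-3)), (22300745198530623141535718272648361505980416, (-1), (-3)), (0, 0, (-4))]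
/-- moves of the second player -/
def B19 : List (ℕ × ℤ × ℤ) := [(68736258049, 0, 0), (16781313, 1, 1), (68719480833, 1, 1), (4097, 2, 2), (68736253953, (-1), 1), (16777217, 0, 2), (68719476737, 0, 2), (1, 1, 3), (68736258048, (-1), 1), (16781312, 0, 2), (68719480832, 0, 2), (4096, 1, 3), (68736253952, (-2), 2), (16777216, (-1), 3), (68719476736, (-1), 3), (0, 0, 4)]
/-- certificates -/
def R19 : List (List ℕ) := [
[5795545110801, 11847534163287058, 7903311619448338, 5265425, 6497592442116882, 10769, 7885329, 3317880078353, 11285136382645010, 7622929, 10257, 3508822033, 6052625, 9145172497, 4143319892753, 1],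
[5932987051693586, 9233, 20089190244369, 2434813969, 2330350041887686673, 11793, 5923160081, 2165325841, 2551709349732369, 5654462737, 3116309907529745, 2383889, 6191596049, 2702721553, 2971419409, 1],
[4527813338354450, 3395310722504977, 9745, 3509604369, 4345431599987839505, 4056636624078389265, 4046475793, 3239067665, 4345431875134443793, 3778302225, 4243309326000145, 3432465, 4047000337, 3776463377, 4045161233, 1],
[4739345, 1627934737, 1896632337, 4113, 1627935249, 1667538370577, 4625, 1064977, 1896632593, 4369, 1896636433, 8209, 4881, 1589777, 1852177, 1],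
[12129011826449938, 3484961495597727761, 4344586350961121297, 2434816017, 10001, 3404657100079121, 8070643729, 3240116241, 4249361471785233, 7801946385, 4345149850938786065, 3508814097, 8339079697, 8929809, 4046209809, 1],
[11025, 12049, 3191101620180238353, 2493245571089, 9871433396666385, 2768123740177, 3043001909265, 2113553, 9871708274573585, 2768392175889, 3043270344977, 2375953, 9412821521, 2638353, 2900753, 1],
[7100433, 3244572689, 4044118033, 6161, 3245096977, 3868709109777, 6673, 3162129, 4044118289, 6417, 4143855714577, 3424529, 6929, 3686929, 3949329, 1],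
[842367516689, 553926673, 822362129, 278545, 822624273, 540689, 802833, 17, 822624529, 540945, 803089, 273, 803345, 529, 785, 1],
[5655088435325202, 3680084230693393, 4345150126354617361, 3509605393, 4249083105007121, 3404657101128721, 4046476817, 3240117265, 9489, 3778303249, 11281, 3508815121, 4047001361, 8930833, 4046210833, 1],
[5527057, 2169783313, 2971423761, 5137, 2170307601, 2768124789777, 5649, 2114577, 2971424017, 5393, 3043271394577, 2376977, 5905, 2639377, 2901777, 1],
[10513, 3961835692253457, 4243310669226257, 3509608721, 4345431600257319953, 3868710159377, 4143588328465, 3163153, 11537, 3868978595089, 4143856764177, 3425553, 4144125199889, 3687953, 3950353, 1],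
[1897423121, 1597713, 1859857, 8465, 1897415697, 1590289, 1852433, 1041, 1897415953, 1590545, 1852689, 1297, 1852945, 1553, 1809, 1],
[7364369, 3245623313, 4046216209, 7185, 3246147601, 3246934033, 7697, 3164177, 4046216465, 7441, 4143857813777, 3426577, 7953, 8721, 3951377, 1],
[9414395921, 2703509521, 2971944977, 2377745, 9193489, 2639889, 2902033, 2065, 9193745, 2640145, 2902289, 2321, 8977, 2577, 2833, 1],
[4144126774289, 3778300945, 4046736401, 3427345, 4046998545, 3689489, 3951633, 3089, 4046998801, 3689745, 3951889, 3345, 3952145, 3601, 3857, 1],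
[1, 1, 1, 1, 1, 1, 1, 1, 1, 1, 1, 1, 1, 1, 1, 1]]
theorem c19 : chkAll ([1, 1, 0, 0], [0, 0, 1, 1], 8) A19 B19 R19 = true := by decide +kernel

/-- moves of the first player for element 20 -/
def A20 : List (ℕ × ℤ × ℤ) := [(22300745198530702369698232537267430026641409, 0, 0), (79228162514264619068520660993, 1, (-1)), (22300745198530623141535718272929836482691073, 1, (-1)), (281474976710657, 2, (-2)), (22300745198530702369698232536985955049930753, (-1), 1), (79228162514264337593543950337, 0, 0), (22300745198530623141535718272648361505980417, 0, 0), (1, 1, (-1)), (22300745198530702369698232537267430026641408, (-1), 1), (79228162514264619068520660992, 0, 0), (22300745198530623141535718272929836482691072, 0, 0), (281474976710656, 1, (-1)), (22300745198530702369698232536985955049930752, (-2), 2), (79228162514264337593543950336, (-1), 1), (22300745198530623141535718272648361505980416, (-1), 1), (0, 0, 0)]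
/-- moves of the second player -/
def B20 : List (ℕ × ℤ × ℤ) := [(68736258049, 0, 0), (16781313, 1, (-1)), (68719480833, 1, (-1)), (4097, 2, (-2)), (68736253953, (-1), (-1)), (16777217, 0, (-2)), (68719476737, 0, (-2)), (1, 1, (-3)), (68736258048, (-1), (-1)), (16781312, 0, (-2)), (68719480832, 0, (-2)), (4096, 1, (-3)), (68736253952, (-2), (-2)), (16777216, (-1), (-3)), (68719476736, (-1), (-3)), (0, 0, (-4))]
/-- certificates -/
def R20 : List (List ℕ) := [
[5795545110801, 11847534163287058, 7903311619448338, 5265425, 6497592442116882, 10769, 7885329, 3317880078353, 11285136382645010, 7622929, 10257, 3508822033, 6052625, 9145172497, 4143319892753, 1],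
[5932987051693586, 9233, 20089190244369, 2434813969, 2330350041887686673, 11793, 5923160081, 2165325841, 2551709349732369, 5654462737, 3116309907529745, 2383889, 6191596049, 2702721553, 2971419409, 1],
[4527813338354450, 3395310722504977, 9745, 3509604369, 4345431599987839505, 4056636624078389265, 4046475793, 3239067665, 4345431875134443793, 3778302225, 4243309326000145, 3432465, 4047000337, 3776463377, 4045161233, 1],
[4739345, 1627934737, 1896632337, 4113, 1627935249, 1667538370577, 4625, 1064977, 1896632593, 4369, 1896636433, 8209, 4881, 1589777, 1852177, 1],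
[12129011826449938, 3484961495597727761, 4344586350961121297, 2434816017, 10001, 3404657100079121, 8070643729, 3240116241, 4249361471785233, 7801946385, 4345149850938786065, 3508814097, 8339079697, 8929809, 4046209809, 1],
[11025, 12049, 3191101620180238353, 2493245571089, 9871433396666385, 2768123740177, 3043001909265, 2113553, 9871708274573585, 2768392175889, 3043270344977, 2375953, 9412821521, 2638353, 2900753, 1],
[7100433, 3244572689, 4044118033, 6161, 3245096977, 3868709109777, 6673, 3162129, 4044118289, 6417, 4143855714577, 3424529, 6929, 3686929, 3949329, 1],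
[842367516689, 553926673, 822362129, 278545, 822624273, 540689, 802833, 17, 822624529, 540945, 803089, 273, 803345, 529, 785, 1],
[5655088435325202, 3680084230693393, 4345150126354617361, 3509605393, 4249083105007121, 3404657101128721, 4046476817, 3240117265, 9489, 3778303249, 11281, 3508815121, 4047001361, 8930833, 4046210833, 1],
[5527057, 2169783313, 2971423761, 5137, 2170307601, 2768124789777, 5649, 2114577, 2971424017, 5393, 3043271394577, 2376977, 5905, 2639377, 2901777, 1],
[10513, 3961835692253457, 4243310669226257, 3509608721, 4345431600257319953, 3868710159377, 4143588328465, 3163153, 11537, 3868978595089, 4143856764177, 3425553, 4144125199889, 3687953, 3950353, 1],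
[1897423121, 1597713, 1859857, 8465, 1897415697, 1590289, 1852433, 1041, 1897415953, 1590545, 1852689, 1297, 1852945, 1553, 1809, 1],
[7364369, 3245623313, 4046216209, 7185, 3246147601, 3246934033, 7697, 3164177, 4046216465, 7441, 4143857813777, 3426577, 7953, 8721, 3951377, 1],
[9414395921, 2703509521, 2971944977, 2377745, 9193489, 2639889, 2902033, 2065, 9193745, 2640145, 2902289, 2321, 8977, 2577, 2833, 1],
[4144126774289, 3778300945, 4046736401, 3427345, 4046998545, 3689489, 3951633, 3089, 4046998801, 3689745, 3951889, 3345, 3952145, 3601, 3857, 1],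
[1, 1, 1, 1, 1, 1, 1, 1, 1, 1, 1, 1, 1, 1, 1, 1]]
theorem c20 : chkAll ([0, 1, 1, 0], [1, 1, 0, 0], 8) A20 B20 R20 = true := by decide +kernel

/-- moves of the first player for element 21 -/
def A21 : List (ℕ × ℤ × ℤ) := [(22300745198530702369698232537267430026641409, 0, 0), (79228162514264619068520660993, 1, (-1)), (22300745198530623141535718272929836482691073, 1, (-1)), (281474976710657, 2, (-2)), (22300745198530702369698232536985955049930753, (-1), 1), (79228162514264337593543950337, 0, 0), (22300745198530623141535718272648361505980417, 0, 0), (1, 1, (-1)), (22300745198530702369698232537267430026641408, (-1), 1), (79228162514264619068520660992, 0, 0), (22300745198530623141535718272929836482691072, 0, 0), (281474976710656, 1, (-1)), (22300745198530702369698232536985955049930752, (-2), 2), (79228162514264337593543950336, (-1), 1), (22300745198530623141535718272648361505980416, (-1), 1), (0, 0, 0)]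
/-- moves of the second player -/
def B21 : List (ℕ × ℤ × ℤ) := [(68736258049, 0, 0), (16781313, 1, (-1)), (68719480833, 1, (-1)), (4097, 2, (-2)), (68736253953, (-1), 1), (16777217, 0, 0), (68719476737, 0, 0), (1, 1, (-1)), (68736258048, (-1), 1), (16781312, 0, 0), (68719480832, 0, 0), (4096, 1, (-1)), (68736253952, (-2), 2), (16777216, (-1), 1), (68719476736, (-1), 1), (0, 0, 0)]
/-- certificates -/
def R21 : List (List ℕ) := [
[5795545110801, 11847534163287058, 7903311619448338, 5265425, 6497592442116882, 10769, 7885329, 3317880078353, 11285136382645010, 7622929, 10257, 3508822033, 6052625, 9145172497, 4143319892753, 1],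
[5932987051693586, 9233, 20089190244369, 2434813969, 2330350041887686673, 11793, 5923160081, 2165325841, 2551709349732369, 5654462737, 3116309907529745, 2383889, 6191596049, 2702721553, 2971419409, 1],
[4527813338354450, 3395310722504977, 9745, 3509604369, 4345431599987839505, 4056636624078389265, 4046475793, 3239067665, 4345431875134443793, 3778302225, 4243309326000145, 3432465, 4047000337, 3776463377, 4045161233, 1],
[4739345, 1627934737, 1896632337, 4113, 1627935249, 1667538370577, 4625, 1064977, 1896632593, 4369, 1896636433, 8209, 4881, 1589777, 1852177, 1],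
[12129011826449938, 3484961495597727761, 4344586350961121297, 2434816017, 10001, 3404657100079121, 8070643729, 3240116241, 4249361471785233, 7801946385, 4345149850938786065, 3508814097, 8339079697, 8929809, 4046209809, 1],
[11025, 12049, 3191101620180238353, 2493245571089, 9871433396666385, 2768123740177, 3043001909265, 2113553, 9871708274573585, 2768392175889, 3043270344977, 2375953, 9412821521, 2638353, 2900753, 1],
[7100433, 3244572689, 4044118033, 6161, 3245096977, 3868709109777, 6673, 3162129, 4044118289, 6417, 4143855714577, 3424529, 6929, 3686929, 3949329, 1],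
[842367516689, 553926673, 822362129, 278545, 822624273, 540689, 802833, 17, 822624529, 540945, 803089, 273, 803345, 529, 785, 1],
[5655088435325202, 3680084230693393, 4345150126354617361, 3509605393, 4249083105007121, 3404657101128721, 4046476817, 3240117265, 9489, 3778303249, 11281, 3508815121, 4047001361, 8930833, 4046210833, 1],
[5527057, 2169783313, 2971423761, 5137, 2170307601, 2768124789777, 5649, 2114577, 2971424017, 5393, 3043271394577, 2376977, 5905, 2639377, 2901777, 1],
[10513, 3961835692253457, 4243310669226257, 3509608721, 4345431600257319953, 3868710159377, 4143588328465, 3163153, 11537, 3868978595089, 4143856764177, 3425553, 4144125199889, 3687953, 3950353, 1],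
[1897423121, 1597713, 1859857, 8465, 1897415697, 1590289, 1852433, 1041, 1897415953, 1590545, 1852689, 1297, 1852945, 1553, 1809, 1],
[7364369, 3245623313, 4046216209, 7185, 3246147601, 3246934033, 7697, 3164177, 4046216465, 7441, 4143857813777, 3426577, 7953, 8721, 3951377, 1],
[9414395921, 2703509521, 2971944977, 2377745, 9193489, 2639889, 2902033, 2065, 9193745, 2640145, 2902289, 2321, 8977, 2577, 2833, 1],
[4144126774289, 3778300945, 4046736401, 3427345, 4046998545, 3689489, 3951633, 3089, 4046998801, 3689745, 3951889, 3345, 3952145, 3601, 3857, 1],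
[1, 1, 1, 1, 1, 1, 1, 1, 1, 1, 1, 1, 1, 1, 1, 1]]
theorem c21 : chkAll ([0, 1, 1, 0], [0, 1, 1, 0], 8) A21 B21 R21 = true := by decide +kernel

/-- moves of the first player for element 22 -/
def A22 : List (ℕ × ℤ × ℤ) := [(22300745198530702369698232537267430026641409, 0, 0), (79228162514264619068520660993, 1, (-1)), (22300745198530623141535718272929836482691073, 1, (-1)), (281474976710657, 2, (-2)), (22300745198530702369698232536985955049930753, (-1), 1), (79228162514264337593543950337, 0, 0), (22300745198530623141535718272648361505980417, 0, 0), (1, 1, (-1)), (22300745198530702369698232537267430026641408, (-1), 1), (79228162514264619068520660992, 0, 0), (22300745198530623141535718272929836482691072, 0, 0), (281474976710656, 1, (-1)), (22300745198530702369698232536985955049930752, (-2), 2), (79228162514264337593543950336, (-1), 1), (22300745198530623141535718272648361505980416, (-1), 1), (0, 0, 0)]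
/-- moves of the second player -/
def B22 : List (ℕ × ℤ × ℤ) := [(68736258049, 0, 0), (16781313, 1, 1), (68719480833, 1, 1), (4097, 2, 2), (68736253953, (-1), (-1)), (16777217, 0, 0), (68719476737, 0, 0), (1, 1, 1), (68736258048, (-1), (-1)), (16781312, 0, 0), (68719480832, 0, 0), (4096, 1, 1), (68736253952, (-2), (-2)), (16777216, (-1), (-1)), (68719476736, (-1), (-1)), (0, 0, 0)]
/-- certificates -/
def R22 : List (List ℕ) := [
[5795545110801, 11847534163287058, 7903311619448338, 5265425, 6497592442116882, 10769, 7885329, 3317880078353, 11285136382645010, 7622929, 10257, 3508822033, 6052625, 9145172497, 4143319892753, 1],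
[5932987051693586, 9233, 20089190244369, 2434813969, 2330350041887686673, 11793, 5923160081, 2165325841, 2551709349732369, 5654462737, 3116309907529745, 2383889, 6191596049, 2702721553, 2971419409, 1],
[4527813338354450, 3395310722504977, 9745, 3509604369, 4345431599987839505, 4056636624078389265, 4046475793, 3239067665, 4345431875134443793, 3778302225, 4243309326000145, 3432465, 4047000337, 3776463377, 4045161233, 1],
[4739345, 1627934737, 1896632337, 4113, 1627935249, 1667538370577, 4625, 1064977, 1896632593, 4369, 1896636433, 8209, 4881, 1589777, 1852177, 1],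
[12129011826449938, 3484961495597727761, 4344586350961121297, 2434816017, 10001, 3404657100079121, 8070643729, 3240116241, 4249361471785233, 7801946385, 4345149850938786065, 3508814097, 8339079697, 8929809, 4046209809, 1],
[11025, 12049, 3191101620180238353, 2493245571089, 9871433396666385, 2768123740177, 3043001909265, 2113553, 9871708274573585, 2768392175889, 3043270344977, 2375953, 9412821521, 2638353, 2900753, 1],
[7100433, 3244572689, 4044118033, 6161, 3245096977, 3868709109777, 6673, 3162129, 4044118289, 6417, 4143855714577, 3424529, 6929, 3686929, 3949329, 1],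
[842367516689, 553926673, 822362129, 278545, 822624273, 540689, 802833, 17, 822624529, 540945, 803089, 273, 803345, 529, 785, 1],
[5655088435325202, 3680084230693393, 4345150126354617361, 3509605393, 4249083105007121, 3404657101128721, 4046476817, 3240117265, 9489, 3778303249, 11281, 3508815121, 4047001361, 8930833, 4046210833, 1],
[5527057, 2169783313, 2971423761, 5137, 2170307601, 2768124789777, 5649, 2114577, 2971424017, 5393, 3043271394577, 2376977, 5905, 2639377, 2901777, 1],
[10513, 3961835692253457, 4243310669226257, 3509608721, 4345431600257319953, 3868710159377, 4143588328465, 3163153, 11537, 3868978595089, 4143856764177, 3425553, 4144125199889, 3687953, 3950353, 1],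
[1897423121, 1597713, 1859857, 8465, 1897415697, 1590289, 1852433, 1041, 1897415953, 1590545, 1852689, 1297, 1852945, 1553, 1809, 1],
[7364369, 3245623313, 4046216209, 7185, 3246147601, 3246934033, 7697, 3164177, 4046216465, 7441, 4143857813777, 3426577, 7953, 8721, 3951377, 1],
[9414395921, 2703509521, 2971944977, 2377745, 9193489, 2639889, 2902033, 2065, 9193745, 2640145, 2902289, 2321, 8977, 2577, 2833, 1],
[4144126774289, 3778300945, 4046736401, 3427345, 4046998545, 3689489, 3951633, 3089, 4046998801, 3689745, 3951889, 3345, 3952145, 3601, 3857, 1],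
[1, 1, 1, 1, 1, 1, 1, 1, 1, 1, 1, 1, 1, 1, 1, 1]]
theorem c22 : chkAll ([0, 1, 1, 0], [1, 0, 0, 1], 8) A22 B22 R22 = true := by decide +kernel

end Pool.Agent.Lib.MP_e6e31f_co.LA
end

section

set_option autoImplicit false
set_option maxRecDepth 100000

/-! Certificates for the elements 23, ..., 30 of the library. -/

namespace Pool.Agent.Lib.MP_e6e31f_co.LA

/-- moves of the first player for element 23 -/
def A23 : List (ℕ × ℤ × ℤ) := [(22300745198530702369698232537267430026641409, 0, 0), (79228162514264619068520660993, 1, (-1)), (22300745198530623141535718272929836482691073, 1, (-1)), (281474976710657, 2, (-2)), (22300745198530702369698232536985955049930753, (-1), 1), (79228162514264337593543950337, 0, 0), (22300745198530623141535718272648361505980417, 0, 0), (1, 1, (-1)), (22300745198530702369698232537267430026641408, (-1), 1), (79228162514264619068520660992, 0, 0), (22300745198530623141535718272929836482691072, 0, 0), (281474976710656, 1, (-1)), (22300745198530702369698232536985955049930752, (-2), 2), (79228162514264337593543950336, (-1), 1), (22300745198530623141535718272648361505980416,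 (-1), 1), (0, 0, 0)]
/-- moves of the second player -/
def B23 : List (ℕ × ℤ × ℤ) := [(68736258049, 0, 0), (16781313, 1, 1), (68719480833, 1, 1), (4097, 2, 2), (68736253953, (-1), 1), (16777217, 0, 2), (68719476737, 0, 2), (1, 1, 3), (68736258048, (-1), 1), (16781312, 0, 2), (68719480832, 0, 2), (4096, 1, 3), (68736253952, (-2), 2), (16777216, (-1), 3), (68719476736, (-1), 3), (0, 0, 4)]
/-- certificates -/
def R23 : List (List ℕ) := [
[5795545110801, 11847534163287058, 7903311619448338, 5265425, 6497592442116882, 10769, 7885329, 3317880078353, 11285136382645010, 7622929, 10257, 3508822033, 6052625, 9145172497, 4143319892753, 1],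
[5932987051693586, 9233, 20089190244369, 2434813969, 2330350041887686673, 11793, 5923160081, 2165325841, 2551709349732369, 5654462737, 3116309907529745, 2383889, 6191596049, 2702721553, 2971419409, 1],
[4527813338354450, 3395310722504977, 9745, 3509604369, 4345431599987839505, 4056636624078389265, 4046475793, 3239067665, 4345431875134443793, 3778302225, 4243309326000145, 3432465, 4047000337, 3776463377, 4045161233, 1],
[4739345, 1627934737, 1896632337, 4113, 1627935249, 1667538370577, 4625, 1064977, 1896632593, 4369, 1896636433, 8209, 4881, 1589777, 1852177, 1],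
[12129011826449938, 3484961495597727761, 4344586350961121297, 2434816017, 10001, 3404657100079121, 8070643729, 3240116241, 4249361471785233, 7801946385, 4345149850938786065, 3508814097, 8339079697, 8929809, 4046209809, 1],
[11025, 12049, 3191101620180238353, 2493245571089, 9871433396666385, 2768123740177, 3043001909265, 2113553, 9871708274573585, 2768392175889, 3043270344977, 2375953, 9412821521, 2638353, 2900753, 1],
[7100433, 3244572689, 4044118033, 6161, 3245096977, 3868709109777, 6673, 3162129, 4044118289, 6417, 4143855714577, 3424529, 6929, 3686929, 3949329, 1],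
[842367516689, 553926673, 822362129, 278545, 822624273, 540689, 802833, 17, 822624529, 540945, 803089, 273, 803345, 529, 785, 1],
[5655088435325202, 3680084230693393, 4345150126354617361, 3509605393, 4249083105007121, 3404657101128721, 4046476817, 3240117265, 9489, 3778303249, 11281, 3508815121, 4047001361, 8930833, 4046210833, 1],
[5527057, 2169783313, 2971423761, 5137, 2170307601, 2768124789777, 5649, 2114577, 2971424017, 5393, 3043271394577, 2376977, 5905, 2639377, 2901777, 1],
[10513, 3961835692253457, 4243310669226257, 3509608721, 4345431600257319953, 3868710159377, 4143588328465, 3163153, 11537, 3868978595089, 4143856764177, 3425553, 4144125199889, 3687953, 3950353, 1],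
[1897423121, 1597713, 1859857, 8465, 1897415697, 1590289, 1852433, 1041, 1897415953, 1590545, 1852689, 1297, 1852945, 1553, 1809, 1],
[7364369, 3245623313, 4046216209, 7185, 3246147601, 3246934033, 7697, 3164177, 4046216465, 7441, 4143857813777, 3426577, 7953, 8721, 3951377, 1],
[9414395921, 2703509521, 2971944977, 2377745, 9193489, 2639889, 2902033, 2065, 9193745, 2640145, 2902289, 2321, 8977, 2577, 2833, 1],
[4144126774289, 3778300945, 4046736401, 3427345, 4046998545, 3689489, 3951633, 3089, 4046998801, 3689745, 3951889, 3345, 3952145, 3601, 3857, 1],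
[1, 1, 1, 1, 1, 1, 1, 1, 1, 1, 1, 1, 1, 1, 1, 1]]
theorem c23 : chkAll ([0, 1, 1, 0], [0, 0, 1, 1], 8) A23 B23 R23 = true := by decide +kernel

/-- moves of the first player for element 24 -/
def A24 : List (ℕ × ℤ × ℤ) := [(22300745198530702369698232537267430026641409, 0, 0), (79228162514264619068520660993, 1, 1), (22300745198530623141535718272929836482691073, 1, 1), (281474976710657, 2, 2), (22300745198530702369698232536985955049930753, (-1), (-1)), (79228162514264337593543950337, 0, 0), (22300745198530623141535718272648361505980417, 0, 0), (1, 1, 1), (22300745198530702369698232537267430026641408, (-1), (-1)), (79228162514264619068520660992, 0, 0), (22300745198530623141535718272929836482691072, 0, 0), (281474976710656, 1, 1), (22300745198530702369698232536985955049930752, (-2), (-2)), (79228162514264337593543950336, (-1), (-1)), (22300745198530623141535718272648361505980416, (-1), (-1)), (0, 0, 0)]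
/-- moves of the second player -/
def B24 : List (ℕ × ℤ × ℤ) := [(68736258049, 0, 0), (16781313, 1, (-1)), (68719480833, 1, (-1)), (4097, 2, (-2)), (68736253953, (-1), (-1)), (16777217, 0, (-2)), (68719476737, 0, (-2)), (1, 1, (-3)), (68736258048, (-1), (-1)), (16781312, 0, (-2)), (68719480832, 0, (-2)), (4096, 1, (-3)), (68736253952, (-2), (-2)), (16777216, (-1), (-3)), (68719476736, (-1), (-3)), (0, 0, (-4))]
/-- certificates -/
def R24 : List (List ℕ) := [
[5795545110801, 11847534163287058, 7903311619448338, 5265425, 6497592442116882, 10769, 7885329, 3317880078353, 11285136382645010, 7622929, 10257, 3508822033, 6052625, 9145172497, 4143319892753, 1],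
[5932987051693586, 9233, 20089190244369, 2434813969, 2330350041887686673, 11793, 5923160081, 2165325841, 2551709349732369, 5654462737, 3116309907529745, 2383889, 6191596049, 2702721553, 2971419409, 1],
[4527813338354450, 3395310722504977, 9745, 3509604369, 4345431599987839505, 4056636624078389265, 4046475793, 3239067665, 4345431875134443793, 3778302225, 4243309326000145, 3432465, 4047000337, 3776463377, 4045161233, 1],
[4739345, 1627934737, 1896632337, 4113, 1627935249, 1667538370577, 4625, 1064977, 1896632593, 4369, 1896636433, 8209, 4881, 1589777, 1852177, 1],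
[12129011826449938, 3484961495597727761, 4344586350961121297, 2434816017, 10001, 3404657100079121, 8070643729, 3240116241, 4249361471785233, 7801946385, 4345149850938786065, 3508814097, 8339079697, 8929809, 4046209809, 1],
[11025, 12049, 3191101620180238353, 2493245571089, 9871433396666385, 2768123740177, 3043001909265, 2113553, 9871708274573585, 2768392175889, 3043270344977, 2375953, 9412821521, 2638353, 2900753, 1],
[7100433, 3244572689, 4044118033, 6161, 3245096977, 3868709109777, 6673, 3162129, 4044118289, 6417, 4143855714577, 3424529, 6929, 3686929, 3949329, 1],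
[842367516689, 553926673, 822362129, 278545, 822624273, 540689, 802833, 17, 822624529, 540945, 803089, 273, 803345, 529, 785, 1],
[5655088435325202, 3680084230693393, 4345150126354617361, 3509605393, 4249083105007121, 3404657101128721, 4046476817, 3240117265, 9489, 3778303249, 11281, 3508815121, 4047001361, 8930833, 4046210833, 1],
[5527057, 2169783313, 2971423761, 5137, 2170307601, 2768124789777, 5649, 2114577, 2971424017, 5393, 3043271394577, 2376977, 5905, 2639377, 2901777, 1],
[10513, 3961835692253457, 4243310669226257, 3509608721, 4345431600257319953, 3868710159377, 4143588328465, 3163153, 11537, 3868978595089, 4143856764177, 3425553, 4144125199889, 3687953, 3950353, 1],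
[1897423121, 1597713, 1859857, 8465, 1897415697, 1590289, 1852433, 1041, 1897415953, 1590545, 1852689, 1297, 1852945, 1553, 1809, 1],
[7364369, 3245623313, 4046216209, 7185, 3246147601, 3246934033, 7697, 3164177, 4046216465, 7441, 4143857813777, 3426577, 7953, 8721, 3951377, 1],
[9414395921, 2703509521, 2971944977, 2377745, 9193489, 2639889, 2902033, 2065, 9193745, 2640145, 2902289, 2321, 8977, 2577, 2833, 1],
[4144126774289, 3778300945, 4046736401, 3427345, 4046998545, 3689489, 3951633, 3089, 4046998801, 3689745, 3951889, 3345, 3952145, 3601, 3857, 1],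
[1, 1, 1, 1, 1, 1, 1, 1, 1, 1, 1, 1, 1, 1, 1, 1]]
theorem c24 : chkAll ([1, 0, 0, 1], [1, 1, 0, 0], 8) A24 B24 R24 = true := by decide +kernel

/-- moves of the first player for element 25 -/
def A25 : List (ℕ × ℤ × ℤ) := [(22300745198530702369698232537267430026641409, 0, 0), (79228162514264619068520660993, 1, 1), (22300745198530623141535718272929836482691073, 1, 1), (281474976710657, 2, 2), (22300745198530702369698232536985955049930753, (-1), (-1)), (79228162514264337593543950337, 0, 0), (22300745198530623141535718272648361505980417, 0, 0), (1, 1, 1), (22300745198530702369698232537267430026641408, (-1), (-1)), (79228162514264619068520660992, 0, 0), (22300745198530623141535718272929836482691072, 0, 0), (281474976710656, 1, 1), (22300745198530702369698232536985955049930752, (-2), (-2)), (79228162514264337593543950336, (-1), (-1)), (22300745198530623141535718272648361505980416, (-1), (-1)), (0, 0, 0)]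
/-- moves of the second player -/
def B25 : List (ℕ × ℤ × ℤ) := [(68736258049, 0, 0), (16781313, 1, (-1)), (68719480833, 1, (-1)), (4097, 2, (-2)), (68736253953, (-1), 1), (16777217, 0, 0), (68719476737, 0, 0), (1, 1, (-1)), (68736258048, (-1), 1), (16781312, 0, 0), (68719480832, 0, 0), (4096, 1, (-1)), (68736253952, (-2), 2), (16777216, (-1), 1), (68719476736, (-1), 1), (0, 0, 0)]
/-- certificates -/
def R25 : List (List ℕ) := [
[5795545110801, 11847534163287058, 7903311619448338, 5265425, 6497592442116882, 10769, 7885329, 3317880078353, 11285136382645010, 7622929, 10257, 3508822033, 6052625, 9145172497, 4143319892753, 1],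
[5932987051693586, 9233, 20089190244369, 2434813969, 2330350041887686673, 11793, 5923160081, 2165325841, 2551709349732369, 5654462737, 3116309907529745, 2383889, 6191596049, 2702721553, 2971419409, 1],
[4527813338354450, 3395310722504977, 9745, 3509604369, 4345431599987839505, 4056636624078389265, 4046475793, 3239067665, 4345431875134443793, 3778302225, 4243309326000145, 3432465, 4047000337, 3776463377, 4045161233, 1],
[4739345, 1627934737, 1896632337, 4113, 1627935249, 1667538370577, 4625, 1064977, 1896632593, 4369, 1896636433, 8209, 4881, 1589777, 1852177, 1],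
[12129011826449938, 3484961495597727761, 4344586350961121297, 2434816017, 10001, 3404657100079121, 8070643729, 3240116241, 4249361471785233, 7801946385, 4345149850938786065, 3508814097, 8339079697, 8929809, 4046209809, 1],
[11025, 12049, 3191101620180238353, 2493245571089, 9871433396666385, 2768123740177, 3043001909265, 2113553, 9871708274573585, 2768392175889, 3043270344977, 2375953, 9412821521, 2638353, 2900753, 1],
[7100433, 3244572689, 4044118033, 6161, 3245096977, 3868709109777, 6673, 3162129, 4044118289, 6417, 4143855714577, 3424529, 6929, 3686929, 3949329, 1],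
[842367516689, 553926673, 822362129, 278545, 822624273, 540689, 802833, 17, 822624529, 540945, 803089, 273, 803345, 529, 785, 1],
[5655088435325202, 3680084230693393, 4345150126354617361, 3509605393, 4249083105007121, 3404657101128721, 4046476817, 3240117265, 9489, 3778303249, 11281, 3508815121, 4047001361, 8930833, 4046210833, 1],
[5527057, 2169783313, 2971423761, 5137, 2170307601, 2768124789777, 5649, 2114577, 2971424017, 5393, 3043271394577, 2376977, 5905, 2639377, 2901777, 1],
[10513, 3961835692253457, 4243310669226257, 3509608721, 4345431600257319953, 3868710159377, 4143588328465, 3163153, 11537, 3868978595089, 4143856764177, 3425553, 4144125199889, 3687953, 3950353, 1],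
[1897423121, 1597713, 1859857, 8465, 1897415697, 1590289, 1852433, 1041, 1897415953, 1590545, 1852689, 1297, 1852945, 1553, 1809, 1],
[7364369, 3245623313, 4046216209, 7185, 3246147601, 3246934033, 7697, 3164177, 4046216465, 7441, 4143857813777, 3426577, 7953, 8721, 3951377, 1],
[9414395921, 2703509521, 2971944977, 2377745, 9193489, 2639889, 2902033, 2065, 9193745, 2640145, 2902289, 2321, 8977, 2577, 2833, 1],
[4144126774289, 3778300945, 4046736401, 3427345, 4046998545, 3689489, 3951633, 3089, 4046998801, 3689745, 3951889, 3345, 3952145, 3601, 3857, 1],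
[1, 1, 1, 1, 1, 1, 1, 1, 1, 1, 1, 1, 1, 1, 1, 1]]
theorem c25 : chkAll ([1, 0, 0, 1], [0, 1, 1, 0], 8) A25 B25 R25 = true := by decide +kernel

/-- moves of the first player for element 26 -/
def A26 : List (ℕ × ℤ × ℤ) := [(22300745198530702369698232537267430026641409, 0, 0), (79228162514264619068520660993, 1, 1), (22300745198530623141535718272929836482691073, 1, 1), (281474976710657, 2, 2), (22300745198530702369698232536985955049930753, (-1), (-1)), (79228162514264337593543950337, 0, 0), (22300745198530623141535718272648361505980417, 0, 0), (1, 1, 1), (22300745198530702369698232537267430026641408, (-1), (-1)), (79228162514264619068520660992, 0, 0), (22300745198530623141535718272929836482691072, 0, 0), (281474976710656, 1, 1), (22300745198530702369698232536985955049930752, (-2), (-2)), (79228162514264337593543950336, (-1), (-1)), (22300745198530623141535718272648361505980416, (-1), (-1)), (0, 0, 0)]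
/-- moves of the second player -/
def B26 : List (ℕ × ℤ × ℤ) := [(68736258049, 0, 0), (16781313, 1, 1), (68719480833, 1, 1), (4097, 2, 2), (68736253953, (-1), (-1)), (16777217, 0, 0), (68719476737, 0, 0), (1, 1, 1), (68736258048, (-1), (-1)), (16781312, 0, 0), (68719480832, 0, 0), (4096, 1, 1), (68736253952, (-2), (-2)), (16777216, (-1), (-1)), (68719476736, (-1), (-1)), (0, 0, 0)]
/-- certificates -/
def R26 : List (List ℕ) := [
[5795545110801, 11847534163287058, 7903311619448338, 5265425, 6497592442116882, 10769, 7885329, 3317880078353, 11285136382645010, 7622929, 10257, 3508822033, 6052625, 9145172497, 4143319892753, 1],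
[5932987051693586, 9233, 20089190244369, 2434813969, 2330350041887686673, 11793, 5923160081, 2165325841, 2551709349732369, 5654462737, 3116309907529745, 2383889, 6191596049, 2702721553, 2971419409, 1],
[4527813338354450, 3395310722504977, 9745, 3509604369, 4345431599987839505, 4056636624078389265, 4046475793, 3239067665, 4345431875134443793, 3778302225, 4243309326000145, 3432465, 4047000337, 3776463377, 4045161233, 1],
[4739345, 1627934737, 1896632337, 4113, 1627935249, 1667538370577, 4625, 1064977, 1896632593, 4369, 1896636433, 8209, 4881, 1589777, 1852177, 1],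
[12129011826449938, 3484961495597727761, 4344586350961121297, 2434816017, 10001, 3404657100079121, 8070643729, 3240116241, 4249361471785233, 7801946385, 4345149850938786065, 3508814097, 8339079697, 8929809, 4046209809, 1],
[11025, 12049, 3191101620180238353, 2493245571089, 9871433396666385, 2768123740177, 3043001909265, 2113553, 9871708274573585, 2768392175889, 3043270344977, 2375953, 9412821521, 2638353, 2900753, 1],
[7100433, 3244572689, 4044118033, 6161, 3245096977, 3868709109777, 6673, 3162129, 4044118289, 6417, 4143855714577, 3424529, 6929, 3686929, 3949329, 1],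
[842367516689, 553926673, 822362129, 278545, 822624273, 540689, 802833, 17, 822624529, 540945, 803089, 273, 803345, 529, 785, 1],
[5655088435325202, 3680084230693393, 4345150126354617361, 3509605393, 4249083105007121, 3404657101128721, 4046476817, 3240117265, 9489, 3778303249, 11281, 3508815121, 4047001361, 8930833, 4046210833, 1],
[5527057, 2169783313, 2971423761, 5137, 2170307601, 2768124789777, 5649, 2114577, 2971424017, 5393, 3043271394577, 2376977, 5905, 2639377, 2901777, 1],
[10513, 3961835692253457, 4243310669226257, 3509608721, 4345431600257319953, 3868710159377, 4143588328465, 3163153, 11537, 3868978595089, 4143856764177, 3425553, 4144125199889, 3687953, 3950353, 1],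
[1897423121, 1597713, 1859857, 8465, 1897415697, 1590289, 1852433, 1041, 1897415953, 1590545, 1852689, 1297, 1852945, 1553, 1809, 1],
[7364369, 3245623313, 4046216209, 7185, 3246147601, 3246934033, 7697, 3164177, 4046216465, 7441, 4143857813777, 3426577, 7953, 8721, 3951377, 1],
[9414395921, 2703509521, 2971944977, 2377745, 9193489, 2639889, 2902033, 2065, 9193745, 2640145, 2902289, 2321, 8977, 2577, 2833, 1],
[4144126774289, 3778300945, 4046736401, 3427345, 4046998545, 3689489, 3951633, 3089, 4046998801, 3689745, 3951889, 3345, 3952145, 3601, 3857, 1],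
[1, 1, 1, 1, 1, 1, 1, 1, 1, 1, 1, 1, 1, 1, 1, 1]]
theorem c26 : chkAll ([1, 0, 0, 1], [1, 0, 0, 1], 8) A26 B26 R26 = true := by decide +kernel

/-- moves of the first player for element 27 -/
def A27 : List (ℕ × ℤ × ℤ) := [(22300745198530702369698232537267430026641409, 0, 0), (79228162514264619068520660993, 1, 1), (22300745198530623141535718272929836482691073, 1, 1), (281474976710657, 2, 2), (22300745198530702369698232536985955049930753, (-1), (-1)), (79228162514264337593543950337, 0, 0), (22300745198530623141535718272648361505980417, 0, 0), (1, 1, 1), (22300745198530702369698232537267430026641408, (-1), (-1)), (79228162514264619068520660992, 0, 0), (22300745198530623141535718272929836482691072, 0, 0), (281474976710656, 1, 1), (22300745198530702369698232536985955049930752, (-2), (-2)), (79228162514264337593543950336, (-1), (-1)), (22300745198530623141535718272648361505980416, (-1), (-1)), (0, 0, 0)]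
/-- moves of the second player -/
def B27 : List (ℕ × ℤ × ℤ) := [(68736258049, 0, 0), (16781313, 1, 1), (68719480833, 1, 1), (4097, 2, 2), (68736253953, (-1), 1), (16777217, 0, 2), (68719476737, 0, 2), (1, 1, 3), (68736258048, (-1), 1), (16781312, 0, 2), (68719480832, 0, 2), (4096, 1, 3), (68736253952, (-2), 2), (16777216, (-1), 3), (68719476736, (-1), 3), (0, 0, 4)]
/-- certificates -/
def R27 : List (List ℕ) := [
[5795545110801, 11847534163287058, 7903311619448338, 5265425, 6497592442116882, 10769, 7885329, 3317880078353, 11285136382645010, 7622929, 10257, 3508822033, 6052625, 9145172497, 4143319892753, 1],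
[5932987051693586, 9233, 20089190244369, 2434813969, 2330350041887686673, 11793, 5923160081, 2165325841, 2551709349732369, 5654462737, 3116309907529745, 2383889, 6191596049, 2702721553, 2971419409, 1],
[4527813338354450, 3395310722504977, 9745, 3509604369, 4345431599987839505, 4056636624078389265, 4046475793, 3239067665, 4345431875134443793, 3778302225, 4243309326000145, 3432465, 4047000337, 3776463377, 4045161233, 1],
[4739345, 1627934737, 1896632337, 4113, 1627935249, 1667538370577, 4625, 1064977, 1896632593, 4369, 1896636433, 8209, 4881, 1589777, 1852177, 1],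
[12129011826449938, 3484961495597727761, 4344586350961121297, 2434816017, 10001, 3404657100079121, 8070643729, 3240116241, 4249361471785233, 7801946385, 4345149850938786065, 3508814097, 8339079697, 8929809, 4046209809, 1],
[11025, 12049, 3191101620180238353, 2493245571089, 9871433396666385, 2768123740177, 3043001909265, 2113553, 9871708274573585, 2768392175889, 3043270344977, 2375953, 9412821521, 2638353, 2900753, 1],
[7100433, 3244572689, 4044118033, 6161, 3245096977, 3868709109777, 6673, 3162129, 4044118289, 6417, 4143855714577, 3424529, 6929, 3686929, 3949329, 1],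
[842367516689, 553926673, 822362129, 278545, 822624273, 540689, 802833, 17, 822624529, 540945, 803089, 273, 803345, 529, 785, 1],
[5655088435325202, 3680084230693393, 4345150126354617361, 3509605393, 4249083105007121, 3404657101128721, 4046476817, 3240117265, 9489, 3778303249, 11281, 3508815121, 4047001361, 8930833, 4046210833, 1],
[5527057, 2169783313, 2971423761, 5137, 2170307601, 2768124789777, 5649, 2114577, 2971424017, 5393, 3043271394577, 2376977, 5905, 2639377, 2901777, 1],
[10513, 3961835692253457, 4243310669226257, 3509608721, 4345431600257319953, 3868710159377, 4143588328465, 3163153, 11537, 3868978595089, 4143856764177, 3425553, 4144125199889, 3687953, 3950353, 1],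
[1897423121, 1597713, 1859857, 8465, 1897415697, 1590289, 1852433, 1041, 1897415953, 1590545, 1852689, 1297, 1852945, 1553, 1809, 1],
[7364369, 3245623313, 4046216209, 7185, 3246147601, 3246934033, 7697, 3164177, 4046216465, 7441, 4143857813777, 3426577, 7953, 8721, 3951377, 1],
[9414395921, 2703509521, 2971944977, 2377745, 9193489, 2639889, 2902033, 2065, 9193745, 2640145, 2902289, 2321, 8977, 2577, 2833, 1],
[4144126774289, 3778300945, 4046736401, 3427345, 4046998545, 3689489, 3951633, 3089, 4046998801, 3689745, 3951889, 3345, 3952145, 3601, 3857, 1],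
[1, 1, 1, 1, 1, 1, 1, 1, 1, 1, 1, 1, 1, 1, 1, 1]]
theorem c27 : chkAll ([1, 0, 0, 1], [0, 0, 1, 1], 8) A27 B27 R27 = true := by decide +kernel

/-- moves of the first player for element 28 -/
def A28 : List (ℕ × ℤ × ℤ) := [(22300745198530702369698232537267430026641409, 0, 0), (79228162514264619068520660993, 1, 1), (22300745198530623141535718272929836482691073, 1, 1), (281474976710657, 2, 2), (22300745198530702369698232536985955049930753, (-1), 1), (79228162514264337593543950337, 0, 2), (22300745198530623141535718272648361505980417, 0, 2), (1, 1, 3), (22300745198530702369698232537267430026641408, (-1), 1), (79228162514264619068520660992, 0, 2), (22300745198530623141535718272929836482691072, 0, 2), (281474976710656, 1, 3), (22300745198530702369698232536985955049930752, (-2), 2), (79228162514264337593543950336, (-1), 3), (22300745198530623141535718272648361505980416, (-1), 3), (0, 0, 4)]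
/-- moves of the second player -/
def B28 : List (ℕ × ℤ × ℤ) := [(68736258049, 0, 0), (16781313, 1, (-1)), (68719480833, 1, (-1)), (4097, 2, (-2)), (68736253953, (-1), (-1)), (16777217, 0, (-2)), (68719476737, 0, (-2)), (1, 1, (-3)), (68736258048, (-1), (-1)), (16781312, 0, (-2)), (68719480832, 0, (-2)), (4096, 1, (-3)), (68736253952, (-2), (-2)), (16777216, (-1), (-3)), (68719476736, (-1), (-3)), (0, 0, (-4))]
/-- certificates -/
def R28 : List (List ℕ) := [
[5795545110801, 11847534163287058, 7903311619448338, 5265425, 6497592442116882, 10769, 7885329, 3317880078353, 11285136382645010, 7622929, 10257, 3508822033, 6052625, 9145172497, 4143319892753, 1],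
[5932987051693586, 9233, 20089190244369, 2434813969, 2330350041887686673, 11793, 5923160081, 2165325841, 2551709349732369, 5654462737, 3116309907529745, 2383889, 6191596049, 2702721553, 2971419409, 1],
[4527813338354450, 3395310722504977, 9745, 3509604369, 4345431599987839505, 4056636624078389265, 4046475793, 3239067665, 4345431875134443793, 3778302225, 4243309326000145, 3432465, 4047000337, 3776463377, 4045161233, 1],
[4739345, 1627934737, 1896632337, 4113, 1627935249, 1667538370577, 4625, 1064977, 1896632593, 4369, 1896636433, 8209, 4881, 1589777, 1852177, 1],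
[12129011826449938, 3484961495597727761, 4344586350961121297, 2434816017, 10001, 3404657100079121, 8070643729, 3240116241, 4249361471785233, 7801946385, 4345149850938786065, 3508814097, 8339079697, 8929809, 4046209809, 1],
[11025, 12049, 3191101620180238353, 2493245571089, 9871433396666385, 2768123740177, 3043001909265, 2113553, 9871708274573585, 2768392175889, 3043270344977, 2375953, 9412821521, 2638353, 2900753, 1],
[7100433, 3244572689, 4044118033, 6161, 3245096977, 3868709109777, 6673, 3162129, 4044118289, 6417, 4143855714577, 3424529, 6929, 3686929, 3949329, 1],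
[842367516689, 553926673, 822362129, 278545, 822624273, 540689, 802833, 17, 822624529, 540945, 803089, 273, 803345, 529, 785, 1],
[5655088435325202, 3680084230693393, 4345150126354617361, 3509605393, 4249083105007121, 3404657101128721, 4046476817, 3240117265, 9489, 3778303249, 11281, 3508815121, 4047001361, 8930833, 4046210833, 1],
[5527057, 2169783313, 2971423761, 5137, 2170307601, 2768124789777, 5649, 2114577, 2971424017, 5393, 3043271394577, 2376977, 5905, 2639377, 2901777, 1],
[10513, 3961835692253457, 4243310669226257, 3509608721, 4345431600257319953, 3868710159377, 4143588328465, 3163153, 11537, 3868978595089, 4143856764177, 3425553, 4144125199889, 3687953, 3950353, 1],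
[1897423121, 1597713, 1859857, 8465, 1897415697, 1590289, 1852433, 1041, 1897415953, 1590545, 1852689, 1297, 1852945, 1553, 1809, 1],
[7364369, 3245623313, 4046216209, 7185, 3246147601, 3246934033, 7697, 3164177, 4046216465, 7441, 4143857813777, 3426577, 7953, 8721, 3951377, 1],
[9414395921, 2703509521, 2971944977, 2377745, 9193489, 2639889, 2902033, 2065, 9193745, 2640145, 2902289, 2321, 8977, 2577, 2833, 1],
[4144126774289, 3778300945, 4046736401, 3427345, 4046998545, 3689489, 3951633, 3089, 4046998801, 3689745, 3951889, 3345, 3952145, 3601, 3857, 1],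
[1, 1, 1, 1, 1, 1, 1, 1, 1, 1, 1, 1, 1, 1, 1, 1]]
theorem c28 : chkAll ([0, 0, 1, 1], [1, 1, 0, 0], 8) A28 B28 R28 = true := by decide +kernel

/-- moves of the first player for element 29 -/
def A29 : List (ℕ × ℤ × ℤ) := [(22300745198530702369698232537267430026641409, 0, 0), (79228162514264619068520660993, 1, 1), (22300745198530623141535718272929836482691073, 1, 1), (281474976710657, 2, 2), (22300745198530702369698232536985955049930753, (-1), 1), (79228162514264337593543950337, 0, 2), (22300745198530623141535718272648361505980417, 0, 2), (1, 1, 3), (22300745198530702369698232537267430026641408, (-1), 1), (79228162514264619068520660992, 0, 2), (22300745198530623141535718272929836482691072, 0, 2), (281474976710656, 1, 3), (22300745198530702369698232536985955049930752, (-2), 2), (79228162514264337593543950336, (-1), 3), (22300745198530623141535718272648361505980416, (-1), 3), (0, 0, 4)]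
/-- moves of the second player -/
def B29 : List (ℕ × ℤ × ℤ) := [(68736258049, 0, 0), (16781313, 1, (-1)), (68719480833, 1, (-1)), (4097, 2, (-2)), (68736253953, (-1), 1), (16777217, 0, 0), (68719476737, 0, 0), (1, 1, (-1)), (68736258048, (-1), 1), (16781312, 0, 0), (68719480832, 0, 0), (4096, 1, (-1)), (68736253952, (-2), 2), (16777216, (-1), 1), (68719476736, (-1), 1), (0, 0, 0)]
/-- certificates -/
def R29 : List (List ℕ) := [
[5795545110801, 11847534163287058, 7903311619448338, 5265425, 6497592442116882, 10769, 7885329, 3317880078353, 11285136382645010, 7622929, 10257, 3508822033, 6052625, 9145172497, 4143319892753, 1],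
[5932987051693586, 9233, 20089190244369, 2434813969, 2330350041887686673, 11793, 5923160081, 2165325841, 2551709349732369, 5654462737, 3116309907529745, 2383889, 6191596049, 2702721553, 2971419409, 1],
[4527813338354450, 3395310722504977, 9745, 3509604369, 4345431599987839505, 4056636624078389265, 4046475793, 3239067665, 4345431875134443793, 3778302225, 4243309326000145, 3432465, 4047000337, 3776463377, 4045161233, 1],
[4739345, 1627934737, 1896632337, 4113, 1627935249, 1667538370577, 4625, 1064977, 1896632593, 4369, 1896636433, 8209, 4881, 1589777, 1852177, 1],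
[12129011826449938, 3484961495597727761, 4344586350961121297, 2434816017, 10001, 3404657100079121, 8070643729, 3240116241, 4249361471785233, 7801946385, 4345149850938786065, 3508814097, 8339079697, 8929809, 4046209809, 1],
[11025, 12049, 3191101620180238353, 2493245571089, 9871433396666385, 2768123740177, 3043001909265, 2113553, 9871708274573585, 2768392175889, 3043270344977, 2375953, 9412821521, 2638353, 2900753, 1],
[7100433, 3244572689, 4044118033, 6161, 3245096977, 3868709109777, 6673, 3162129, 4044118289, 6417, 4143855714577, 3424529, 6929, 3686929, 3949329, 1],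
[842367516689, 553926673, 822362129, 278545, 822624273, 540689, 802833, 17, 822624529, 540945, 803089, 273, 803345, 529, 785, 1],
[5655088435325202, 3680084230693393, 4345150126354617361, 3509605393, 4249083105007121, 3404657101128721, 4046476817, 3240117265, 9489, 3778303249, 11281, 3508815121, 4047001361, 8930833, 4046210833, 1],
[5527057, 2169783313, 2971423761, 5137, 2170307601, 2768124789777, 5649, 2114577, 2971424017, 5393, 3043271394577, 2376977, 5905, 2639377, 2901777, 1],
[10513, 3961835692253457, 4243310669226257, 3509608721, 4345431600257319953, 3868710159377, 4143588328465, 3163153, 11537, 3868978595089, 4143856764177, 3425553, 4144125199889, 3687953, 3950353, 1],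
[1897423121, 1597713, 1859857, 8465, 1897415697, 1590289, 1852433, 1041, 1897415953, 1590545, 1852689, 1297, 1852945, 1553, 1809, 1],
[7364369, 3245623313, 4046216209, 7185, 3246147601, 3246934033, 7697, 3164177, 4046216465, 7441, 4143857813777, 3426577, 7953, 8721, 3951377, 1],
[9414395921, 2703509521, 2971944977, 2377745, 9193489, 2639889, 2902033, 2065, 9193745, 2640145, 2902289, 2321, 8977, 2577, 2833, 1],
[4144126774289, 3778300945, 4046736401, 3427345, 4046998545, 3689489, 3951633, 3089, 4046998801, 3689745, 3951889, 3345, 3952145, 3601, 3857, 1],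
[1, 1, 1, 1, 1, 1, 1, 1, 1, 1, 1, 1, 1, 1, 1, 1]]
theorem c29 : chkAll ([0, 0, 1, 1], [0, 1, 1, 0], 8) A29 B29 R29 = true := by decide +kernel

/-- moves of the first player for element 30 -/
def A30 : List (ℕ × ℤ × ℤ) := [(22300745198530702369698232537267430026641409, 0, 0), (79228162514264619068520660993, 1, 1), (22300745198530623141535718272929836482691073, 1, 1), (281474976710657, 2, 2), (22300745198530702369698232536985955049930753, (-1), 1), (79228162514264337593543950337, 0, 2), (22300745198530623141535718272648361505980417, 0, 2), (1, 1, 3), (22300745198530702369698232537267430026641408, (-1), 1), (79228162514264619068520660992, 0, 2), (22300745198530623141535718272929836482691072, 0, 2), (281474976710656, 1, 3), (22300745198530702369698232536985955049930752, (-2), 2), (79228162514264337593543950336, (-1), 3), (22300745198530623141535718272648361505980416, (-1), 3), (0, 0, 4)]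
/-- moves of the second player -/
def B30 : List (ℕ × ℤ × ℤ) := [(68736258049, 0, 0), (16781313, 1, 1), (68719480833, 1, 1), (4097, 2, 2), (68736253953, (-1), (-1)), (16777217, 0, 0), (68719476737, 0, 0), (1, 1, 1), (68736258048, (-1), (-1)), (16781312, 0, 0), (68719480832, 0, 0), (4096, 1, 1), (68736253952, (-2), (-2)), (16777216, (-1), (-1)), (68719476736, (-1), (-1)), (0, 0, 0)]
/-- certificates -/
def R30 : List (List ℕ) := [
[5795545110801, 11847534163287058, 7903311619448338, 5265425, 6497592442116882, 10769, 7885329, 3317880078353, 11285136382645010, 7622929, 10257, 3508822033, 6052625, 9145172497, 4143319892753, 1],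
[5932987051693586, 9233, 20089190244369, 2434813969, 2330350041887686673, 11793, 5923160081, 2165325841, 2551709349732369, 5654462737, 3116309907529745, 2383889, 6191596049, 2702721553, 2971419409, 1],
[4527813338354450, 3395310722504977, 9745, 3509604369, 4345431599987839505, 4056636624078389265, 4046475793, 3239067665, 4345431875134443793, 3778302225, 4243309326000145, 3432465, 4047000337, 3776463377, 4045161233, 1],
[4739345, 1627934737, 1896632337, 4113, 1627935249, 1667538370577, 4625, 1064977, 1896632593, 4369, 1896636433, 8209, 4881, 1589777, 1852177, 1],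
[12129011826449938, 3484961495597727761, 4344586350961121297, 2434816017, 10001, 3404657100079121, 8070643729, 3240116241, 4249361471785233, 7801946385, 4345149850938786065, 3508814097, 8339079697, 8929809, 4046209809, 1],
[11025, 12049, 3191101620180238353, 2493245571089, 9871433396666385, 2768123740177, 3043001909265, 2113553, 9871708274573585, 2768392175889, 3043270344977, 2375953, 9412821521, 2638353, 2900753, 1],
[7100433, 3244572689, 4044118033, 6161, 3245096977, 3868709109777, 6673, 3162129, 4044118289, 6417, 4143855714577, 3424529, 6929, 3686929, 3949329, 1],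
[842367516689, 553926673, 822362129, 278545, 822624273, 540689, 802833, 17, 822624529, 540945, 803089, 273, 803345, 529, 785, 1],
[5655088435325202, 3680084230693393, 4345150126354617361, 3509605393, 4249083105007121, 3404657101128721, 4046476817, 3240117265, 9489, 3778303249, 11281, 3508815121, 4047001361, 8930833, 4046210833, 1],
[5527057, 2169783313, 2971423761, 5137, 2170307601, 2768124789777, 5649, 2114577, 2971424017, 5393, 3043271394577, 2376977, 5905, 2639377, 2901777, 1],
[10513, 3961835692253457, 4243310669226257, 3509608721, 4345431600257319953, 3868710159377, 4143588328465, 3163153, 11537, 3868978595089, 4143856764177, 3425553, 4144125199889, 3687953, 3950353, 1],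
[1897423121, 1597713, 1859857, 8465, 1897415697, 1590289, 1852433, 1041, 1897415953, 1590545, 1852689, 1297, 1852945, 1553, 1809, 1],
[7364369, 3245623313, 4046216209, 7185, 3246147601, 3246934033, 7697, 3164177, 4046216465, 7441, 4143857813777, 3426577, 7953, 8721, 3951377, 1],
[9414395921, 2703509521, 2971944977, 2377745, 9193489, 2639889, 2902033, 2065, 9193745, 2640145, 2902289, 2321, 8977, 2577, 2833, 1],
[4144126774289, 3778300945, 4046736401, 3427345, 4046998545, 3689489, 3951633, 3089, 4046998801, 3689745, 3951889, 3345, 3952145, 3601, 3857, 1],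
[1, 1, 1, 1, 1, 1, 1, 1, 1, 1, 1, 1, 1, 1, 1, 1]]
theorem c30 : chkAll ([0, 0, 1, 1], [1, 0, 0, 1], 8) A30 B30 R30 = true := by decide +kernel

end Pool.Agent.Lib.MP_e6e31f_co.LA
end
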