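import Pool.Agent.Lib.MP_e6e31f_co.Mg.G001

section

set_option autoImplicit false

namespace Pool.Agent.Lib.MP_e6e31f_co.LA

/-- the strategy: blocks of three hats, the last hat of a block is the first one of the next -/
def LO_f : (n : ℕ) → (Fin (n + 1) → Bool) → Fin (n + 1)
  | 0, _ => 0
  | 1, _ => 0
  | n + 2, y =>
    if y 0 = true ∧ y 1 = false then 0
    else if y 0 = false ∧ y 2 = true then 1
    else if y 1 = true ∧ y 2 = false then 2
    else (LO_f n (fun i => y i.succ.succ)).succ.succ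

/-- the sign of the named hat -/
def LO_g (c d t : Bool) (A B C D : ℝ) : ℝ :=
  if c = true ∧ d = false then A
  else if c = false ∧ t = true then B
  else if d = true ∧ t = false then C
  else D

theorem LO_H (s t : Bool) (u v : ℝ) :
    ∑ a : Bool, ∑ b : Bool, ∑ c : Bool, ∑ d : Bool,
      LO_g c d t (sg a) (sg b) (sg s) u * LO_g a b s (sg c) (sg d) (sg t) v
      = u * v + 3 * (sg s * v) + 3 * (sg t * u) + 6 - sg s * sg t := by
  cases s <;> cases t <;> simp [Fintype.sum_bool, sg, LO_g] <;> ring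

theorem LO_val2 (n : ℕ) : ((2 : Fin (n + 2 + 1)) : ℕ) = 2 := by
  show 2 % (n + 2 + 1) = 2
  exact Nat.mod_eq_of_lt (by omega)

theorem LO_look : ∀ (n : ℕ), Lookahead (LO_f n) 1 := by
  intro n
  induction n using Nat.twoStepInduction with
  | zero => intro y y' _; rfl
  | one => intro y y' _; rfl
  | more n ih _ =>
    intro y y' h
    have e : ∀ i : Fin (n + 2 + 1), (i : ℤ) ≤ (LO_f (n + 2) y : ℤ) + 1 → y i = y' i := h
    have h0 : y 0 = y' 0 := e 0 (by simp; omega)
    have h1 : y 1 = y' 1 := e 1 (by simp)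
    by_cases c1 : y 0 = true ∧ y 1 = false
    · have c1' : y' 0 = true ∧ y' 1 = false := by rw [← h0, ← h1]; exact c1
      simp only [LO_f, if_pos c1, if_pos c1']
    · have c1' : ¬ (y' 0 = true ∧ y' 1 = false) := by rw [← h0, ← h1]; exact c1
      have hge : 1 ≤ (LO_f (n + 2) y : ℕ) := by
        simp only [LO_f, if_neg c1]
        split_ifs
        · simp
        · rw [LO_val2]; omega
        · simp
      have h2 : y 2 = y' 2 := e 2 (by
        rw [LO_val2]
        push_cast
        omega)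
      by_cases c2 : y 0 = false ∧ y 2 = true
      · have c2' : y' 0 = false ∧ y' 2 = true := by rw [← h0, ← h2]; exact c2
        simp only [LO_f, if_neg c1, if_neg c1', if_pos c2, if_pos c2']
      · have c2' : ¬ (y' 0 = false ∧ y' 2 = true) := by rw [← h0, ← h2]; exact c2
        by_cases c3 : y 1 = true ∧ y 2 = false
        · have c3' : y' 1 = true ∧ y' 2 = false := by rw [← h1, ← h2]; exact c3
          simp only [LO_f, if_neg c1, if_neg c1', if_neg c2, if_neg c2', if_pos c3, if_pos c3']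
        · have c3' : ¬ (y' 1 = true ∧ y' 2 = false) := by rw [← h1, ← h2]; exact c3
          have hf : LO_f (n + 2) y = (LO_f n (fun i => y i.succ.succ)).succ.succ := by
            simp only [LO_f, if_neg c1, if_neg c2, if_neg c3]
          have hf' : LO_f (n + 2) y' = (LO_f n (fun i => y' i.succ.succ)).succ.succ := by
            simp only [LO_f, if_neg c1', if_neg c2', if_neg c3']
          rw [hf, hf']
          congr 2
          apply ih
          intro i hi
          apply e
          rw [hf]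
          simp only [Fin.val_succ]
          push_cast
          omega

/-- splitting off two hats -/
theorem LO_split (n : ℕ) (φ : (Fin (n + 2 + 1) → Bool) → ℝ) :
    ∑ x, φ x = ∑ a : Bool, ∑ b : Bool, ∑ x' : Fin (n + 1) → Bool,
      φ (Fin.cons a (Fin.cons b x') : Fin (n + 2 + 1) → Bool) := by
  have key : ∀ (k : ℕ) (ψ : (Fin (k + 1) → Bool) → ℝ),
      ∑ x, ψ x = ∑ a : Bool, ∑ x' : Fin k → Bool, ψ (Fin.cons a x' : Fin (k + 1) → Bool) := by
    intro k ψ
    rw [← Fintype.sum_prod_type' (f := fun (a : Bool) (x' : Fin k → Bool) =>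
      ψ (Fin.cons a x' : Fin (k + 1) → Bool))]
    symm
    exact Fintype.sum_equiv (Fin.consEquiv (fun _ : Fin (k + 1) => Bool)) _ _ (fun _ => rfl)
  rw [key]
  refine Finset.sum_congr rfl fun a _ => ?_
  rw [key]

theorem LO_val (n : ℕ) (a b c d : Bool) (x' y' : Fin (n + 1) → Bool) :
    sg ((Fin.cons a (Fin.cons b x') : Fin (n + 2 + 1) → Bool)
      (LO_f (n + 2) (Fin.cons c (Fin.cons d y') : Fin (n + 2 + 1) → Bool)))
      = LO_g c d (y' 0) (sg a) (sg b) (sg (x' 0)) (sg (x' (LO_f n y'))) := by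
  have e0 : (Fin.cons c (Fin.cons d y') : Fin (n + 2 + 1) → Bool) 0 = c := rfl
  have e1 : (Fin.cons c (Fin.cons d y') : Fin (n + 2 + 1) → Bool) 1 = d := rfl
  have e2 : (Fin.cons c (Fin.cons d y') : Fin (n + 2 + 1) → Bool) 2 = y' 0 := rfl
  have e3 : (fun i : Fin (n + 1) => (Fin.cons c (Fin.cons d y') : Fin (n + 2 + 1) → Bool) i.succ.succ)
      = y' := rfl
  unfold LO_g
  rw [LO_f, e0, e1, e2, e3]
  by_cases c1 : c = true ∧ d = false
  · rw [if_pos c1, if_pos c1]; rfl
  · rw [if_neg c1, if_neg c1]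
    by_cases c2 : c = false ∧ y' 0 = true
    · rw [if_pos c2, if_pos c2]; rfl
    · rw [if_neg c2, if_neg c2]
      by_cases c3 : d = true ∧ y' 0 = false
      · rw [if_pos c3, if_pos c3]; rfl
      · rw [if_neg c3, if_neg c3]; rfl

theorem LO_sum_sg {n : ℕ} (i : Fin n) : ∑ x : Fin n → Bool, sg (x i) = 0 := by
  have hinv : Function.Involutive (fun x : Fin n → Bool => Function.update x i (!x i)) := by
    intro x
    funext j
    by_cases hj : j = i
    · subst hj; simp
    · simp [Function.update_of_ne hj]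
  have h1 : ∑ x : Fin n → Bool, sg (x i) = ∑ x : Fin n → Bool, sg ((Function.update x i (!x i)) i) :=
    (Equiv.sum_comp hinv.toPerm (fun x : Fin n → Bool => sg (x i))).symm
  have h2 : ∀ x : Fin n → Bool, sg ((Function.update x i (!x i)) i) = - sg (x i) := by
    intro x
    rw [Function.update_self]
    cases x i <;> simp [sg]
  simp only [h2, Finset.sum_neg_distrib] at h1
  linarith

theorem LO_rec (n : ℕ) :
    ∑ x : Fin (n + 2 + 1) → Bool, ∑ y : Fin (n + 2 + 1) → Bool,
      sg (x (LO_f (n + 2) y)) * sg (y (LO_f (n + 2) x))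
    = 6 * 4 ^ (n + 1) + ∑ x : Fin (n + 1) → Bool, ∑ y : Fin (n + 1) → Bool,
      sg (x (LO_f n y)) * sg (y (LO_f n x)) := by
  have h1 : ∑ x : Fin (n + 2 + 1) → Bool, ∑ y : Fin (n + 2 + 1) → Bool,
      sg (x (LO_f (n + 2) y)) * sg (y (LO_f (n + 2) x))
      = ∑ x' : Fin (n + 1) → Bool, ∑ y' : Fin (n + 1) → Bool,
        ∑ a : Bool, ∑ b : Bool, ∑ c : Bool, ∑ d : Bool,
        LO_g c d (y' 0) (sg a) (sg b) (sg (x' 0)) (sg (x' (LO_f n y')))
          * LO_g a b (x' 0) (sg c) (sg d) (sg (y' 0)) (sg (y' (LO_f n x'))) := by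
    rw [LO_split]
    have h2 : ∀ (a b : Bool) (x' : Fin (n + 1) → Bool),
        ∑ y : Fin (n + 2 + 1) → Bool,
          sg ((Fin.cons a (Fin.cons b x') : Fin (n + 2 + 1) → Bool) (LO_f (n + 2) y))
          * sg (y (LO_f (n + 2) (Fin.cons a (Fin.cons b x') : Fin (n + 2 + 1) → Bool)))
        = ∑ c : Bool, ∑ d : Bool, ∑ y' : Fin (n + 1) → Bool,
          LO_g c d (y' 0) (sg a) (sg b) (sg (x' 0)) (sg (x' (LO_f n y')))
          * LO_g a b (x' 0) (sg c) (sg d) (sg (y' 0)) (sg (y' (LO_f n x'))) := by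
      intro a b x'
      rw [LO_split]
      refine Finset.sum_congr rfl fun c _ => Finset.sum_congr rfl fun d _ =>
        Finset.sum_congr rfl fun y' _ => ?_
      rw [LO_val, LO_val]
    simp only [h2]
    -- rearrange the sums
    simp only [Fintype.sum_bool, Finset.sum_add_distrib]
  rw [h1]
  simp only [LO_H]
  simp only [Finset.sum_sub_distrib, Finset.sum_add_distrib]
  have e1 : ∑ x : Fin (n + 1) → Bool, ∑ y : Fin (n + 1) → Bool,
      3 * (sg (x 0) * sg (y (LO_f n x))) = 0 := by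
    refine Finset.sum_eq_zero fun x _ => ?_
    rw [← Finset.mul_sum, ← Finset.mul_sum, LO_sum_sg]
    ring
  have e2 : ∑ x : Fin (n + 1) → Bool, ∑ y : Fin (n + 1) → Bool,
      3 * (sg (y 0) * sg (x (LO_f n y))) = 0 := by
    rw [Finset.sum_comm]
    refine Finset.sum_eq_zero fun y _ => ?_
    rw [← Finset.mul_sum, ← Finset.mul_sum, LO_sum_sg]
    ring
  have e3 : ∑ x : Fin (n + 1) → Bool, ∑ y : Fin (n + 1) → Bool, sg (x 0) * sg (y 0) = 0 := by
    refine Finset.sum_eq_zero fun x _ => ?_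
    rw [← Finset.mul_sum, LO_sum_sg]
    ring
  have e4 : ∑ _x : Fin (n + 1) → Bool, ∑ _y : Fin (n + 1) → Bool, (6 : ℝ) = 6 * 4 ^ (n + 1) := by
    simp only [Finset.sum_const, Finset.card_univ, Fintype.card_fun, Fintype.card_bool,
      Fintype.card_fin, nsmul_eq_mul]
    push_cast
    rw [show (4 : ℝ) = 2 * 2 by norm_num, mul_pow]
    ring
  rw [e1, e2, e3, e4]
  ring

theorem LO_sum (m : ℕ) :
    ∑ x : Fin (2 * m + 1) → Bool, ∑ y : Fin (2 * m + 1) → Bool,
      sg (x (LO_f (2 * m) y)) * sg (y (LO_f (2 * m) x)) = 8 / 5 * (16 ^ m - 1) := by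
  induction m with
  | zero =>
    have e3 : ∑ x : Fin (2 * 0 + 1) → Bool, ∑ y : Fin (2 * 0 + 1) → Bool,
        sg (x (LO_f (2 * 0) y)) * sg (y (LO_f (2 * 0) x)) = 0 := by
      refine Finset.sum_eq_zero fun x _ => ?_
      have : ∀ y : Fin (2 * 0 + 1) → Bool, sg (x (LO_f (2 * 0) y)) = sg (x 0) := fun y => rfl
      simp only [this]
      rw [← Finset.mul_sum, LO_sum_sg]
      ring
    rw [e3]; norm_num
  | succ m ih =>
    have h := LO_rec (2 * m)
    have e : 2 * (m + 1) = 2 * m + 2 := by ring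
    rw [ih] at h
    have h' : ∑ x : Fin (2 * (m + 1) + 1) → Bool, ∑ y : Fin (2 * (m + 1) + 1) → Bool,
      sg (x (LO_f (2 * (m + 1)) y)) * sg (y (LO_f (2 * (m + 1)) x))
        = 6 * 4 ^ (2 * m + 1) + 8 / 5 * (16 ^ m - 1) := h
    rw [h', pow_succ, pow_succ, pow_mul]
    norm_num
    ring

theorem low (m : ℕ) : ∃ f : (Fin (2 * m + 1) → Bool) → Fin (2 * m + 1), Lookahead f 1 ∧
    ∑ x : Fin (2 * m + 1) → Bool, ∑ y : Fin (2 * m + 1) → Bool,
      sg (x (f y)) * sg (y (f x)) = 8 / 5 * (16 ^ m - 1) :=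
  ⟨LO_f (2 * m), LO_look (2 * m), LO_sum m⟩

end Pool.Agent.Lib.MP_e6e31f_co.LA
end

section

set_option autoImplicit false

/-! TASK PD (about 100 lines).  Reduction to lookahead one on both sides (shift of the stacks).

`fiber`: for an injective `e : Fin h → Fin n` every `y : Fin h → Bool` has `2^(n-h)` preimages under
`z ↦ z ∘ e`.  (For instance by `Finset.sum_comp`-like grouping, or the equivalence of `Fin n → Bool` with
`(range e → Bool) × ((range e)ᶜ → Bool)`: `Equiv.piEquivPiSubtypeProd`, and `Equiv.ofInjective`; or by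
induction.)
`pad`: put `ct = (1 - a).toNat`, `cs = (a - 1).toNat` (so `ct - cs = 1 - a`), `N = h + ct + cs`, and for
`z : Fin (N+1) → Bool`: `Y z i = z (i + ct)`, `X z i = z (i + cs)` (`i : Fin h`).  `F z = f (Y z) + cs`,
`G z = g (X z) + ct`.  `Str F`: `F z < h + cs ≤ N`.  If `z, z'` agree on the hats `≤ F z + 1` then `Y z, Y z'` agree
on the `i` with `i + ct ≤ f (Y z) + cs + 1`, i.e. `i ≤ f (Y z) + (cs - ct + 1) = f (Y z) + a`; so `f (Y z') = f (Y z)`.
`Str G`: agreement on `i + cs ≤ g (X z) + ct + 1`, i.e. `i ≤ g (X z) + (2 - a)`, and `b ≤ 2 - a`, so `hg` applies.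
Sum: `bit z (F z') = sg (X z (f (Y z')))` and `bit z' (G z) = sg (Y z' (g (X z)))`: the summand is a function of
`X z` and `Y z'`, so with `fiber` twice the double sum is `(2^(N+1-h))^2` times the double sum over
`(Fin h → Bool)`, and `(2^(N+1-h))^2 * 4^h = 4^(N+1)`. -/

namespace Pool.Agent.Lib.MP_e6e31f_co.LA

theorem PD_card {h n : ℕ} (e : Fin h → Fin n) (he : Function.Injective e) :
    Fintype.card {j : Fin n // ¬ (j ∈ Set.range e)} = n - h := by
  classical
  rw [Fintype.card_subtype_compl]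
  have h1 : Fintype.card {x : Fin n // x ∈ Set.range e} = h := by
    have := Fintype.card_congr (Equiv.ofInjective e he)
    rw [Fintype.card_fin] at this
    exact this.symm
  rw [h1, Fintype.card_fin]

theorem fiber {h n : ℕ} (e : Fin h → Fin n) (he : Function.Injective e)
    (G : (Fin h → Bool) → ℝ) :
    ∑ z : Fin n → Bool, G (fun i => z (e i)) = 2 ^ (n - h) * ∑ y, G y := by
  classical
  let E : (Fin h ⊕ {j : Fin n // ¬ (j ∈ Set.range e)}) ≃ Fin n :=
    (Equiv.sumCongr (Equiv.ofInjective e he) (Equiv.refl _)).trans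
      (Equiv.sumCompl (fun j => j ∈ Set.range e))
  let Φ : (Fin n → Bool) ≃ (Fin h → Bool) × ({j : Fin n // ¬ (j ∈ Set.range e)} → Bool) :=
    (Equiv.arrowCongr E.symm (Equiv.refl _)).trans (Equiv.sumArrowEquivProdArrow _ _ _)
  have h1 : ∑ z : Fin n → Bool, G (fun i => z (e i))
      = ∑ p : (Fin h → Bool) × ({j : Fin n // ¬ (j ∈ Set.range e)} → Bool), G p.1 := by
    refine Fintype.sum_equiv Φ _ _ (fun z => ?_)
    congr 1
  rw [h1, Fintype.sum_prod_type]
  simp only [Finset.sum_const, Finset.card_univ, nsmul_eq_mul, Fintype.card_fun,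
    Fintype.card_bool, PD_card e he]
  rw [Finset.mul_sum]
  push_cast
  rfl

theorem PD_bit {n : ℕ} (y : Fin n → Bool) (i : ℕ) (hi : i < n) : bit y i = sg (y ⟨i, hi⟩) := by
  unfold bit
  rw [dif_pos hi]

theorem pad {h : ℕ} (f g : (Fin h → Bool) → Fin h) (a b : ℤ) (hab : a + b ≤ 2)
    (hf : Lookahead f a) (hg : Lookahead g b) :
    ∃ (N : ℕ) (F G : (Fin (N + 1) → Bool) → ℕ), Str F ∧ Str G ∧
      (∑ x : Fin (N + 1) → Bool, ∑ y : Fin (N + 1) → Bool, bit x (F y) * bit y (G x)) / 4 ^ (N + 1)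
        = (∑ x : Fin h → Bool, ∑ y : Fin h → Bool, sg (x (f y)) * sg (y (g x))) / 4 ^ h := by
  obtain ⟨ct, cs, hcc⟩ : ∃ ct cs : ℕ, (ct : ℤ) - cs = 1 - a :=
    ⟨(1 - a).toNat, (a - 1).toNat, by omega⟩
  let eY : Fin h → Fin (h + ct + cs + 1) := fun i => ⟨i + ct, by have := i.isLt; omega⟩
  let eX : Fin h → Fin (h + ct + cs + 1) := fun i => ⟨i + cs, by have := i.isLt; omega⟩
  have heY : Function.Injective eY := by
    intro i j hij
    have h1 : (eY i : ℕ) = (eY j : ℕ) := by rw [hij]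
    have h2 : (i : ℕ) + ct = (j : ℕ) + ct := h1
    exact Fin.ext (by omega)
  have heX : Function.Injective eX := by
    intro i j hij
    have h1 : (eX i : ℕ) = (eX j : ℕ) := by rw [hij]
    have h2 : (i : ℕ) + cs = (j : ℕ) + cs := h1
    exact Fin.ext (by omega)
  refine ⟨h + ct + cs, fun y => (f (fun i => y (eY i)) : ℕ) + cs,
    fun x => (g (fun i => x (eX i)) : ℕ) + ct, ⟨?_, ?_⟩, ⟨?_, ?_⟩, ?_⟩
  · intro y
    have := (f (fun i => y (eY i))).isLt
    show (f (fun i => y (eY i)) : ℕ) + cs < h + ct + cs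
    omega
  · intro y y' hy
    have h1 : f (fun i => y' (eY i)) = f (fun i => y (eY i)) := by
      refine hf _ _ (fun i hi => ?_)
      refine hy (eY i) ?_
      show (i : ℕ) + ct ≤ (f (fun i => y (eY i)) : ℕ) + cs + 1
      omega
    show (f (fun i => y' (eY i)) : ℕ) + cs = (f (fun i => y (eY i)) : ℕ) + cs
    rw [h1]
  · intro x
    have := (g (fun i => x (eX i))).isLt
    show (g (fun i => x (eX i)) : ℕ) + ct < h + ct + cs
    omega
  · intro x x' hx
    have h1 : g (fun i => x' (eX i)) = g (fun i => x (eX i)) := by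
      refine hg _ _ (fun i hi => ?_)
      refine hx (eX i) ?_
      show (i : ℕ) + cs ≤ (g (fun i => x (eX i)) : ℕ) + ct + 1
      omega
    show (g (fun i => x' (eX i)) : ℕ) + ct = (g (fun i => x (eX i)) : ℕ) + ct
    rw [h1]
  · have h1 : ∀ x y : Fin (h + ct + cs + 1) → Bool,
        bit x ((f (fun i => y (eY i)) : ℕ) + cs) * bit y ((g (fun i => x (eX i)) : ℕ) + ct)
          = (fun (p q : Fin h → Bool) => sg (p (f q)) * sg (q (g p)))
              (fun i => x (eX i)) (fun i => y (eY i)) := by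
      intro x y
      rw [PD_bit x _ (by have := (f (fun i => y (eY i))).isLt; omega),
        PD_bit y _ (by have := (g (fun i => x (eX i))).isLt; omega)]
    have h2 : ∑ x : Fin (h + ct + cs + 1) → Bool, ∑ y : Fin (h + ct + cs + 1) → Bool,
        bit x ((f (fun i => y (eY i)) : ℕ) + cs) * bit y ((g (fun i => x (eX i)) : ℕ) + ct)
        = 2 ^ (h + ct + cs + 1 - h) * (2 ^ (h + ct + cs + 1 - h) *
          ∑ x : Fin h → Bool, ∑ y : Fin h → Bool, sg (x (f y)) * sg (y (g x))) := by
      have h3 : ∀ x : Fin (h + ct + cs + 1) → Bool, ∑ y : Fin (h + ct + cs + 1) → Bool,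
          bit x ((f (fun i => y (eY i)) : ℕ) + cs) * bit y ((g (fun i => x (eX i)) : ℕ) + ct)
          = (fun p : Fin h → Bool => 2 ^ (h + ct + cs + 1 - h) *
              ∑ q : Fin h → Bool, sg (p (f q)) * sg (q (g p))) (fun i => x (eX i)) := by
        intro x
        rw [Finset.sum_congr rfl (fun y _ => h1 x y)]
        exact fiber eY heY
          (fun q => sg ((fun i => x (eX i)) (f q)) * sg (q (g (fun i => x (eX i)))))
      rw [Finset.sum_congr rfl (fun x _ => h3 x)]
      rw [fiber eX heX (fun p : Fin h → Bool => 2 ^ (h + ct + cs + 1 - h) *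
              ∑ q : Fin h → Bool, sg (p (f q)) * sg (q (g p)))]
      rw [← Finset.mul_sum]
    show (∑ x : Fin (h + ct + cs + 1) → Bool, ∑ y : Fin (h + ct + cs + 1) → Bool,
        bit x ((f (fun i => y (eY i)) : ℕ) + cs) * bit y ((g (fun i => x (eX i)) : ℕ) + ct))
          / 4 ^ (h + ct + cs + 1) = _
    rw [h2]
    have h4 : (4 : ℝ) ^ (h + ct + cs + 1)
        = 2 ^ (h + ct + cs + 1 - h) * 2 ^ (h + ct + cs + 1 - h) * 4 ^ h := by
      rw [← mul_pow]
      norm_num
      rw [← pow_add]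
      congr 1
      omega
    rw [h4, ← mul_assoc]
    rw [mul_div_mul_left]
    positivity

end Pool.Agent.Lib.MP_e6e31f_co.LA
end
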