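import Mathlib

section

/-!
Counting additive triples of a map from a finite elementary abelian 2-group to the vectors of
weight two.
-/

open Finset

namespace Pool.Agent.Lib.MP_e6e31f_co

variable {ι : Type*} [Fintype ι]

/-- The number of nonzero coordinates. -/
def wt (v : ι → ZMod 2) : ℕ := ∑ i, if v i = 0 then 0 else 1

theorem four_dvd_wt (a b c : ι → ZMod 2) :
    4 ∣ wt a + wt b + wt c + wt (a + b) + wt (a + c) + wt (b + c) + wt (a + b + c) := by
  have key : ∀ x y z : ZMod 2, 4 ∣ (if x = 0 then 0 else 1) + (if y = 0 then 0 else 1)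
      + (if z = 0 then 0 else 1) + (if x + y = 0 then 0 else 1) + (if x + z = 0 then 0 else 1)
      + (if y + z = 0 then 0 else 1) + (if x + y + z = 0 then 0 else 1) := by decide
  unfold wt
  rw [← sum_add_distrib, ← sum_add_distrib, ← sum_add_distrib, ← sum_add_distrib,
    ← sum_add_distrib, ← sum_add_distrib]
  exact dvd_sum fun i _ => key (a i) (b i) (c i)

theorem add_self_pi (v : ι → ZMod 2) : v + v = 0 := by
  funext i
  exact CharTwo.add_self_eq_zero (v i)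

section

variable {G : Type*} [AddCommGroup G] (φ : G → ι → ZMod 2)

open Classical in
/-- The indicator of `φ (x + y) = φ x + φ y`. -/
noncomputable def τ (x y : G) : ℝ := if φ (x + y) = φ x + φ y then 1 else 0

theorem τ_nonneg (x y : G) : 0 ≤ τ φ x y := by
  unfold τ; split_ifs <;> norm_num

theorem τ_le_one (x y : G) : τ φ x y ≤ 1 := by
  unfold τ; split_ifs <;> norm_num

theorem τ_comm (x y : G) : τ φ x y = τ φ y x := by
  unfold τ; rw [add_comm x y, add_comm (φ x)]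

/-- In a group of exponent two, `x, y, x + y` enter symmetrically. -/
theorem τ_shift (h2 : ∀ x : G, x + x = 0) (x y : G) : τ φ x y = τ φ (x + y) y := by
  unfold τ
  have h : x + y + y = x := by rw [add_assoc, h2, add_zero]
  rw [h]
  have : φ (x + y) = φ x + φ y ↔ φ x = φ (x + y) + φ y := by
    constructor
    · intro h; rw [h, add_assoc, add_self_pi, add_zero]
    · intro h
      calc φ (x + y) = φ (x + y) + (φ y + φ y) := by rw [add_self_pi, add_zero]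
        _ = φ x + φ y := by rw [← add_assoc, ← h]
  simp only [this]

/-- Through a good line there are, in each plane, at most three other good lines. -/
theorem plane_bound (h2 : ∀ x : G, x + x = 0) (hw : ∀ x, wt (φ x) = 2) (x y z : G) :
    τ φ x y * (τ φ x z + τ φ x (y + z) + τ φ y z + τ φ y (x + z) + τ φ (x + y) z
      + τ φ (x + y) (x + z)) ≤ 3 * τ φ x y := by
  by_cases hxy : φ (x + y) = φ x + φ y
  swap
  · have : τ φ x y = 0 := by unfold τ; rw [if_neg hxy]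
    rw [this]; simp
  have h1 : τ φ x y = 1 := by unfold τ; rw [if_pos hxy]
  rw [h1, one_mul, mul_one]
  -- notation
  obtain ⟨a, ha⟩ : ∃ a, a = φ x := ⟨_, rfl⟩
  obtain ⟨b, hb⟩ : ∃ b, b = φ y := ⟨_, rfl⟩
  obtain ⟨c, hc⟩ : ∃ c, c = φ z := ⟨_, rfl⟩
  obtain ⟨d, hd⟩ : ∃ d, d = φ (x + z) + (a + c) := ⟨_, rfl⟩
  obtain ⟨e, he⟩ : ∃ e, e = φ (y + z) + (b + c) := ⟨_, rfl⟩
  obtain ⟨w, hw'⟩ : ∃ w, w = φ (x + y + z) + (a + b + c) := ⟨_, rfl⟩
  have cancel : ∀ u v : ι → ZMod 2, (u + v) + v = u := fun u v => by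
    rw [add_assoc, add_self_pi, add_zero]
  have hd' : φ (x + z) = d + (a + c) := by rw [hd, cancel]
  have he' : φ (y + z) = e + (b + c) := by rw [he, cancel]
  have hw'' : φ (x + y + z) = w + (a + b + c) := by rw [hw', cancel]
  have e1 : τ φ x z = if d = 0 then 1 else 0 := by
    unfold τ
    rw [hd', ← ha, ← hc]
    simp only [add_eq_right]
  have e3 : τ φ y z = if e = 0 then 1 else 0 := by
    unfold τ
    rw [he', ← hb, ← hc]
    simp only [add_eq_right]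
  have e5 : τ φ (x + y) z = if w = 0 then 1 else 0 := by
    unfold τ
    rw [hw'', hxy, ← ha, ← hb, ← hc]
    simp only [add_eq_right]
  have e2 : τ φ x (y + z) = if w = e then 1 else 0 := by
    unfold τ
    rw [← add_assoc, hw'', he', ← ha]
    have : w + (a + b + c) = a + (e + (b + c)) ↔ w = e := by
      have h : a + (e + (b + c)) = e + (a + b + c) := by abel
      rw [h, add_left_inj]
    simp only [this]
  have e4 : τ φ y (x + z) = if w = d then 1 else 0 := by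
    unfold τ
    have h0 : y + (x + z) = x + y + z := by abel
    rw [h0, hw'', hd', ← hb]
    have : w + (a + b + c) = b + (d + (a + c)) ↔ w = d := by
      have h : b + (d + (a + c)) = d + (a + b + c) := by abel
      rw [h, add_left_inj]
    simp only [this]
  have e6 : τ φ (x + y) (x + z) = if e = d then 1 else 0 := by
    unfold τ
    have h0 : (x + y) + (x + z) = y + z := by
      have : (x + y) + (x + z) = (x + x) + (y + z) := by abel
      rw [this, h2, zero_add]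
    rw [h0, he', hxy, hd', ← ha, ← hb]
    have : e + (b + c) = a + b + (d + (a + c)) ↔ e = d := by
      have h : a + b + (d + (a + c)) = (a + a) + (d + (b + c)) := by abel
      rw [h, add_self_pi, zero_add, add_left_inj]
    simp only [this]
  rw [e1, e2, e3, e4, e5, e6]
  by_cases hd0 : d = 0
  · by_cases he0 : e = 0
    · by_cases hw0 : w = 0
      · exfalso
        have w1 := hw x
        have w2 := hw y
        have w3 := hw z
        have w4 := hw (x + y)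
        have w5 := hw (x + z)
        have w6 := hw (y + z)
        have w7 := hw (x + y + z)
        rw [hxy] at w4
        rw [hd', hd0, zero_add] at w5
        rw [he', he0, zero_add] at w6
        rw [hw'', hw0, zero_add] at w7
        rw [← ha] at w1 w4
        rw [← hb] at w2 w4
        rw [← hc] at w3
        have := four_dvd_wt a b c
        rw [w1, w2, w3, w4, w5, w6, w7] at this
        omega
      · subst hd0; subst he0
        simp [hw0]; norm_num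
    · subst hd0
      by_cases hw0 : w = 0
      · subst hw0
        simp [he0, Ne.symm he0]
        norm_num
      · simp [he0, hw0]
        split_ifs <;> norm_num
  · by_cases he0 : e = 0
    · subst he0
      by_cases hw0 : w = 0
      · subst hw0
        simp [hd0, Ne.symm hd0]
        norm_num
      · simp [hd0, Ne.symm hd0, hw0]
        split_ifs <;> norm_num
    · by_cases hw0 : w = 0
      · subst hw0
        simp [hd0, Ne.symm hd0, he0, Ne.symm he0]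
        split_ifs <;> norm_num
      · simp only [hd0, he0, hw0, if_false]
        split_ifs <;> norm_num

variable [Fintype G]

/-- A map from a finite elementary abelian 2-group to the vectors of weight two is additive on at
most half of the pairs. -/
theorem sum_τ_le (h2 : ∀ x : G, x + x = 0) (hw : ∀ x, wt (φ x) = 2) :
    ∑ x, ∑ y, τ φ x y ≤ (Fintype.card G : ℝ) ^ 2 / 2 := by
  obtain ⟨Λ, hΛ⟩ : ∃ Λ : G → ℝ, ∀ x, Λ x = ∑ y, τ φ x y := ⟨_, fun _ => rfl⟩
  obtain ⟨n, hn⟩ : ∃ n : ℝ, n = (Fintype.card G : ℝ) := ⟨_, rfl⟩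
  have hn0 : 0 < n := by rw [hn]; exact_mod_cast Fintype.card_pos
  have shift : ∀ (u v : G), ∑ z, τ φ u (v + z) = Λ u := by
    intro u v
    rw [hΛ]
    exact Fintype.sum_equiv (Equiv.addLeft v) _ _ (fun z => rfl)
  have t1 : ∑ x, ∑ y, ∑ z, τ φ x y * τ φ x z = ∑ x, Λ x ^ 2 := by
    refine sum_congr rfl fun x _ => ?_
    rw [hΛ, sq, sum_mul_sum]
  have t2 : ∑ x, ∑ y, ∑ z, τ φ x y * τ φ x (y + z) = ∑ x, Λ x ^ 2 := by
    refine sum_congr rfl fun x _ => ?_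
    have : ∀ y, ∑ z, τ φ x y * τ φ x (y + z) = τ φ x y * Λ x := by
      intro y; rw [← mul_sum, shift]
    rw [sum_congr rfl fun y _ => this y, ← sum_mul, ← hΛ, sq]
  have t3 : ∑ x, ∑ y, ∑ z, τ φ x y * τ φ y z = ∑ x, Λ x ^ 2 := by
    have : ∀ x y, ∑ z, τ φ x y * τ φ y z = τ φ y x * Λ y := by
      intro x y; rw [← mul_sum, ← hΛ, τ_comm]
    rw [sum_congr rfl fun x _ => sum_congr rfl fun y _ => this x y, sum_comm]
    refine sum_congr rfl fun y _ => ?_
    rw [← sum_mul, ← hΛ, sq]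
  have t4 : ∑ x, ∑ y, ∑ z, τ φ x y * τ φ y (x + z) = ∑ x, Λ x ^ 2 := by
    have : ∀ x y, ∑ z, τ φ x y * τ φ y (x + z) = τ φ y x * Λ y := by
      intro x y; rw [← mul_sum, shift, τ_comm]
    rw [sum_congr rfl fun x _ => sum_congr rfl fun y _ => this x y, sum_comm]
    refine sum_congr rfl fun y _ => ?_
    rw [← sum_mul, ← hΛ, sq]
  have s5 : ∑ x, ∑ y, τ φ x y * Λ (x + y) = ∑ x, Λ x ^ 2 := by
    rw [sum_comm]
    have : ∀ y, ∑ x, τ φ x y * Λ (x + y) = ∑ x, τ φ x y * Λ x := by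
      intro y
      refine Fintype.sum_equiv (Equiv.addRight y) _ _ (fun x => ?_)
      simp only [Equiv.coe_addRight]
      rw [← τ_shift φ h2]
    rw [sum_congr rfl fun y _ => this y, sum_comm]
    refine sum_congr rfl fun x _ => ?_
    rw [← sum_mul, ← hΛ, sq]
  have t5 : ∑ x, ∑ y, ∑ z, τ φ x y * τ φ (x + y) z = ∑ x, Λ x ^ 2 := by
    rw [← s5]
    refine sum_congr rfl fun x _ => sum_congr rfl fun y _ => ?_
    rw [← mul_sum, ← hΛ]
  have t6 : ∑ x, ∑ y, ∑ z, τ φ x y * τ φ (x + y) (x + z) = ∑ x, Λ x ^ 2 := by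
    rw [← s5]
    refine sum_congr rfl fun x _ => sum_congr rfl fun y _ => ?_
    rw [← mul_sum, shift]
  have hsum : ∑ x, ∑ y, ∑ z, τ φ x y * (τ φ x z + τ φ x (y + z) + τ φ y z + τ φ y (x + z)
      + τ φ (x + y) z + τ φ (x + y) (x + z)) = 6 * ∑ x, Λ x ^ 2 := by
    have : ∀ x y z, τ φ x y * (τ φ x z + τ φ x (y + z) + τ φ y z + τ φ y (x + z)
      + τ φ (x + y) z + τ φ (x + y) (x + z)) = τ φ x y * τ φ x z + τ φ x y * τ φ x (y + z)
      + τ φ x y * τ φ y z + τ φ x y * τ φ y (x + z) + τ φ x y * τ φ (x + y) z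
      + τ φ x y * τ φ (x + y) (x + z) := by intro x y z; ring
    simp only [this, sum_add_distrib]
    rw [t1, t2, t3, t4, t5, t6]
    ring
  have hle : ∑ x, ∑ y, ∑ z, τ φ x y * (τ φ x z + τ φ x (y + z) + τ φ y z + τ φ y (x + z)
      + τ φ (x + y) z + τ φ (x + y) (x + z)) ≤ ∑ x, ∑ y, ∑ _z : G, 3 * τ φ x y :=
    sum_le_sum fun x _ => sum_le_sum fun y _ => sum_le_sum fun z _ => plane_bound φ h2 hw x y z
  have hr : ∑ x, ∑ y, ∑ _z : G, 3 * τ φ x y = 3 * n * ∑ x, Λ x := by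
    simp only [sum_const, card_univ, nsmul_eq_mul, ← hn, hΛ, mul_sum]
    refine sum_congr rfl fun x _ => sum_congr rfl fun y _ => ?_
    ring
  rw [hsum, hr] at hle
  have hcs : (∑ x, Λ x) ^ 2 ≤ n * ∑ x, Λ x ^ 2 := by
    have := sq_sum_le_card_mul_sum_sq (s := (univ : Finset G)) (f := Λ)
    rwa [card_univ, ← hn] at this
  have hgoal : ∑ x, ∑ y, τ φ x y = ∑ x, Λ x := sum_congr rfl fun x _ => (hΛ x).symm
  rw [hgoal, ← hn]
  obtain ⟨S, hS⟩ : ∃ S : ℝ, S = ∑ x, Λ x := ⟨_, rfl⟩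
  obtain ⟨Q, hQ⟩ : ∃ Q : ℝ, Q = ∑ x, Λ x ^ 2 := ⟨_, rfl⟩
  rw [← hS, ← hQ] at hle hcs
  rw [← hS]
  have hS0 : 0 ≤ S := by
    rw [hS]
    exact sum_nonneg fun x _ => by rw [hΛ]; exact sum_nonneg fun y _ => τ_nonneg φ x y
  -- 2 Q ≤ n S and S ^ 2 ≤ n Q
  have h1 : S ^ 2 ≤ n * (n * S / 2) := by
    refine hcs.trans (mul_le_mul_of_nonneg_left ?_ hn0.le)
    linarith
  rcases eq_or_lt_of_le hS0 with h0 | h0
  · rw [← h0]; positivity
  · have : S * S ≤ (n ^ 2 / 2) * S := by nlinarith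
    exact le_of_mul_le_mul_right this h0

end

end Pool.Agent.Lib.MP_e6e31f_co
end

section

/-!
The grid inequality: for maps `φ`, `ψ` from `𝔽₂^h` to the vectors of weight two, the form
`s · φ t + ψ s · t` is nonzero on at least one eighth of all pairs.
-/

open Finset Matrix

namespace Pool.Agent.Lib.MP_e6e31f_co

/-- The indicator of a nonzero element. -/
def nz (a : ZMod 2) : ℝ := if a = 0 then 0 else 1

theorem nz_zero : nz 0 = 0 := by simp [nz]

theorem nz_nonneg (a : ZMod 2) : 0 ≤ nz a := by unfold nz; split_ifs <;> norm_num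

theorem nz_add3_le (a b c : ZMod 2) : nz (a + b + c) ≤ nz a + nz b + nz c := by
  have h : ∀ a b c : ZMod 2, (if a + b + c = 0 then 0 else 1 : ℕ) ≤
    (if a = 0 then 0 else 1) + (if b = 0 then 0 else 1) + (if c = 0 then 0 else 1) := by decide
  have := h a b c
  unfold nz
  exact_mod_cast this

theorem nz_pair (a b : ZMod 2) :
    nz a + nz b + nz (a + b) = 2 * (1 - (1 - nz a) * (1 - nz b)) := by
  have h : ∀ a b : ZMod 2, (if a = 0 then 0 else 1 : ℤ) + (if b = 0 then 0 else 1)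
    + (if a + b = 0 then 0 else 1) = 2 * (1 - (1 - (if a = 0 then 0 else 1)) *
      (1 - (if b = 0 then 0 else 1))) := by decide
  have := h a b
  unfold nz
  exact_mod_cast this

theorem zmod2_ne_zero {a : ZMod 2} (h : a ≠ 0) : a = 1 := by
  revert h; revert a; decide

theorem nz_add_one (a : ZMod 2) : nz (a + 1) = 1 - nz a := by
  have h : ∀ a : ZMod 2, (if a + 1 = 0 then 0 else 1 : ℤ) = 1 - (if a = 0 then 0 else 1) := by
    decide
  have := h a
  unfold nz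
  exact_mod_cast this

variable {h : ℕ}

/-- the configuration space -/
abbrev Vc (h : ℕ) : Type := Fin h → ZMod 2

/-- `φ t₁ + φ t₂ + φ (t₁ + t₂)` -/
def W (φ : Vc h → Vc h) (p : Vc h × Vc h) : Vc h := φ p.1 + φ p.2 + φ (p.1 + p.2)

theorem τ_eq (φ : Vc h → Vc h) (x y : Vc h) : τ φ x y = if W φ (x, y) = 0 then 1 else 0 := by
  unfold τ W
  have : φ (x + y) = φ x + φ y ↔ φ x + φ y + φ (x + y) = 0 := by
    constructor
    · intro e; rw [e, add_self_pi]
    · intro e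
      calc φ (x + y) = (φ x + φ y + (φ x + φ y)) + φ (x + y) := by rw [add_self_pi, zero_add]
        _ = (φ x + φ y) + (φ x + φ y + φ (x + y)) := by abel
        _ = φ x + φ y := by rw [e, add_zero]
  simp only [this]

/-- half of the vectors are orthogonal to a nonzero vector -/
theorem sum_nz_dot (w : Vc h) (hw : w ≠ 0) :
    ∑ s : Vc h, (1 - nz (s ⬝ᵥ w)) = (Fintype.card (Vc h) : ℝ) / 2 := by
  obtain ⟨i, hi⟩ : ∃ i, w i ≠ 0 := by
    by_contra hc
    push Not at hc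
    exact hw (funext hc)
  have h1 : w i = 1 := zmod2_ne_zero hi
  have e : ∑ s : Vc h, (1 - nz (s ⬝ᵥ w)) = ∑ s : Vc h, nz (s ⬝ᵥ w) := by
    refine Fintype.sum_equiv (Equiv.addRight (Pi.single i (1 : ZMod 2))) _ _ (fun s => ?_)
    simp only [Equiv.coe_addRight]
    rw [add_dotProduct, single_dotProduct, h1, one_mul, nz_add_one]
  have e2 : ∑ s : Vc h, (1 - nz (s ⬝ᵥ w)) + ∑ s : Vc h, nz (s ⬝ᵥ w) = Fintype.card (Vc h) := by
    rw [← sum_add_distrib]
    simp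
  linarith

variable (φ ψ : Vc h → Vc h)

/-- the indicator that the pair is not additive -/
noncomputable def A (p : Vc h × Vc h) : ℝ := 1 - τ φ p.1 p.2

/-- one of `p.1`, `p.2` is not orthogonal to `w` -/
noncomputable def Xf (p : Vc h × Vc h) (w : Vc h) : ℝ :=
  1 - (1 - nz (p.1 ⬝ᵥ w)) * (1 - nz (p.2 ⬝ᵥ w))

theorem Xf_zero (p : Vc h × Vc h) : Xf p 0 = 0 := by
  simp [Xf, nz_zero]

theorem sum_prod_eq {α : Type*} [Fintype α] (f g : α → ℝ) :
    ∑ p : α × α, f p.1 * g p.2 = (∑ x, f x) * ∑ y, g y := by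
  rw [Fintype.sum_prod_type, sum_mul_sum]

theorem sum_Xf (q : Vc h × Vc h) :
    ∑ p : Vc h × Vc h, Xf p (W φ q) = 3 / 4 * (Fintype.card (Vc h) : ℝ) ^ 2 * A φ q := by
  by_cases hw : W φ q = 0
  · have : A φ q = 0 := by
      unfold A
      rw [τ_eq, if_pos hw, sub_self]
    rw [hw, this]
    simp [Xf_zero]
  · have : A φ q = 1 := by
      unfold A
      rw [τ_eq, if_neg hw, sub_zero]
    rw [this]
    unfold Xf
    have k := sum_prod_eq (fun x : Vc h => 1 - nz (x ⬝ᵥ W φ q)) (fun x => 1 - nz (x ⬝ᵥ W φ q))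
    rw [sum_nz_dot _ hw] at k
    rw [sum_sub_distrib, k]
    simp only [sum_const, card_univ, Fintype.card_prod, nsmul_eq_mul, mul_one]
    push_cast
    ring

/-- The additive triples inside the orthogonal complement of a nonzero vector. -/
theorem sum_τ_orth (hψ : ∀ x, wt (ψ x) = 2) (w : Vc h) (hw : w ≠ 0) :
    ∑ p : Vc h × Vc h, (1 - nz (p.1 ⬝ᵥ w)) * (1 - nz (p.2 ⬝ᵥ w)) * τ ψ p.1 p.2 ≤
      (Fintype.card (Vc h) : ℝ) ^ 2 / 8 := by
  classical
  let K : AddSubgroup (Vc h) :=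
    { carrier := {s | s ⬝ᵥ w = 0}
      zero_mem' := by simp
      add_mem' := by
        intro a b ha hb
        simp only [Set.mem_ofPred_eq] at ha hb ⊢
        rw [add_dotProduct, ha, hb, add_zero]
      neg_mem' := by
        intro a ha
        simp only [Set.mem_ofPred_eq] at ha ⊢
        rw [neg_dotProduct, ha, neg_zero] }
  have memK : ∀ s : Vc h, s ∈ K ↔ s ⬝ᵥ w = 0 := fun s => Iff.rfl
  have toK : ∀ f : Vc h → ℝ, ∑ s : Vc h, (1 - nz (s ⬝ᵥ w)) * f s = ∑ s : K, f s := by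
    intro f
    rw [← Finset.sum_subtype (univ.filter (fun s : Vc h => s ∈ K)) (by simp) f, sum_filter]
    refine sum_congr rfl fun s _ => ?_
    by_cases hs : s ⬝ᵥ w = 0
    · rw [if_pos ((memK s).2 hs), hs, nz_zero]; ring
    · rw [if_neg (fun hc => hs ((memK s).1 hc))]
      simp [nz, hs]
  have cardK : (Fintype.card K : ℝ) = (Fintype.card (Vc h) : ℝ) / 2 := by
    rw [← sum_nz_dot w hw]
    have := toK (fun _ => 1)
    simp only [mul_one, sum_const, card_univ, nsmul_eq_mul] at this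
    exact this.symm
  have h2 : ∀ x : K, x + x = 0 := fun x => by
    apply Subtype.ext
    exact add_self_pi (x : Vc h)
  have key := sum_τ_le (fun x : K => ψ x) h2 (fun x => hψ x)
  rw [cardK] at key
  have e : ∑ p : Vc h × Vc h, (1 - nz (p.1 ⬝ᵥ w)) * (1 - nz (p.2 ⬝ᵥ w)) * τ ψ p.1 p.2 =
      ∑ x : K, ∑ y : K, τ (fun x : K => ψ x) x y := by
    rw [Fintype.sum_prod_type]
    have e1 : ∀ x : Vc h, ∑ y : Vc h, (1 - nz ((x, y).1 ⬝ᵥ w)) * (1 - nz ((x, y).2 ⬝ᵥ w))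
        * τ ψ (x, y).1 (x, y).2 = (1 - nz (x ⬝ᵥ w)) * ∑ y : K, τ ψ x y := by
      intro x
      rw [← toK (fun y => τ ψ x y), mul_sum]
      exact sum_congr rfl fun y _ => by ring
    rw [sum_congr rfl fun x _ => e1 x, toK (fun x => ∑ y : K, τ ψ x y)]
    rfl
  rw [e]
  calc _ ≤ _ := key
    _ = _ := by ring

theorem sum_Xf_A (hψ : ∀ x, wt (ψ x) = 2) (q : Vc h × Vc h) :
    ∑ p : Vc h × Vc h, Xf p (W φ q) * A ψ p ≤
      A φ q * (∑ p, A ψ p - (Fintype.card (Vc h) : ℝ) ^ 2 / 8) := by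
  by_cases hw : W φ q = 0
  · have : A φ q = 0 := by
      unfold A
      rw [τ_eq, if_pos hw, sub_self]
    rw [hw, this]
    simp [Xf_zero]
  · have : A φ q = 1 := by
      unfold A
      rw [τ_eq, if_neg hw, sub_zero]
    rw [this, one_mul]
    have k := sum_τ_orth ψ hψ (W φ q) hw
    have e : ∀ p : Vc h × Vc h, Xf p (W φ q) * A ψ p = A ψ p -
        (1 - nz (p.1 ⬝ᵥ W φ q)) * (1 - nz (p.2 ⬝ᵥ W φ q)) +
        (1 - nz (p.1 ⬝ᵥ W φ q)) * (1 - nz (p.2 ⬝ᵥ W φ q)) * τ ψ p.1 p.2 := by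
      intro p
      unfold Xf A
      ring
    have k2 := sum_prod_eq (fun x : Vc h => 1 - nz (x ⬝ᵥ W φ q)) (fun x => 1 - nz (x ⬝ᵥ W φ q))
    rw [sum_nz_dot _ hw] at k2
    rw [sum_congr rfl fun p _ => e p, sum_add_distrib, sum_sub_distrib, k2]
    linarith

/-- the form -/
def Df (s t : Vc h) : ZMod 2 := s ⬝ᵥ φ t + ψ s ⬝ᵥ t

/-- the nine values on the grid -/
noncomputable def Nf (p q : Vc h × Vc h) : ℝ :=
  (nz (Df φ ψ p.1 q.1) + nz (Df φ ψ p.1 q.2) + nz (Df φ ψ p.1 (q.1 + q.2))) +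
  (nz (Df φ ψ p.2 q.1) + nz (Df φ ψ p.2 q.2) + nz (Df φ ψ p.2 (q.1 + q.2))) +
  (nz (Df φ ψ (p.1 + p.2) q.1) + nz (Df φ ψ (p.1 + p.2) q.2) +
    nz (Df φ ψ (p.1 + p.2) (q.1 + q.2)))

theorem row_parity (s : Vc h) (q : Vc h × Vc h) :
    Df φ ψ s q.1 + Df φ ψ s q.2 + Df φ ψ s (q.1 + q.2) = s ⬝ᵥ W φ q := by
  unfold Df W
  rw [dotProduct_add, dotProduct_add, dotProduct_add]
  have h2 : ∀ a b c d e : ZMod 2, a + d + (b + e) + (c + (d + e)) = a + b + c := by decide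
  exact h2 _ _ _ _ _

theorem col_parity (p : Vc h × Vc h) (t : Vc h) :
    Df φ ψ p.1 t + Df φ ψ p.2 t + Df φ ψ (p.1 + p.2) t = t ⬝ᵥ W ψ p := by
  unfold Df W
  rw [dotProduct_comm t, add_dotProduct, add_dotProduct, add_dotProduct]
  have h2 : ∀ a b c d e : ZMod 2, d + a + (e + b) + (d + e + c) = a + b + c := by decide
  exact h2 _ _ _ _ _

theorem rows_le (p q : Vc h × Vc h) : 2 * Xf p (W φ q) ≤ Nf φ ψ p q := by
  have r1 := nz_add3_le (Df φ ψ p.1 q.1) (Df φ ψ p.1 q.2) (Df φ ψ p.1 (q.1 + q.2))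
  have r2 := nz_add3_le (Df φ ψ p.2 q.1) (Df φ ψ p.2 q.2) (Df φ ψ p.2 (q.1 + q.2))
  have r3 := nz_add3_le (Df φ ψ (p.1 + p.2) q.1) (Df φ ψ (p.1 + p.2) q.2)
    (Df φ ψ (p.1 + p.2) (q.1 + q.2))
  rw [row_parity] at r1 r2 r3
  rw [add_dotProduct] at r3
  have := nz_pair (p.1 ⬝ᵥ W φ q) (p.2 ⬝ᵥ W φ q)
  unfold Xf Nf
  linarith

theorem cols_le (p q : Vc h × Vc h) : 2 * Xf q (W ψ p) ≤ Nf φ ψ p q := by
  have r1 := nz_add3_le (Df φ ψ p.1 q.1) (Df φ ψ p.2 q.1) (Df φ ψ (p.1 + p.2) q.1)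
  have r2 := nz_add3_le (Df φ ψ p.1 q.2) (Df φ ψ p.2 q.2) (Df φ ψ (p.1 + p.2) q.2)
  have r3 := nz_add3_le (Df φ ψ p.1 (q.1 + q.2)) (Df φ ψ p.2 (q.1 + q.2))
    (Df φ ψ (p.1 + p.2) (q.1 + q.2))
  rw [col_parity] at r1 r2 r3
  rw [add_dotProduct] at r3
  have := nz_pair (q.1 ⬝ᵥ W ψ p) (q.2 ⬝ᵥ W ψ p)
  unfold Xf Nf
  linarith

theorem pointwise (p q : Vc h × Vc h) :
    2 * (Xf p (W φ q) + Xf q (W ψ p) - Xf p (W φ q) * A ψ p) ≤ Nf φ ψ p q := by
  by_cases hw : W ψ p = 0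
  · have e1 : A ψ p = 0 := by
      unfold A
      rw [τ_eq, if_pos hw, sub_self]
    rw [e1, hw, Xf_zero]
    have := rows_le φ ψ p q
    linarith
  · have e1 : A ψ p = 1 := by
      unfold A
      rw [τ_eq, if_neg hw, sub_zero]
    rw [e1]
    have := cols_le φ ψ p q
    linarith

/-- the three ways in which a pair determines a vector -/
theorem sum_pair (f : Vc h → ℝ) :
    (∑ p : Vc h × Vc h, f p.1 = Fintype.card (Vc h) * ∑ s, f s) ∧
    (∑ p : Vc h × Vc h, f p.2 = Fintype.card (Vc h) * ∑ s, f s) ∧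
    (∑ p : Vc h × Vc h, f (p.1 + p.2) = Fintype.card (Vc h) * ∑ s, f s) := by
  refine ⟨?_, ?_, ?_⟩
  · rw [Fintype.sum_prod_type]
    simp only [sum_const, card_univ, nsmul_eq_mul, mul_sum]
  · rw [Fintype.sum_prod_type_right]
    simp only [sum_const, card_univ, nsmul_eq_mul, mul_sum]
  · rw [Fintype.sum_prod_type]
    have : ∀ x : Vc h, ∑ y : Vc h, f ((x, y).1 + (x, y).2) = ∑ s, f s := fun x =>
      Fintype.sum_equiv (Equiv.addLeft x) _ _ (fun y => rfl)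
    rw [sum_congr rfl fun x _ => this x]
    simp

theorem sum_Nf :
    ∑ p : Vc h × Vc h, ∑ q : Vc h × Vc h, Nf φ ψ p q =
      9 * (Fintype.card (Vc h) : ℝ) ^ 2 * ∑ s, ∑ t, nz (Df φ ψ s t) := by
  have inner : ∀ s : Vc h, ∑ q : Vc h × Vc h, (nz (Df φ ψ s q.1) + nz (Df φ ψ s q.2) +
      nz (Df φ ψ s (q.1 + q.2))) = 3 * (Fintype.card (Vc h) : ℝ) * ∑ t, nz (Df φ ψ s t) := by
    intro s
    obtain ⟨a, b, c⟩ := sum_pair (fun t => nz (Df φ ψ s t))
    rw [sum_add_distrib, sum_add_distrib, a, b, c]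
    ring
  unfold Nf
  simp only [sum_add_distrib (f := fun q => _ + _ + _ + (_ + _ + _)), sum_add_distrib] at inner ⊢
  obtain ⟨a, b, c⟩ := sum_pair (fun s => 3 * (Fintype.card (Vc h) : ℝ) * ∑ t, nz (Df φ ψ s t))
  have : ∑ p : Vc h × Vc h, (3 * (Fintype.card (Vc h) : ℝ) * ∑ t, nz (Df φ ψ p.1 t) +
      3 * (Fintype.card (Vc h) : ℝ) * ∑ t, nz (Df φ ψ p.2 t) +
      3 * (Fintype.card (Vc h) : ℝ) * ∑ t, nz (Df φ ψ (p.1 + p.2) t)) =
      9 * (Fintype.card (Vc h) : ℝ) ^ 2 * ∑ s, ∑ t, nz (Df φ ψ s t) := by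
    rw [sum_add_distrib, sum_add_distrib, a, b, c, ← mul_sum]
    ring
  rw [← this]
  simp only [← inner, sum_add_distrib]

theorem A_bounds (hφ : ∀ x, wt (φ x) = 2) :
    (Fintype.card (Vc h) : ℝ) ^ 2 / 2 ≤ ∑ p, A φ p ∧
      ∑ p, A φ p ≤ (Fintype.card (Vc h) : ℝ) ^ 2 := by
  have e : ∑ p, A φ p = (Fintype.card (Vc h) : ℝ) ^ 2 - ∑ x, ∑ y, τ φ x y := by
    unfold A
    rw [sum_sub_distrib, Fintype.sum_prod_type (f := fun p : Vc h × Vc h => τ φ p.1 p.2)]
    simp only [sum_const, card_univ, Fintype.card_prod, nsmul_eq_mul, mul_one]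
    push_cast
    ring
  have k := sum_τ_le φ (fun x => add_self_pi x) hφ
  have k2 : 0 ≤ ∑ x, ∑ y, τ φ x y := sum_nonneg fun x _ => sum_nonneg fun y _ => τ_nonneg φ x y
  rw [e]
  constructor <;> linarith

/-- The grid inequality. -/
theorem grid (hφ : ∀ x, wt (φ x) = 2) (hψ : ∀ x, wt (ψ x) = 2) :
    (Fintype.card (Vc h) : ℝ) ^ 2 / 8 ≤ ∑ s, ∑ t, nz (Df φ ψ s t) := by
  obtain ⟨n, hn⟩ : ∃ n : ℝ, n = (Fintype.card (Vc h) : ℝ) := ⟨_, rfl⟩
  have hn0 : 0 < n := by rw [hn]; exact_mod_cast Fintype.card_pos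
  obtain ⟨a1, a2⟩ := A_bounds φ hφ
  obtain ⟨b1, b2⟩ := A_bounds ψ hψ
  have hsum := sum_Nf φ ψ
  have hle : ∑ p : Vc h × Vc h, ∑ q : Vc h × Vc h,
      2 * (Xf p (W φ q) + Xf q (W ψ p) - Xf p (W φ q) * A ψ p) ≤
      ∑ p : Vc h × Vc h, ∑ q : Vc h × Vc h, Nf φ ψ p q :=
    sum_le_sum fun p _ => sum_le_sum fun q _ => pointwise φ ψ p q
  have s1 : ∑ p : Vc h × Vc h, ∑ q : Vc h × Vc h, Xf p (W φ q) =
      3 / 4 * (Fintype.card (Vc h) : ℝ) ^ 2 * ∑ q, A φ q := by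
    rw [sum_comm, mul_sum]
    exact sum_congr rfl fun q _ => sum_Xf φ q
  have s2 : ∑ p : Vc h × Vc h, ∑ q : Vc h × Vc h, Xf q (W ψ p) =
      3 / 4 * (Fintype.card (Vc h) : ℝ) ^ 2 * ∑ p, A ψ p := by
    rw [mul_sum]
    exact sum_congr rfl fun p _ => sum_Xf ψ p
  have s3 : ∑ p : Vc h × Vc h, ∑ q : Vc h × Vc h, Xf p (W φ q) * A ψ p ≤
      (∑ q, A φ q) * (∑ p, A ψ p - (Fintype.card (Vc h) : ℝ) ^ 2 / 8) := by
    rw [sum_comm, sum_mul]
    exact sum_le_sum fun q _ => sum_Xf_A φ ψ hψ q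
  have e : ∑ p : Vc h × Vc h, ∑ q : Vc h × Vc h,
      2 * (Xf p (W φ q) + Xf q (W ψ p) - Xf p (W φ q) * A ψ p) =
      2 * (∑ p : Vc h × Vc h, ∑ q : Vc h × Vc h, Xf p (W φ q) +
        ∑ p : Vc h × Vc h, ∑ q : Vc h × Vc h, Xf q (W ψ p) -
        ∑ p : Vc h × Vc h, ∑ q : Vc h × Vc h, Xf p (W φ q) * A ψ p) := by
    simp only [← sum_add_distrib, ← sum_sub_distrib, mul_sum]
  rw [e, s1, s2, hsum] at hle
  rw [← hn] at *
  obtain ⟨a, ha⟩ : ∃ a, a = ∑ q, A φ q := ⟨_, rfl⟩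
  obtain ⟨b, hb⟩ : ∃ b, b = ∑ q, A ψ q := ⟨_, rfl⟩
  obtain ⟨d, hd⟩ : ∃ d, d = ∑ s, ∑ t, nz (Df φ ψ s t) := ⟨_, rfl⟩
  rw [← ha] at a1 a2 hle s3
  rw [← hb] at b1 b2 hle s3
  rw [← hd] at hle ⊢
  have main : 2 * (3 / 4 * n ^ 2 * a + 3 / 4 * n ^ 2 * b - a * (b - n ^ 2 / 8)) ≤
      9 * n ^ 2 * d := by linarith
  have q1 : 0 ≤ (a - n ^ 2 / 2) * (n ^ 2 - b) := mul_nonneg (by linarith) (by linarith)
  have q2 : 0 ≤ (b - n ^ 2 / 2) * (n ^ 2 - a) := mul_nonneg (by linarith) (by linarith)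
  have q3 : 0 ≤ (a - n ^ 2 / 2) * n ^ 2 := mul_nonneg (by linarith) (by positivity)
  have q4 : 0 ≤ (b - n ^ 2 / 2) * n ^ 2 := mul_nonneg (by linarith) (by positivity)
  have fin : 9 * n ^ 2 * (n ^ 2 / 8) ≤ 9 * n ^ 2 * d := by nlinarith
  exact le_of_mul_le_mul_left fin (by positivity)

end Pool.Agent.Lib.MP_e6e31f_co
end
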